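import Pool.Agent.V5helper47.OD.S2

/-! Search, the empty half word. -/

set_option maxRecDepth 1000000

namespace Pool.Agent.V5helper47.OD

open H419R2 Pool.Agent.N911 Pool.Agent.V5helper47.CN

theorem cw_nil : ckW [] = true := by decide +kernel

end Pool.Agent.V5helper47.OD
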