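import Pool.Agent.V5helper47.OD.S2

/-! Search, part of the half words. -/

set_option maxRecDepth 1000000

namespace Pool.Agent.V5helper47.OD

open H419R2 Pool.Agent.N911 Pool.Agent.V5helper47.CN

theorem cw_5_0_0 : ckW [5] = true := by decide +kernel
theorem cw_5_0_1 : ckW [1,4] = true := by decide +kernel
theorem cw_5_0_2 : ckW [2,2] = true := by decide +kernel
theorem cw_5_0_3 : ckW [4,1] = true := by decide +kernel
theorem cw_5_0_4 : ckW [1,1,2] = true := by decide +kernel
theorem cw_5_0_5 : ckW [1,3,1] = true := by decide +kernel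
theorem cw_5_0_6 : ckW [2,1,1] = true := by decide +kernel
theorem cw_5_0_7 : ckW [1,1,1,1] = true := by decide +kernel
def lp_5_0 : List (List ℕ) := [[5], [1,4], [2,2], [4,1], [1,1,2], [1,3,1], [2,1,1], [1,1,1,1]]
theorem lr_5_0 : ∀ l ∈ lp_5_0, ckW l = true := by
  intro l hl
  simp only [lp_5_0, List.mem_cons, List.not_mem_nil, or_false] at hl
  rcases hl with rfl | rfl | rfl | rfl | rfl | rfl | rfl | rfl
  · exact cw_5_0_0
  · exact cw_5_0_1
  · exact cw_5_0_2
  · exact cw_5_0_3
  · exact cw_5_0_4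
  · exact cw_5_0_5
  · exact cw_5_0_6
  · exact cw_5_0_7
theorem cw_6_0_0 : ckW [6] = true := by decide +kernel
theorem cw_6_0_1 : ckW [1,5] = true := by decide +kernel
theorem cw_6_0_2 : ckW [5,1] = true := by decide +kernel
theorem cw_6_0_3 : ckW [1,4,1] = true := by decide +kernel
def lp_6_0 : List (List ℕ) := [[6], [1,5], [5,1], [1,4,1]]
theorem lr_6_0 : ∀ l ∈ lp_6_0, ckW l = true := by
  intro l hl
  simp only [lp_6_0, List.mem_cons, List.not_mem_nil, or_false] at hl
  rcases hl with rfl | rfl | rfl | rfl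
  · exact cw_6_0_0
  · exact cw_6_0_1
  · exact cw_6_0_2
  · exact cw_6_0_3

end Pool.Agent.V5helper47.OD
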