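import Pool.Agent.V5helper47.OD.S2

/-! Search, part of the half words. -/

set_option maxRecDepth 1000000

namespace Pool.Agent.V5helper47.OD

open H419R2 Pool.Agent.N911 Pool.Agent.V5helper47.CN

theorem cw_10_0_0 : ckW [10] = true := by decide +kernel
theorem cw_10_0_1 : ckW [1,9] = true := by decide +kernel
theorem cw_10_0_2 : ckW [3,3] = true := by decide +kernel
theorem cw_10_0_3 : ckW [9,1] = true := by decide +kernel
theorem cw_10_0_4 : ckW [1,2,3] = true := by decide +kernel
theorem cw_10_0_5 : ckW [1,8,1] = true := by decide +kernel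
theorem cw_10_0_6 : ckW [3,2,1] = true := by decide +kernel
theorem cw_10_0_7 : ckW [1,2,2,1] = true := by decide +kernel
def lp_10_0 : List (List ℕ) := [[10], [1,9], [3,3], [9,1], [1,2,3], [1,8,1], [3,2,1], [1,2,2,1]]
theorem lr_10_0 : ∀ l ∈ lp_10_0, ckW l = true := by
  intro l hl
  simp only [lp_10_0, List.mem_cons, List.not_mem_nil, or_false] at hl
  rcases hl with rfl | rfl | rfl | rfl | rfl | rfl | rfl | rfl
  · exact cw_10_0_0
  · exact cw_10_0_1
  · exact cw_10_0_2
  · exact cw_10_0_3
  · exact cw_10_0_4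
  · exact cw_10_0_5
  · exact cw_10_0_6
  · exact cw_10_0_7
theorem cw_11_0_0 : ckW [11] = true := by decide +kernel
theorem cw_11_0_1 : ckW [1,10] = true := by decide +kernel
theorem cw_11_0_2 : ckW [2,5] = true := by decide +kernel
theorem cw_11_0_3 : ckW [5,2] = true := by decide +kernel
theorem cw_11_0_4 : ckW [10,1] = true := by decide +kernel
theorem cw_11_0_5 : ckW [1,1,5] = true := by decide +kernel
theorem cw_11_0_6 : ckW [1,4,2] = true := by decide +kernel
theorem cw_11_0_7 : ckW [1,9,1] = true := by decide +kernel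
theorem cw_11_0_8 : ckW [2,1,3] = true := by decide +kernel
theorem cw_11_0_9 : ckW [2,4,1] = true := by decide +kernel
def lp_11_0 : List (List ℕ) := [[11], [1,10], [2,5], [5,2], [10,1], [1,1,5], [1,4,2], [1,9,1], [2,1,3], [2,4,1]]
theorem lr_11_0 : ∀ l ∈ lp_11_0, ckW l = true := by
  intro l hl
  simp only [lp_11_0, List.mem_cons, List.not_mem_nil, or_false] at hl
  rcases hl with rfl | rfl | rfl | rfl | rfl | rfl | rfl | rfl | rfl | rfl
  · exact cw_11_0_0
  · exact cw_11_0_1
  · exact cw_11_0_2
  · exact cw_11_0_3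
  · exact cw_11_0_4
  · exact cw_11_0_5
  · exact cw_11_0_6
  · exact cw_11_0_7
  · exact cw_11_0_8
  · exact cw_11_0_9

end Pool.Agent.V5helper47.OD
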