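import Pool.Agent.V5helper47.OD.S2

/-! Search, part of the half words. -/

set_option maxRecDepth 1000000

namespace Pool.Agent.V5helper47.OD

open H419R2 Pool.Agent.N911 Pool.Agent.V5helper47.CN

theorem cw_17_0_0 : ckW [17] = true := by decide +kernel
theorem cw_17_0_1 : ckW [1,16] = true := by decide +kernel
theorem cw_17_0_2 : ckW [2,8] = true := by decide +kernel
theorem cw_17_0_3 : ckW [4,4] = true := by decide +kernel
theorem cw_17_0_4 : ckW [8,2] = true := by decide +kernel
theorem cw_17_0_5 : ckW [16,1] = true := by decide +kernel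
theorem cw_17_0_6 : ckW [1,1,8] = true := by decide +kernel
theorem cw_17_0_7 : ckW [1,3,4] = true := by decide +kernel
theorem cw_17_0_8 : ckW [1,7,2] = true := by decide +kernel
theorem cw_17_0_9 : ckW [1,15,1] = true := by decide +kernel
theorem cw_17_0_10 : ckW [2,1,5] = true := by decide +kernel
theorem cw_17_0_11 : ckW [2,2,3] = true := by decide +kernel
theorem cw_17_0_12 : ckW [2,7,1] = true := by decide +kernel
theorem cw_17_0_13 : ckW [3,2,2] = true := by decide +kernel
theorem cw_17_0_14 : ckW [4,3,1] = true := by decide +kernel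
theorem cw_17_0_15 : ckW [5,1,2] = true := by decide +kernel
def lp_17_0 : List (List ℕ) := [[17], [1,16], [2,8], [4,4], [8,2], [16,1], [1,1,8], [1,3,4], [1,7,2], [1,15,1], [2,1,5], [2,2,3], [2,7,1], [3,2,2], [4,3,1], [5,1,2]]
theorem lr_17_0 : ∀ l ∈ lp_17_0, ckW l = true := by
  intro l hl
  simp only [lp_17_0, List.mem_cons, List.not_mem_nil, or_false] at hl
  rcases hl with rfl | rfl | rfl | rfl | rfl | rfl | rfl | rfl | rfl | rfl | rfl | rfl | rfl | rfl | rfl | rfl
  · exact cw_17_0_0
  · exact cw_17_0_1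
  · exact cw_17_0_2
  · exact cw_17_0_3
  · exact cw_17_0_4
  · exact cw_17_0_5
  · exact cw_17_0_6
  · exact cw_17_0_7
  · exact cw_17_0_8
  · exact cw_17_0_9
  · exact cw_17_0_10
  · exact cw_17_0_11
  · exact cw_17_0_12
  · exact cw_17_0_13
  · exact cw_17_0_14
  · exact cw_17_0_15

end Pool.Agent.V5helper47.OD
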