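import Pool.Agent.V5helper47.OD.S2

/-! Search, part of the half words. -/

set_option maxRecDepth 1000000

namespace Pool.Agent.V5helper47.OD

open H419R2 Pool.Agent.N911 Pool.Agent.V5helper47.CN

theorem cw_19_2_0 : ckW [2,1,2,2] = true := by decide +kernel
theorem cw_19_2_1 : ckW [2,2,1,2] = true := by decide +kernel
theorem cw_19_2_2 : ckW [3,1,3,1] = true := by decide +kernel
theorem cw_19_2_3 : ckW [4,1,2,1] = true := by decide +kernel
theorem cw_19_2_4 : ckW [1,1,1,2,2] = true := by decide +kernel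
theorem cw_19_2_5 : ckW [1,1,2,1,2] = true := by decide +kernel
theorem cw_19_2_6 : ckW [1,2,1,3,1] = true := by decide +kernel
theorem cw_19_2_7 : ckW [1,3,1,2,1] = true := by decide +kernel
theorem cw_19_2_8 : ckW [2,1,2,1,1] = true := by decide +kernel
theorem cw_19_2_9 : ckW [2,2,1,1,1] = true := by decide +kernel
theorem cw_19_2_10 : ckW [1,1,1,2,1,1] = true := by decide +kernel
theorem cw_19_2_11 : ckW [1,1,2,1,1,1] = true := by decide +kernel
def lp_19_2 : List (List ℕ) := [[2,1,2,2], [2,2,1,2], [3,1,3,1], [4,1,2,1], [1,1,1,2,2], [1,1,2,1,2], [1,2,1,3,1], [1,3,1,2,1], [2,1,2,1,1], [2,2,1,1,1], [1,1,1,2,1,1], [1,1,2,1,1,1]]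
theorem lr_19_2 : ∀ l ∈ lp_19_2, ckW l = true := by
  intro l hl
  simp only [lp_19_2, List.mem_cons, List.not_mem_nil, or_false] at hl
  rcases hl with rfl | rfl | rfl | rfl | rfl | rfl | rfl | rfl | rfl | rfl | rfl | rfl
  · exact cw_19_2_0
  · exact cw_19_2_1
  · exact cw_19_2_2
  · exact cw_19_2_3
  · exact cw_19_2_4
  · exact cw_19_2_5
  · exact cw_19_2_6
  · exact cw_19_2_7
  · exact cw_19_2_8
  · exact cw_19_2_9
  · exact cw_19_2_10
  · exact cw_19_2_11

end Pool.Agent.V5helper47.OD
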