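import Pool.Agent.V5helper47.OD.S2

/-! Search, part of the half words. -/

set_option maxRecDepth 1000000

namespace Pool.Agent.V5helper47.OD

open H419R2 Pool.Agent.N911 Pool.Agent.V5helper47.CN

theorem cw_21_1_0 : ckW [2,9,1] = true := by decide +kernel
theorem cw_21_1_1 : ckW [4,4,1] = true := by decide +kernel
theorem cw_21_1_2 : ckW [5,3,1] = true := by decide +kernel
theorem cw_21_1_3 : ckW [10,1,1] = true := by decide +kernel
theorem cw_21_1_4 : ckW [1,1,9,1] = true := by decide +kernel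
theorem cw_21_1_5 : ckW [1,3,4,1] = true := by decide +kernel
theorem cw_21_1_6 : ckW [1,4,3,1] = true := by decide +kernel
theorem cw_21_1_7 : ckW [1,9,1,1] = true := by decide +kernel
theorem cw_21_1_8 : ckW [2,1,1,1,2] = true := by decide +kernel
theorem cw_21_1_9 : ckW [1,1,1,1,1,2] = true := by decide +kernel
theorem cw_21_1_10 : ckW [2,1,1,1,1,1] = true := by decide +kernel
theorem cw_21_1_11 : ckW [1,1,1,1,1,1,1] = true := by decide +kernel
def lp_21_1 : List (List ℕ) := [[2,9,1], [4,4,1], [5,3,1], [10,1,1], [1,1,9,1], [1,3,4,1], [1,4,3,1], [1,9,1,1], [2,1,1,1,2], [1,1,1,1,1,2], [2,1,1,1,1,1], [1,1,1,1,1,1,1]]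
theorem lr_21_1 : ∀ l ∈ lp_21_1, ckW l = true := by
  intro l hl
  simp only [lp_21_1, List.mem_cons, List.not_mem_nil, or_false] at hl
  rcases hl with rfl | rfl | rfl | rfl | rfl | rfl | rfl | rfl | rfl | rfl | rfl | rfl
  · exact cw_21_1_0
  · exact cw_21_1_1
  · exact cw_21_1_2
  · exact cw_21_1_3
  · exact cw_21_1_4
  · exact cw_21_1_5
  · exact cw_21_1_6
  · exact cw_21_1_7
  · exact cw_21_1_8
  · exact cw_21_1_9
  · exact cw_21_1_10
  · exact cw_21_1_11

end Pool.Agent.V5helper47.OD
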