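import Pool.Agent.V5helper47.OD.S2

/-! Search, part of the half words. -/

set_option maxRecDepth 1000000

namespace Pool.Agent.V5helper47.OD

open H419R2 Pool.Agent.N911 Pool.Agent.V5helper47.CN

theorem cw_22_0_0 : ckW [22] = true := by decide +kernel
theorem cw_22_0_1 : ckW [1,21] = true := by decide +kernel
theorem cw_22_0_2 : ckW [3,7] = true := by decide +kernel
theorem cw_22_0_3 : ckW [7,3] = true := by decide +kernel
theorem cw_22_0_4 : ckW [21,1] = true := by decide +kernel
theorem cw_22_0_5 : ckW [1,2,7] = true := by decide +kernel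
theorem cw_22_0_6 : ckW [1,6,3] = true := by decide +kernel
theorem cw_22_0_7 : ckW [1,20,1] = true := by decide +kernel
theorem cw_22_0_8 : ckW [2,2,4] = true := by decide +kernel
theorem cw_22_0_9 : ckW [3,6,1] = true := by decide +kernel
def lp_22_0 : List (List ℕ) := [[22], [1,21], [3,7], [7,3], [21,1], [1,2,7], [1,6,3], [1,20,1], [2,2,4], [3,6,1]]
theorem lr_22_0 : ∀ l ∈ lp_22_0, ckW l = true := by
  intro l hl
  simp only [lp_22_0, List.mem_cons, List.not_mem_nil, or_false] at hl
  rcases hl with rfl | rfl | rfl | rfl | rfl | rfl | rfl | rfl | rfl | rfl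
  · exact cw_22_0_0
  · exact cw_22_0_1
  · exact cw_22_0_2
  · exact cw_22_0_3
  · exact cw_22_0_4
  · exact cw_22_0_5
  · exact cw_22_0_6
  · exact cw_22_0_7
  · exact cw_22_0_8
  · exact cw_22_0_9

end Pool.Agent.V5helper47.OD
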