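import Pool.Agent.V5helper47.OD.S2

/-! Search, part of the half words. -/

set_option maxRecDepth 1000000

namespace Pool.Agent.V5helper47.OD

open H419R2 Pool.Agent.N911 Pool.Agent.V5helper47.CN

theorem cw_23_0_0 : ckW [23] = true := by decide +kernel
theorem cw_23_0_1 : ckW [1,22] = true := by decide +kernel
theorem cw_23_0_2 : ckW [2,11] = true := by decide +kernel
theorem cw_23_0_3 : ckW [11,2] = true := by decide +kernel
theorem cw_23_0_4 : ckW [22,1] = true := by decide +kernel
theorem cw_23_0_5 : ckW [1,1,11] = true := by decide +kernel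
theorem cw_23_0_6 : ckW [1,10,2] = true := by decide +kernel
theorem cw_23_0_7 : ckW [1,21,1] = true := by decide +kernel
theorem cw_23_0_8 : ckW [2,1,7] = true := by decide +kernel
theorem cw_23_0_9 : ckW [2,3,3] = true := by decide +kernel
theorem cw_23_0_10 : ckW [2,10,1] = true := by decide +kernel
theorem cw_23_0_11 : ckW [3,1,5] = true := by decide +kernel
theorem cw_23_0_12 : ckW [3,3,2] = true := by decide +kernel
theorem cw_23_0_13 : ckW [5,1,3] = true := by decide +kernel
theorem cw_23_0_14 : ckW [7,1,2] = true := by decide +kernel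
def lp_23_0 : List (List ℕ) := [[23], [1,22], [2,11], [11,2], [22,1], [1,1,11], [1,10,2], [1,21,1], [2,1,7], [2,3,3], [2,10,1], [3,1,5], [3,3,2], [5,1,3], [7,1,2]]
theorem lr_23_0 : ∀ l ∈ lp_23_0, ckW l = true := by
  intro l hl
  simp only [lp_23_0, List.mem_cons, List.not_mem_nil, or_false] at hl
  rcases hl with rfl | rfl | rfl | rfl | rfl | rfl | rfl | rfl | rfl | rfl | rfl | rfl | rfl | rfl | rfl
  · exact cw_23_0_0
  · exact cw_23_0_1
  · exact cw_23_0_2
  · exact cw_23_0_3
  · exact cw_23_0_4
  · exact cw_23_0_5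
  · exact cw_23_0_6
  · exact cw_23_0_7
  · exact cw_23_0_8
  · exact cw_23_0_9
  · exact cw_23_0_10
  · exact cw_23_0_11
  · exact cw_23_0_12
  · exact cw_23_0_13
  · exact cw_23_0_14

end Pool.Agent.V5helper47.OD
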