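import Pool.Agent.V5helper47.OD.S2

/-! Search, part of the half words. -/

set_option maxRecDepth 1000000

namespace Pool.Agent.V5helper47.OD

open H419R2 Pool.Agent.N911 Pool.Agent.V5helper47.CN

theorem cw_23_1_0 : ckW [11,1,1] = true := by decide +kernel
theorem cw_23_1_1 : ckW [1,1,1,7] = true := by decide +kernel
theorem cw_23_1_2 : ckW [1,1,3,3] = true := by decide +kernel
theorem cw_23_1_3 : ckW [1,1,10,1] = true := by decide +kernel
theorem cw_23_1_4 : ckW [1,2,1,5] = true := by decide +kernel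
theorem cw_23_1_5 : ckW [1,2,3,2] = true := by decide +kernel
theorem cw_23_1_6 : ckW [1,4,1,3] = true := by decide +kernel
theorem cw_23_1_7 : ckW [1,6,1,2] = true := by decide +kernel
theorem cw_23_1_8 : ckW [1,10,1,1] = true := by decide +kernel
theorem cw_23_1_9 : ckW [2,1,1,4] = true := by decide +kernel
theorem cw_23_1_10 : ckW [2,1,6,1] = true := by decide +kernel
theorem cw_23_1_11 : ckW [2,3,2,1] = true := by decide +kernel
theorem cw_23_1_12 : ckW [3,1,4,1] = true := by decide +kernel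
theorem cw_23_1_13 : ckW [3,3,1,1] = true := by decide +kernel
theorem cw_23_1_14 : ckW [4,1,1,2] = true := by decide +kernel
def lp_23_1 : List (List ℕ) := [[11,1,1], [1,1,1,7], [1,1,3,3], [1,1,10,1], [1,2,1,5], [1,2,3,2], [1,4,1,3], [1,6,1,2], [1,10,1,1], [2,1,1,4], [2,1,6,1], [2,3,2,1], [3,1,4,1], [3,3,1,1], [4,1,1,2]]
theorem lr_23_1 : ∀ l ∈ lp_23_1, ckW l = true := by
  intro l hl
  simp only [lp_23_1, List.mem_cons, List.not_mem_nil, or_false] at hl
  rcases hl with rfl | rfl | rfl | rfl | rfl | rfl | rfl | rfl | rfl | rfl | rfl | rfl | rfl | rfl | rfl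
  · exact cw_23_1_0
  · exact cw_23_1_1
  · exact cw_23_1_2
  · exact cw_23_1_3
  · exact cw_23_1_4
  · exact cw_23_1_5
  · exact cw_23_1_6
  · exact cw_23_1_7
  · exact cw_23_1_8
  · exact cw_23_1_9
  · exact cw_23_1_10
  · exact cw_23_1_11
  · exact cw_23_1_12
  · exact cw_23_1_13
  · exact cw_23_1_14

end Pool.Agent.V5helper47.OD
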