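import Pool.Agent.V5helper47.OD.S2

/-! Search, part of the half words. -/

set_option maxRecDepth 1000000

namespace Pool.Agent.V5helper47.OD

open H419R2 Pool.Agent.N911 Pool.Agent.V5helper47.CN

theorem cw_28_0_0 : ckW [28] = true := by decide +kernel
theorem cw_28_0_1 : ckW [1,27] = true := by decide +kernel
theorem cw_28_0_2 : ckW [3,9] = true := by decide +kernel
theorem cw_28_0_3 : ckW [9,3] = true := by decide +kernel
theorem cw_28_0_4 : ckW [27,1] = true := by decide +kernel
theorem cw_28_0_5 : ckW [1,2,9] = true := by decide +kernel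
theorem cw_28_0_6 : ckW [1,8,3] = true := by decide +kernel
theorem cw_28_0_7 : ckW [1,26,1] = true := by decide +kernel
theorem cw_28_0_8 : ckW [2,6,2] = true := by decide +kernel
theorem cw_28_0_9 : ckW [3,8,1] = true := by decide +kernel
theorem cw_28_0_10 : ckW [9,2,1] = true := by decide +kernel
theorem cw_28_0_11 : ckW [1,1,6,2] = true := by decide +kernel
def lp_28_0 : List (List ℕ) := [[28], [1,27], [3,9], [9,3], [27,1], [1,2,9], [1,8,3], [1,26,1], [2,6,2], [3,8,1], [9,2,1], [1,1,6,2]]
theorem lr_28_0 : ∀ l ∈ lp_28_0, ckW l = true := by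
  intro l hl
  simp only [lp_28_0, List.mem_cons, List.not_mem_nil, or_false] at hl
  rcases hl with rfl | rfl | rfl | rfl | rfl | rfl | rfl | rfl | rfl | rfl | rfl | rfl
  · exact cw_28_0_0
  · exact cw_28_0_1
  · exact cw_28_0_2
  · exact cw_28_0_3
  · exact cw_28_0_4
  · exact cw_28_0_5
  · exact cw_28_0_6
  · exact cw_28_0_7
  · exact cw_28_0_8
  · exact cw_28_0_9
  · exact cw_28_0_10
  · exact cw_28_0_11

end Pool.Agent.V5helper47.OD
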