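import Pool.Agent.V5helper47.OD.S2

/-! Search, part of the half words. -/

set_option maxRecDepth 1000000

namespace Pool.Agent.V5helper47.OD

open H419R2 Pool.Agent.N911 Pool.Agent.V5helper47.CN

theorem cw_29_0_0 : ckW [29] = true := by decide +kernel
theorem cw_29_0_1 : ckW [1,28] = true := by decide +kernel
theorem cw_29_0_2 : ckW [2,14] = true := by decide +kernel
theorem cw_29_0_3 : ckW [4,7] = true := by decide +kernel
theorem cw_29_0_4 : ckW [7,4] = true := by decide +kernel
theorem cw_29_0_5 : ckW [14,2] = true := by decide +kernel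
theorem cw_29_0_6 : ckW [28,1] = true := by decide +kernel
theorem cw_29_0_7 : ckW [1,1,14] = true := by decide +kernel
theorem cw_29_0_8 : ckW [1,3,7] = true := by decide +kernel
theorem cw_29_0_9 : ckW [1,6,4] = true := by decide +kernel
theorem cw_29_0_10 : ckW [1,13,2] = true := by decide +kernel
theorem cw_29_0_11 : ckW [1,27,1] = true := by decide +kernel
theorem cw_29_0_12 : ckW [2,1,9] = true := by decide +kernel
theorem cw_29_0_13 : ckW [2,4,3] = true := by decide +kernel
def lp_29_0 : List (List ℕ) := [[29], [1,28], [2,14], [4,7], [7,4], [14,2], [28,1], [1,1,14], [1,3,7], [1,6,4], [1,13,2], [1,27,1], [2,1,9], [2,4,3]]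
theorem lr_29_0 : ∀ l ∈ lp_29_0, ckW l = true := by
  intro l hl
  simp only [lp_29_0, List.mem_cons, List.not_mem_nil, or_false] at hl
  rcases hl with rfl | rfl | rfl | rfl | rfl | rfl | rfl | rfl | rfl | rfl | rfl | rfl | rfl | rfl
  · exact cw_29_0_0
  · exact cw_29_0_1
  · exact cw_29_0_2
  · exact cw_29_0_3
  · exact cw_29_0_4
  · exact cw_29_0_5
  · exact cw_29_0_6
  · exact cw_29_0_7
  · exact cw_29_0_8
  · exact cw_29_0_9
  · exact cw_29_0_10
  · exact cw_29_0_11
  · exact cw_29_0_12
  · exact cw_29_0_13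

end Pool.Agent.V5helper47.OD
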