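import Pool.Agent.V5helper47.OD.S2

/-! Search, part of the half words. -/

set_option maxRecDepth 1000000

namespace Pool.Agent.V5helper47.OD

open H419R2 Pool.Agent.N911 Pool.Agent.V5helper47.CN

theorem cw_29_1_0 : ckW [2,13,1] = true := by decide +kernel
theorem cw_29_1_1 : ckW [3,4,2] = true := by decide +kernel
theorem cw_29_1_2 : ckW [4,1,5] = true := by decide +kernel
theorem cw_29_1_3 : ckW [4,6,1] = true := by decide +kernel
theorem cw_29_1_4 : ckW [5,1,4] = true := by decide +kernel
theorem cw_29_1_5 : ckW [7,3,1] = true := by decide +kernel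
theorem cw_29_1_6 : ckW [9,1,2] = true := by decide +kernel
theorem cw_29_1_7 : ckW [14,1,1] = true := by decide +kernel
theorem cw_29_1_8 : ckW [1,1,1,9] = true := by decide +kernel
theorem cw_29_1_9 : ckW [1,1,4,3] = true := by decide +kernel
theorem cw_29_1_10 : ckW [1,1,13,1] = true := by decide +kernel
theorem cw_29_1_11 : ckW [1,2,4,2] = true := by decide +kernel
theorem cw_29_1_12 : ckW [1,3,1,5] = true := by decide +kernel
theorem cw_29_1_13 : ckW [1,3,6,1] = true := by decide +kernel
def lp_29_1 : List (List ℕ) := [[2,13,1], [3,4,2], [4,1,5], [4,6,1], [5,1,4], [7,3,1], [9,1,2], [14,1,1], [1,1,1,9], [1,1,4,3], [1,1,13,1], [1,2,4,2], [1,3,1,5], [1,3,6,1]]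
theorem lr_29_1 : ∀ l ∈ lp_29_1, ckW l = true := by
  intro l hl
  simp only [lp_29_1, List.mem_cons, List.not_mem_nil, or_false] at hl
  rcases hl with rfl | rfl | rfl | rfl | rfl | rfl | rfl | rfl | rfl | rfl | rfl | rfl | rfl | rfl
  · exact cw_29_1_0
  · exact cw_29_1_1
  · exact cw_29_1_2
  · exact cw_29_1_3
  · exact cw_29_1_4
  · exact cw_29_1_5
  · exact cw_29_1_6
  · exact cw_29_1_7
  · exact cw_29_1_8
  · exact cw_29_1_9
  · exact cw_29_1_10
  · exact cw_29_1_11
  · exact cw_29_1_12
  · exact cw_29_1_13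

end Pool.Agent.V5helper47.OD
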