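import Pool.Agent.V5helper47.OD.S2

/-! Search, part of the half words. -/

set_option maxRecDepth 1000000

namespace Pool.Agent.V5helper47.OD

open H419R2 Pool.Agent.N911 Pool.Agent.V5helper47.CN

theorem cw_31_0_0 : ckW [31] = true := by decide +kernel
theorem cw_31_0_1 : ckW [1,30] = true := by decide +kernel
theorem cw_31_0_2 : ckW [2,15] = true := by decide +kernel
theorem cw_31_0_3 : ckW [3,10] = true := by decide +kernel
theorem cw_31_0_4 : ckW [5,6] = true := by decide +kernel
theorem cw_31_0_5 : ckW [6,5] = true := by decide +kernel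
theorem cw_31_0_6 : ckW [10,3] = true := by decide +kernel
theorem cw_31_0_7 : ckW [15,2] = true := by decide +kernel
theorem cw_31_0_8 : ckW [30,1] = true := by decide +kernel
theorem cw_31_0_9 : ckW [1,1,15] = true := by decide +kernel
theorem cw_31_0_10 : ckW [1,2,10] = true := by decide +kernel
theorem cw_31_0_11 : ckW [1,4,6] = true := by decide +kernel
theorem cw_31_0_12 : ckW [1,5,5] = true := by decide +kernel
theorem cw_31_0_13 : ckW [1,9,3] = true := by decide +kernel
theorem cw_31_0_14 : ckW [1,14,2] = true := by decide +kernel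
def lp_31_0 : List (List ℕ) := [[31], [1,30], [2,15], [3,10], [5,6], [6,5], [10,3], [15,2], [30,1], [1,1,15], [1,2,10], [1,4,6], [1,5,5], [1,9,3], [1,14,2]]
theorem lr_31_0 : ∀ l ∈ lp_31_0, ckW l = true := by
  intro l hl
  simp only [lp_31_0, List.mem_cons, List.not_mem_nil, or_false] at hl
  rcases hl with rfl | rfl | rfl | rfl | rfl | rfl | rfl | rfl | rfl | rfl | rfl | rfl | rfl | rfl | rfl
  · exact cw_31_0_0
  · exact cw_31_0_1
  · exact cw_31_0_2
  · exact cw_31_0_3
  · exact cw_31_0_4
  · exact cw_31_0_5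
  · exact cw_31_0_6
  · exact cw_31_0_7
  · exact cw_31_0_8
  · exact cw_31_0_9
  · exact cw_31_0_10
  · exact cw_31_0_11
  · exact cw_31_0_12
  · exact cw_31_0_13
  · exact cw_31_0_14

end Pool.Agent.V5helper47.OD
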