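import Pool.Agent.V5helper47.OD.S2

/-! Search, part of the half words. -/

set_option maxRecDepth 1000000

namespace Pool.Agent.V5helper47.OD

open H419R2 Pool.Agent.N911 Pool.Agent.V5helper47.CN

theorem cw_31_2_0 : ckW [1,3,2,3] = true := by decide +kernel
theorem cw_31_2_1 : ckW [1,4,5,1] = true := by decide +kernel
theorem cw_31_2_2 : ckW [1,5,4,1] = true := by decide +kernel
theorem cw_31_2_3 : ckW [1,6,1,3] = true := by decide +kernel
theorem cw_31_2_4 : ckW [1,9,2,1] = true := by decide +kernel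
theorem cw_31_2_5 : ckW [1,14,1,1] = true := by decide +kernel
theorem cw_31_2_6 : ckW [2,1,4,2] = true := by decide +kernel
theorem cw_31_2_7 : ckW [2,4,1,2] = true := by decide +kernel
theorem cw_31_2_8 : ckW [3,1,6,1] = true := by decide +kernel
theorem cw_31_2_9 : ckW [3,2,3,1] = true := by decide +kernel
theorem cw_31_2_10 : ckW [4,2,2,1] = true := by decide +kernel
theorem cw_31_2_11 : ckW [7,1,2,1] = true := by decide +kernel
theorem cw_31_2_12 : ckW [1,1,1,4,2] = true := by decide +kernel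
theorem cw_31_2_13 : ckW [1,1,4,1,2] = true := by decide +kernel
theorem cw_31_2_14 : ckW [1,2,1,6,1] = true := by decide +kernel
def lp_31_2 : List (List ℕ) := [[1,3,2,3], [1,4,5,1], [1,5,4,1], [1,6,1,3], [1,9,2,1], [1,14,1,1], [2,1,4,2], [2,4,1,2], [3,1,6,1], [3,2,3,1], [4,2,2,1], [7,1,2,1], [1,1,1,4,2], [1,1,4,1,2], [1,2,1,6,1]]
theorem lr_31_2 : ∀ l ∈ lp_31_2, ckW l = true := by
  intro l hl
  simp only [lp_31_2, List.mem_cons, List.not_mem_nil, or_false] at hl
  rcases hl with rfl | rfl | rfl | rfl | rfl | rfl | rfl | rfl | rfl | rfl | rfl | rfl | rfl | rfl | rfl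
  · exact cw_31_2_0
  · exact cw_31_2_1
  · exact cw_31_2_2
  · exact cw_31_2_3
  · exact cw_31_2_4
  · exact cw_31_2_5
  · exact cw_31_2_6
  · exact cw_31_2_7
  · exact cw_31_2_8
  · exact cw_31_2_9
  · exact cw_31_2_10
  · exact cw_31_2_11
  · exact cw_31_2_12
  · exact cw_31_2_13
  · exact cw_31_2_14

end Pool.Agent.V5helper47.OD
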