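import Pool.Agent.V5helper47.OD.S2

/-! Search, part of the half words. -/

set_option maxRecDepth 1000000

namespace Pool.Agent.V5helper47.OD

open H419R2 Pool.Agent.N911 Pool.Agent.V5helper47.CN

theorem cw_31_3_0 : ckW [1,2,2,3,1] = true := by decide +kernel
theorem cw_31_3_1 : ckW [1,3,2,2,1] = true := by decide +kernel
theorem cw_31_3_2 : ckW [1,6,1,2,1] = true := by decide +kernel
theorem cw_31_3_3 : ckW [2,1,1,2,2] = true := by decide +kernel
theorem cw_31_3_4 : ckW [2,1,4,1,1] = true := by decide +kernel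
theorem cw_31_3_5 : ckW [2,2,1,1,2] = true := by decide +kernel
theorem cw_31_3_6 : ckW [2,4,1,1,1] = true := by decide +kernel
theorem cw_31_3_7 : ckW [1,1,1,1,2,2] = true := by decide +kernel
theorem cw_31_3_8 : ckW [1,1,1,4,1,1] = true := by decide +kernel
theorem cw_31_3_9 : ckW [1,1,2,1,1,2] = true := by decide +kernel
theorem cw_31_3_10 : ckW [1,1,4,1,1,1] = true := by decide +kernel
theorem cw_31_3_11 : ckW [2,1,1,2,1,1] = true := by decide +kernel
theorem cw_31_3_12 : ckW [2,2,1,1,1,1] = true := by decide +kernel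
theorem cw_31_3_13 : ckW [1,1,1,1,2,1,1] = true := by decide +kernel
theorem cw_31_3_14 : ckW [1,1,2,1,1,1,1] = true := by decide +kernel
def lp_31_3 : List (List ℕ) := [[1,2,2,3,1], [1,3,2,2,1], [1,6,1,2,1], [2,1,1,2,2], [2,1,4,1,1], [2,2,1,1,2], [2,4,1,1,1], [1,1,1,1,2,2], [1,1,1,4,1,1], [1,1,2,1,1,2], [1,1,4,1,1,1], [2,1,1,2,1,1], [2,2,1,1,1,1], [1,1,1,1,2,1,1], [1,1,2,1,1,1,1]]
theorem lr_31_3 : ∀ l ∈ lp_31_3, ckW l = true := by
  intro l hl
  simp only [lp_31_3, List.mem_cons, List.not_mem_nil, or_false] at hl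
  rcases hl with rfl | rfl | rfl | rfl | rfl | rfl | rfl | rfl | rfl | rfl | rfl | rfl | rfl | rfl | rfl
  · exact cw_31_3_0
  · exact cw_31_3_1
  · exact cw_31_3_2
  · exact cw_31_3_3
  · exact cw_31_3_4
  · exact cw_31_3_5
  · exact cw_31_3_6
  · exact cw_31_3_7
  · exact cw_31_3_8
  · exact cw_31_3_9
  · exact cw_31_3_10
  · exact cw_31_3_11
  · exact cw_31_3_12
  · exact cw_31_3_13
  · exact cw_31_3_14

end Pool.Agent.V5helper47.OD
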