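import Pool.Agent.V5helper47.OD.S2

/-! Search, part of the half words. -/

set_option maxRecDepth 1000000

namespace Pool.Agent.V5helper47.OD

open H419R2 Pool.Agent.N911 Pool.Agent.V5helper47.CN

theorem cw_33_0_0 : ckW [33] = true := by decide +kernel
theorem cw_33_0_1 : ckW [1,32] = true := by decide +kernel
theorem cw_33_0_2 : ckW [2,16] = true := by decide +kernel
theorem cw_33_0_3 : ckW [4,8] = true := by decide +kernel
theorem cw_33_0_4 : ckW [8,4] = true := by decide +kernel
theorem cw_33_0_5 : ckW [16,2] = true := by decide +kernel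
theorem cw_33_0_6 : ckW [32,1] = true := by decide +kernel
theorem cw_33_0_7 : ckW [1,1,16] = true := by decide +kernel
theorem cw_33_0_8 : ckW [1,3,8] = true := by decide +kernel
theorem cw_33_0_9 : ckW [1,7,4] = true := by decide +kernel
theorem cw_33_0_10 : ckW [1,15,2] = true := by decide +kernel
theorem cw_33_0_11 : ckW [1,31,1] = true := by decide +kernel
theorem cw_33_0_12 : ckW [2,15,1] = true := by decide +kernel
theorem cw_33_0_13 : ckW [3,3,3] = true := by decide +kernel
def lp_33_0 : List (List ℕ) := [[33], [1,32], [2,16], [4,8], [8,4], [16,2], [32,1], [1,1,16], [1,3,8], [1,7,4], [1,15,2], [1,31,1], [2,15,1], [3,3,3]]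
theorem lr_33_0 : ∀ l ∈ lp_33_0, ckW l = true := by
  intro l hl
  simp only [lp_33_0, List.mem_cons, List.not_mem_nil, or_false] at hl
  rcases hl with rfl | rfl | rfl | rfl | rfl | rfl | rfl | rfl | rfl | rfl | rfl | rfl | rfl | rfl
  · exact cw_33_0_0
  · exact cw_33_0_1
  · exact cw_33_0_2
  · exact cw_33_0_3
  · exact cw_33_0_4
  · exact cw_33_0_5
  · exact cw_33_0_6
  · exact cw_33_0_7
  · exact cw_33_0_8
  · exact cw_33_0_9
  · exact cw_33_0_10
  · exact cw_33_0_11
  · exact cw_33_0_12
  · exact cw_33_0_13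

end Pool.Agent.V5helper47.OD
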