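import Pool.Agent.V5helper47.OD.S2

/-! Search, part of the half words. -/

set_option maxRecDepth 1000000

namespace Pool.Agent.V5helper47.OD

open H419R2 Pool.Agent.N911 Pool.Agent.V5helper47.CN

theorem cw_33_1_0 : ckW [4,7,1] = true := by decide +kernel
theorem cw_33_1_1 : ckW [8,3,1] = true := by decide +kernel
theorem cw_33_1_2 : ckW [16,1,1] = true := by decide +kernel
theorem cw_33_1_3 : ckW [1,1,15,1] = true := by decide +kernel
theorem cw_33_1_4 : ckW [1,2,3,3] = true := by decide +kernel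
theorem cw_33_1_5 : ckW [1,3,7,1] = true := by decide +kernel
theorem cw_33_1_6 : ckW [1,7,3,1] = true := by decide +kernel
theorem cw_33_1_7 : ckW [1,15,1,1] = true := by decide +kernel
theorem cw_33_1_8 : ckW [2,1,1,6] = true := by decide +kernel
theorem cw_33_1_9 : ckW [2,2,1,4] = true := by decide +kernel
theorem cw_33_1_10 : ckW [3,3,2,1] = true := by decide +kernel
theorem cw_33_1_11 : ckW [4,1,2,2] = true := by decide +kernel
theorem cw_33_1_12 : ckW [6,1,1,2] = true := by decide +kernel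
theorem cw_33_1_13 : ckW [1,1,1,1,6] = true := by decide +kernel
def lp_33_1 : List (List ℕ) := [[4,7,1], [8,3,1], [16,1,1], [1,1,15,1], [1,2,3,3], [1,3,7,1], [1,7,3,1], [1,15,1,1], [2,1,1,6], [2,2,1,4], [3,3,2,1], [4,1,2,2], [6,1,1,2], [1,1,1,1,6]]
theorem lr_33_1 : ∀ l ∈ lp_33_1, ckW l = true := by
  intro l hl
  simp only [lp_33_1, List.mem_cons, List.not_mem_nil, or_false] at hl
  rcases hl with rfl | rfl | rfl | rfl | rfl | rfl | rfl | rfl | rfl | rfl | rfl | rfl | rfl | rfl
  · exact cw_33_1_0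
  · exact cw_33_1_1
  · exact cw_33_1_2
  · exact cw_33_1_3
  · exact cw_33_1_4
  · exact cw_33_1_5
  · exact cw_33_1_6
  · exact cw_33_1_7
  · exact cw_33_1_8
  · exact cw_33_1_9
  · exact cw_33_1_10
  · exact cw_33_1_11
  · exact cw_33_1_12
  · exact cw_33_1_13

end Pool.Agent.V5helper47.OD
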