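import Pool.Agent.V5helper47.OD.S2

/-! Search, part of the half words. -/

set_option maxRecDepth 1000000

namespace Pool.Agent.V5helper47.OD

open H419R2 Pool.Agent.N911 Pool.Agent.V5helper47.CN

theorem cw_34_0_0 : ckW [34] = true := by decide +kernel
theorem cw_34_0_1 : ckW [1,33] = true := by decide +kernel
theorem cw_34_0_2 : ckW [3,11] = true := by decide +kernel
theorem cw_34_0_3 : ckW [11,3] = true := by decide +kernel
theorem cw_34_0_4 : ckW [33,1] = true := by decide +kernel
theorem cw_34_0_5 : ckW [1,2,11] = true := by decide +kernel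
theorem cw_34_0_6 : ckW [1,10,3] = true := by decide +kernel
theorem cw_34_0_7 : ckW [1,32,1] = true := by decide +kernel
theorem cw_34_0_8 : ckW [3,10,1] = true := by decide +kernel
theorem cw_34_0_9 : ckW [4,1,6] = true := by decide +kernel
theorem cw_34_0_10 : ckW [6,1,4] = true := by decide +kernel
theorem cw_34_0_11 : ckW [11,2,1] = true := by decide +kernel
theorem cw_34_0_12 : ckW [1,2,10,1] = true := by decide +kernel
theorem cw_34_0_13 : ckW [1,3,1,6] = true := by decide +kernel
theorem cw_34_0_14 : ckW [1,5,1,4] = true := by decide +kernel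
theorem cw_34_0_15 : ckW [1,10,2,1] = true := by decide +kernel
def lp_34_0 : List (List ℕ) := [[34], [1,33], [3,11], [11,3], [33,1], [1,2,11], [1,10,3], [1,32,1], [3,10,1], [4,1,6], [6,1,4], [11,2,1], [1,2,10,1], [1,3,1,6], [1,5,1,4], [1,10,2,1]]
theorem lr_34_0 : ∀ l ∈ lp_34_0, ckW l = true := by
  intro l hl
  simp only [lp_34_0, List.mem_cons, List.not_mem_nil, or_false] at hl
  rcases hl with rfl | rfl | rfl | rfl | rfl | rfl | rfl | rfl | rfl | rfl | rfl | rfl | rfl | rfl | rfl | rfl
  · exact cw_34_0_0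
  · exact cw_34_0_1
  · exact cw_34_0_2
  · exact cw_34_0_3
  · exact cw_34_0_4
  · exact cw_34_0_5
  · exact cw_34_0_6
  · exact cw_34_0_7
  · exact cw_34_0_8
  · exact cw_34_0_9
  · exact cw_34_0_10
  · exact cw_34_0_11
  · exact cw_34_0_12
  · exact cw_34_0_13
  · exact cw_34_0_14
  · exact cw_34_0_15

end Pool.Agent.V5helper47.OD
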