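import Pool.Agent.V5helper47.OD.T6
import Pool.Agent.V5helper47.OD.P00
import Pool.Agent.V5helper47.OD.Q

/-! All half words with first entry at most `34`. -/

set_option maxRecDepth 100000

namespace Pool.Agent.V5helper47.OD

open H419R2 Pool.Agent.N911 Finset Pool.Agent.V5helper47.CN

theorem ok_nil : OkO .nil := by
  have h : ckW [] = true := cw_nil
  unfold ckW at h
  rw [cj_true] at h
  exact h

theorem full : FullO 34 := by
  intro w hw h34
  by_cases hn : w = .nil
  · subst hn
    exact ok_nil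
  have h1 := mat_pos hw
  obtain ⟨v, hv⟩ : ∃ v, (mat w).1 = v := ⟨_, rfl⟩
  have h1' : 1 ≤ v := by omega
  have h34' : v ≤ 34 := by omega
  interval_cases v
  · exact okO_of_list lq_1 wq_1 hw hn hv
  · exact okO_of_list lq_2 wq_2 hw hn hv
  · exact okO_of_list lq_3 wq_3 hw hn hv
  · exact okO_of_list lq_4 wq_4 hw hn hv
  · exact okO_of_list lq_5 wq_5 hw hn hv
  · exact okO_of_list lq_6 wq_6 hw hn hv
  · exact okO_of_list lq_7 wq_7 hw hn hv
  · exact okO_of_list lq_8 wq_8 hw hn hv
  · exact okO_of_list lq_9 wq_9 hw hn hv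
  · exact okO_of_list lq_10 wq_10 hw hn hv
  · exact okO_of_list lq_11 wq_11 hw hn hv
  · exact okO_of_list lq_12 wq_12 hw hn hv
  · exact okO_of_list lq_13 wq_13 hw hn hv
  · exact okO_of_list lq_14 wq_14 hw hn hv
  · exact okO_of_list lq_15 wq_15 hw hn hv
  · exact okO_of_list lq_16 wq_16 hw hn hv
  · exact okO_of_list lq_17 wq_17 hw hn hv
  · exact okO_of_list lq_18 wq_18 hw hn hv
  · exact okO_of_list lq_19 wq_19 hw hn hv
  · exact okO_of_list lq_20 wq_20 hw hn hv
  · exact okO_of_list lq_21 wq_21 hw hn hv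
  · exact okO_of_list lq_22 wq_22 hw hn hv
  · exact okO_of_list lq_23 wq_23 hw hn hv
  · exact okO_of_list lq_24 wq_24 hw hn hv
  · exact okO_of_list lq_25 wq_25 hw hn hv
  · exact okO_of_list lq_26 wq_26 hw hn hv
  · exact okO_of_list lq_27 wq_27 hw hn hv
  · exact okO_of_list lq_28 wq_28 hw hn hv
  · exact okO_of_list lq_29 wq_29 hw hn hv
  · exact okO_of_list lq_30 wq_30 hw hn hv
  · exact okO_of_list lq_31 wq_31 hw hn hv
  · exact okO_of_list lq_32 wq_32 hw hn hv
  · exact okO_of_list lq_33 wq_33 hw hn hv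
  · exact okO_of_list lq_34 wq_34 hw hn hv

end Pool.Agent.V5helper47.OD
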