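import Pool.Agent.V5helper47.OD.S2

/-! Search, part of the half words. -/

set_option maxRecDepth 1000000

namespace Pool.Agent.V5helper47.OD

open H419R2 Pool.Agent.N911 Pool.Agent.V5helper47.CN

theorem cw_1_0_0 : ckW [1] = true := by decide +kernel
def lp_1_0 : List (List ℕ) := [[1]]
theorem lr_1_0 : ∀ l ∈ lp_1_0, ckW l = true := by
  intro l hl
  simp only [lp_1_0, List.mem_cons, List.not_mem_nil, or_false] at hl
  rw [hl]
  exact cw_1_0_0
theorem cw_2_0_0 : ckW [2] = true := by decide +kernel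
theorem cw_2_0_1 : ckW [1,1] = true := by decide +kernel
def lp_2_0 : List (List ℕ) := [[2], [1,1]]
theorem lr_2_0 : ∀ l ∈ lp_2_0, ckW l = true := by
  intro l hl
  simp only [lp_2_0, List.mem_cons, List.not_mem_nil, or_false] at hl
  rcases hl with rfl | rfl
  · exact cw_2_0_0
  · exact cw_2_0_1
theorem cw_3_0_0 : ckW [3] = true := by decide +kernel
theorem cw_3_0_1 : ckW [1,2] = true := by decide +kernel
theorem cw_3_0_2 : ckW [2,1] = true := by decide +kernel
theorem cw_3_0_3 : ckW [1,1,1] = true := by decide +kernel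
def lp_3_0 : List (List ℕ) := [[3], [1,2], [2,1], [1,1,1]]
theorem lr_3_0 : ∀ l ∈ lp_3_0, ckW l = true := by
  intro l hl
  simp only [lp_3_0, List.mem_cons, List.not_mem_nil, or_false] at hl
  rcases hl with rfl | rfl | rfl | rfl
  · exact cw_3_0_0
  · exact cw_3_0_1
  · exact cw_3_0_2
  · exact cw_3_0_3
theorem cw_4_0_0 : ckW [4] = true := by decide +kernel
theorem cw_4_0_1 : ckW [1,3] = true := by decide +kernel
theorem cw_4_0_2 : ckW [3,1] = true := by decide +kernel
theorem cw_4_0_3 : ckW [1,2,1] = true := by decide +kernel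
def lp_4_0 : List (List ℕ) := [[4], [1,3], [3,1], [1,2,1]]
theorem lr_4_0 : ∀ l ∈ lp_4_0, ckW l = true := by
  intro l hl
  simp only [lp_4_0, List.mem_cons, List.not_mem_nil, or_false] at hl
  rcases hl with rfl | rfl | rfl | rfl
  · exact cw_4_0_0
  · exact cw_4_0_1
  · exact cw_4_0_2
  · exact cw_4_0_3

end Pool.Agent.V5helper47.OD
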