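import Pool.Agent.V5helper47.OD.S2

/-! Search, part of the half words. -/

set_option maxRecDepth 1000000

namespace Pool.Agent.V5helper47.OD

open H419R2 Pool.Agent.N911 Pool.Agent.V5helper47.CN

theorem cw_25_0_0 : ckW [25] = true := by decide +kernel
theorem cw_25_0_1 : ckW [1,24] = true := by decide +kernel
theorem cw_25_0_2 : ckW [2,12] = true := by decide +kernel
theorem cw_25_0_3 : ckW [3,8] = true := by decide +kernel
theorem cw_25_0_4 : ckW [4,6] = true := by decide +kernel
theorem cw_25_0_5 : ckW [6,4] = true := by decide +kernel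
theorem cw_25_0_6 : ckW [8,3] = true := by decide +kernel
theorem cw_25_0_7 : ckW [12,2] = true := by decide +kernel
theorem cw_25_0_8 : ckW [24,1] = true := by decide +kernel
theorem cw_25_0_9 : ckW [1,1,12] = true := by decide +kernel
theorem cw_25_0_10 : ckW [1,2,8] = true := by decide +kernel
theorem cw_25_0_11 : ckW [1,3,6] = true := by decide +kernel
theorem cw_25_0_12 : ckW [1,5,4] = true := by decide +kernel
theorem cw_25_0_13 : ckW [1,7,3] = true := by decide +kernel
def lp_25_0 : List (List ℕ) := [[25], [1,24], [2,12], [3,8], [4,6], [6,4], [8,3], [12,2], [24,1], [1,1,12], [1,2,8], [1,3,6], [1,5,4], [1,7,3]]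
theorem lr_25_0 : ∀ l ∈ lp_25_0, ckW l = true := by
  intro l hl
  simp only [lp_25_0, List.mem_cons, List.not_mem_nil, or_false] at hl
  rcases hl with rfl | rfl | rfl | rfl | rfl | rfl | rfl | rfl | rfl | rfl | rfl | rfl | rfl | rfl
  · exact cw_25_0_0
  · exact cw_25_0_1
  · exact cw_25_0_2
  · exact cw_25_0_3
  · exact cw_25_0_4
  · exact cw_25_0_5
  · exact cw_25_0_6
  · exact cw_25_0_7
  · exact cw_25_0_8
  · exact cw_25_0_9
  · exact cw_25_0_10
  · exact cw_25_0_11
  · exact cw_25_0_12
  · exact cw_25_0_13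

end Pool.Agent.V5helper47.OD
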