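import Pool.Agent.V5helper47.OD.S2

/-! Search, part of the half words. -/

set_option maxRecDepth 1000000

namespace Pool.Agent.V5helper47.OD

open H419R2 Pool.Agent.N911 Pool.Agent.V5helper47.CN

theorem cw_30_0_0 : ckW [30] = true := by decide +kernel
theorem cw_30_0_1 : ckW [1,29] = true := by decide +kernel
theorem cw_30_0_2 : ckW [29,1] = true := by decide +kernel
theorem cw_30_0_3 : ckW [1,28,1] = true := by decide +kernel
theorem cw_30_0_4 : ckW [2,3,4] = true := by decide +kernel
theorem cw_30_0_5 : ckW [4,3,2] = true := by decide +kernel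
theorem cw_30_0_6 : ckW [1,1,3,4] = true := by decide +kernel
theorem cw_30_0_7 : ckW [1,3,3,2] = true := by decide +kernel
theorem cw_30_0_8 : ckW [2,3,3,1] = true := by decide +kernel
theorem cw_30_0_9 : ckW [4,3,1,1] = true := by decide +kernel
theorem cw_30_0_10 : ckW [1,1,3,3,1] = true := by decide +kernel
theorem cw_30_0_11 : ckW [1,3,3,1,1] = true := by decide +kernel
theorem cw_30_0_12 : ckW [2,1,2,1,2] = true := by decide +kernel
theorem cw_30_0_13 : ckW [1,1,1,2,1,2] = true := by decide +kernel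
theorem cw_30_0_14 : ckW [2,1,2,1,1,1] = true := by decide +kernel
theorem cw_30_0_15 : ckW [1,1,1,2,1,1,1] = true := by decide +kernel
def lp_30_0 : List (List ℕ) := [[30], [1,29], [29,1], [1,28,1], [2,3,4], [4,3,2], [1,1,3,4], [1,3,3,2], [2,3,3,1], [4,3,1,1], [1,1,3,3,1], [1,3,3,1,1], [2,1,2,1,2], [1,1,1,2,1,2], [2,1,2,1,1,1], [1,1,1,2,1,1,1]]
theorem lr_30_0 : ∀ l ∈ lp_30_0, ckW l = true := by
  intro l hl
  simp only [lp_30_0, List.mem_cons, List.not_mem_nil, or_false] at hl
  rcases hl with rfl | rfl | rfl | rfl | rfl | rfl | rfl | rfl | rfl | rfl | rfl | rfl | rfl | rfl | rfl | rfl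
  · exact cw_30_0_0
  · exact cw_30_0_1
  · exact cw_30_0_2
  · exact cw_30_0_3
  · exact cw_30_0_4
  · exact cw_30_0_5
  · exact cw_30_0_6
  · exact cw_30_0_7
  · exact cw_30_0_8
  · exact cw_30_0_9
  · exact cw_30_0_10
  · exact cw_30_0_11
  · exact cw_30_0_12
  · exact cw_30_0_13
  · exact cw_30_0_14
  · exact cw_30_0_15

end Pool.Agent.V5helper47.OD
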