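import Pool.Agent.V5helper47.CN.S2

/-! Search functions for odd palindromic periods `v v^r t`, `v = w b`, with free letters `b`, `t`. -/

set_option maxRecDepth 100000

namespace Pool.Agent.V5helper47.OD

open H419R2 Pool.Agent.N911 Pool.Agent.V5helper47.CN

/-- entries of the matrix of the palindrome modulo `l` -/
noncomputable def abo (l V X Y Z b : ℕ) (k : ℕ → ℕ → ℕ → ℕ → Bool) : Bool :=
  force (Nat.add (Nat.mul b V) X) (fun n =>
  force (Nat.add (Nat.mul b Y) Z) (fun m =>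
  force (Nat.mod (Nat.add (Nat.mul n n) (Nat.mul V V)) l) (fun A =>
  force (Nat.mod (Nat.add (Nat.mul n m) (Nat.mul V Y)) l) (fun B =>
  force (Nat.mod (Nat.add (Nat.mul m m) (Nat.mul Y Y)) l) (fun C =>
  force (Nat.mod (Nat.mul B C) l) (fun c =>
  force (Nat.mod (Nat.mul C C) l) (fun d => k A B c d)))))))

/-- all states -/
noncomputable def so3 (l I : ℕ) (sk : ℕ → ℕ → Bool) (V X Y Z : ℕ) (w : WL) (n : ℕ) :
    ST → (ST → Bool) → Bool :=
  @Nat.rec (fun _ => ST → (ST → Bool) → Bool) (fun S k => k S)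
    (fun b ih S k => snK w b (fun v => abo l V X Y Z b (fun A B c d =>
      st2 l I sk v b A B c d l S (fun S => ih S k)))) n

/-- states modulo an odd prime -/
noncomputable def soP (l I Q V X Y Z : ℕ) (w : WL) (k : ST → Bool) : Bool :=
  so3 l I (fun t P => skP l Q t P) V X Y Z w l ST.nil k

/-- states modulo four -/
noncomputable def soF (V X Y Z : ℕ) (w : WL) (k : ST → Bool) : Bool :=
  so3 4 I4 sk4 V X Y Z w 4 ST.nil k

/-- sum of a relation over two traces: constant and coefficient of the centre letter -/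
noncomputable def ro2 (gx ge : ℕ → ℕ → ℕ) (w : WL) :
    TL → TL → ℕ → ℕ → (ℕ → ℕ → Bool) → Bool :=
  @WL.rec (fun _ => TL → TL → ℕ → ℕ → (ℕ → ℕ → Bool) → Bool)
    (fun T T' u s k => T.hd (fun q i r => T'.hd (fun q' i' r' => force (ge i i') (fun e =>
      force (Nat.add s (Nat.mul (gx q q') (Nat.add (Nat.mul 2 (Nat.mod e 128))
        (Nat.mul u (Nat.div e 128))))) (fun s =>
      r.hd (fun q i _ => r'.hd (fun q' i' _ =>
        force (gx q q') (fun x => force (ge i i') (fun e =>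
          force (Nat.add s (Nat.mul x (Nat.mod e 128))) (fun s =>
            force (Nat.mul 4 (Nat.mul x (Nat.div e 128))) (fun c => k s c)))))))))))
    (fun a _ ih T T' u s k => T.hd (fun q i r => T'.hd (fun q' i' r' =>
      force (ge i i') (fun e => force (Nat.add s (Nat.mul (gx q q')
        (Nat.add (Nat.mul 2 (Nat.mod e 128)) (Nat.mul u (Nat.div e 128)))))
        (fun s => ih r r' (Nat.mul 4 a) s k))))) w

/-- sum of a relation over three traces -/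
noncomputable def ro3 (gx ge : ℕ → ℕ → ℕ → ℕ) (w : WL) :
    TL → TL → TL → ℕ → ℕ → (ℕ → ℕ → Bool) → Bool :=
  @WL.rec (fun _ => TL → TL → TL → ℕ → ℕ → (ℕ → ℕ → Bool) → Bool)
    (fun T T' T2 u s k => T.hd (fun q i r => T'.hd (fun q' i' r' => T2.hd (fun q2 i2 r2 =>
      force (ge i i' i2) (fun e =>
      force (Nat.add s (Nat.mul (gx q q' q2) (Nat.add (Nat.mul 2 (Nat.mod e 128))
        (Nat.mul u (Nat.div e 128))))) (fun s =>
      r.hd (fun q i _ => r'.hd (fun q' i' _ => r2.hd (fun q2 i2 _ =>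
        force (gx q q' q2) (fun x => force (ge i i' i2) (fun e =>
          force (Nat.add s (Nat.mul x (Nat.mod e 128))) (fun s =>
            force (Nat.mul 4 (Nat.mul x (Nat.div e 128))) (fun c => k s c)))))))))))))
    (fun a _ ih T T' T2 u s k => T.hd (fun q i r => T'.hd (fun q' i' r' =>
      T2.hd (fun q2 i2 r2 =>
      force (ge i i' i2) (fun e => force (Nat.add s (Nat.mul (gx q q' q2)
        (Nat.add (Nat.mul 2 (Nat.mod e 128)) (Nat.mul u (Nat.div e 128)))))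
        (fun s => ih r r' r2 (Nat.mul 4 a) s k)))))) w

/-- coefficients of a relation: constant, coefficient of `t`, coefficient of the centre -/
noncomputable def oo2 (gx ge : ℕ → ℕ → ℕ) (w : WL) (T T' : TL) (g : ℕ → ℕ → ℕ → Bool) : Bool :=
  ro2 gx ge w T T' 0 0 (fun K d => T.hd (fun _ i _ => T'.hd (fun _ i' _ =>
    force (Nat.mul 2 (Nat.div (ge i i') 128)) (fun c => g K c d))))

/-- coefficients of a relation -/
noncomputable def oo3 (gx ge : ℕ → ℕ → ℕ → ℕ) (w : WL) (T T' T2 : TL)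
    (g : ℕ → ℕ → ℕ → Bool) : Bool :=
  ro3 gx ge w T T' T2 0 0 (fun K d => T.hd (fun _ i _ => T'.hd (fun _ i' _ =>
    T2.hd (fun _ i2 _ => force (Nat.mul 2 (Nat.div (ge i i' i2) 128)) (fun c => g K c d)))))

/-- the relation holds for `t`, `b` -/
noncomputable def ox2 (p : ℕ) (gx ge : ℕ → ℕ → ℕ) (w : WL) (T T' : TL) (t b : ℕ) : Bool :=
  oo2 gx ge w T T' (fun K c d => l3 p K c d t b)

/-- the relation holds, no `B2` part -/
noncomputable def ox3 (p : ℕ) (gx ge : ℕ → ℕ → ℕ → ℕ) (w : WL) (T T' T2 : TL) : Bool :=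
  oo3 gx ge w T T' T2 (fun K _ _ => Nat.beq (Nat.mod K p) 0)

/-- the residues `t`, `b` cannot come from a solution -/
noncomputable def clo (p Q V X Y Z t b : ℕ) : Bool :=
  abo p V X Y Z b (fun A B c d => allN p (fun s =>
    imp (Nat.beq (Nat.mod (Nat.add (Nat.mul s A) c) p) t)
      (skP p Q t (Nat.mod (Nat.add (Nat.mul s B) d) p))))

/-- last stage modulo 73 -/
noncomputable def z73 (V X Y Z : ℕ) (w : WL) (T37 T7 T19 T13 : TL) : Bool :=
  oo2 (x247 c247_73_0) (e247 c247_73_0) w T13 T19 (fun K1 c1 d1 =>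
  oo2 (x133_73 c133_73) (e133_73 c133_73) w T7 T19 (fun K c d =>
  oo2 (x247 c247_73_1) (e247 c247_73_1) w T13 T19 (fun K2 c2 d2 =>
  oo2 (x259_73 c259_73) (e259_73 c259_73) w T7 T37 (fun K3 c3 d3 =>
    sol 73 K1 c1 d1 (fun t b => imp (l3 73 K c d t b) (imp (l3 73 K2 c2 d2 t b)
      (imp (l3 73 K3 c3 d3 t b) (clo 73 Q73 V X Y Z t b))))))))

/-- stages modulo 5 and 13 -/
noncomputable def z5 (V X Y Z : ℕ) (w : WL) (S5 S13 : ST) (t37 b37 : ℕ)
    (T37 T7 T19 T3 T4 : TL) : Bool :=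
  S5.all (fun _ _ _ T5 => imp (ox3 13 x140 e140 w T7 T4 T5)
    (oo2 x95 e95 w T19 T5 (fun K c d => oo3 x105 e105 w T7 T3 T5 (fun K1 c1 d1 =>
    oo2 x185 e185 w T37 T5 (fun K2 c2 d2 => oo2 x133_13 e133_13 w T7 T19 (fun K3 c3 d3 =>
    S13.all (fun t b _ T13 =>
      imp (l3 13 K c d t b) (imp (l3 13 K1 c1 d1 t b) (imp (l3 13 K2 c2 d2 t b)
      (imp (l3 13 K3 c3 d3 t b) (imp (ox2 37 x91 e91 w T7 T13 t37 b37)
        (z73 V X Y Z w T37 T7 T19 T13))))))))))))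

/-- stages modulo 3 and 4 -/
noncomputable def z3 (V X Y Z : ℕ) (w : WL) (S4 S3 S5 S13 : ST) (t37 b37 : ℕ)
    (T37 A7 A19 T7 : TL) (t19 b19 : ℕ) (T19 : TL) : Bool :=
  S3.all (fun _ _ _ T3 =>
    imp (ox2 19 x111_0 e111_0 w T37 T3 t19 b19) (imp (ox2 19 x111_1 e111_1 w T37 T3 t19 b19)
    (S4.all (fun _ _ _ T4 => imp (ck0 7 (WL.cons 0 w) A7 T4) (imp (ck0 19 (WL.cons 0 w) A19 T4)
      (imp (ox3 7 x228 e228 w T19 T3 T4)
        (z5 V X Y Z w S5 S13 t37 b37 T37 T7 T19 T3 T4)))))))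

/-- stages modulo 7 and 19 -/
noncomputable def z7 (V X Y Z : ℕ) (w : WL) (S4 S7 S19 S3 S5 S13 : ST) (t37 b37 : ℕ)
    (T37 A7 A19 : TL) : Bool :=
  mapT (sl 7 X259_2) (sl 49 E259_2) T37 (fun A2 =>
  mapT (sl 7 X259_0) (sl 98 E259_0) T37 (fun A0 =>
  mapT (sl 7 X259_1) (sl 98 E259_1) T37 (fun A1 =>
  S7.all (fun _ _ _ T7 => imp (ck0 19 (WL.cons 0 w) A2 T7)
    (oo2 sl1 sl2 w A0 T7 (fun K c d => oo2 sl1 sl2 w A1 T7 (fun K1 c1 d1 =>
      S19.all (fun t19 b19 _ T19 => imp (l3 19 K c d t19 b19) (imp (l3 19 K1 c1 d1 t19 b19)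
        (imp (ox2 37 x133_37 e133_37 w T7 T19 t37 b37)
          (z3 V X Y Z w S4 S3 S5 S13 t37 b37 T37 A7 A19 T7 t19 b19 T19)))))))))))

/-- all residues are impossible -/
noncomputable def zA (V X Y Z : ℕ) (w : WL) (S37 S4 S7 S19 S3 S5 S13 : ST) : Bool :=
  S37.all (fun t37 b37 _ T37 =>
    mapT (sl 4 X148_7) (sl 16 E148_7) T37 (fun A7 =>
    mapT (sl 4 X148_19) (sl 16 E148_19) T37 (fun A19 =>
    @Bool.rec (fun _ => Bool)
      (z7 V X Y Z w S4 S7 S19 S3 S5 S13 t37 b37 T37 A7 A19) true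
      (S4.all (fun _ _ _ T4 => imp (ck0 7 (WL.cons 0 w) A7 T4)
        (imp (ck0 19 (WL.cons 0 w) A19 T4) false))))))

/-- the search for one half word -/
noncomputable def zR (w : WL) : Bool :=
  maK w (fun V X Y Z => soP 37 I37 Q37 V X Y Z w (fun S37 => soF V X Y Z w (fun S4 =>
  soP 7 I7 Q7 V X Y Z w (fun S7 => soP 19 I19 Q19 V X Y Z w (fun S19 =>
  soP 3 I3 Q3 V X Y Z w (fun S3 => soP 5 I5 Q5 V X Y Z w (fun S5 =>
  soP 13 I13 Q13 V X Y Z w (fun S13 => zA V X Y Z w S37 S4 S7 S19 S3 S5 S13))))))))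

end Pool.Agent.V5helper47.OD
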