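import Pool.Agent.V5helper47.OD.S1
import Pool.Agent.V5helper47.EV.S1
import Pool.Agent.V5helper47.CN.S3

/-! Small parameters and small norms of the centre, odd periods. -/

set_option maxRecDepth 1000000

namespace Pool.Agent.V5helper47.OD

open H419R2 Pool.Agent.N911 Pool.Agent.V5helper47.CN Pool.Agent.V5helper47.EV

/-- the final list -/
def LO : List ℕ := [5, 13, 17, 29, 37, 41, 53, 61, 73, 89, 97, 101, 109, 113, 137, 149, 157, 173,
  181, 197, 233, 269, 277, 293, 317, 349, 353, 373, 389, 397, 461, 509, 557, 613, 653, 661, 677,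
  701, 773, 797, 821, 853, 877, 941, 997, 1013, 1061, 1109, 1181, 1277, 1493, 1613, 1637, 1877,
  1949, 1973, 1997, 2309, 2333, 2357, 2477, 2693, 2957, 3533, 3677, 3797, 3917, 3989, 4157, 4253,
  4373, 4397, 4517, 4973, 5309, 9173, 10853]

/-- membership in the final list -/
def inO (D : ℕ) : Bool := anyL LO (fun x => Nat.beq x D)

/-- small primes -/
def PWO : List ℕ := [2,3,5,7,11,13,17,19,23,29,31,37,41,43,47]

/-- witness -/
noncomputable def wtO (t P D : ℕ) (v : WL) : Bool := anyL PWO (fun l => witU1 v t P D l)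

/-- the matrix of a palindrome -/
noncomputable def trK (w : WL) : (ℕ → ℕ → ℕ → Bool) → Bool :=
  @WL.rec (fun _ => (ℕ → ℕ → ℕ → Bool) → Bool) (fun k => k 1 0 1)
    (fun a _ ih k => ih (fun U x y =>
      force (Nat.add y (Nat.add (Nat.mul (Nat.mul 2 a) x) (Nat.mul (Nat.mul a a) U))) (fun U' =>
      force (Nat.add x (Nat.mul a U)) (fun x' => k U' x' U)))) w

/-- a proper initial part passes a test -/
noncomputable def preO (v : WL) : (WL → Bool) → Bool :=
  @WL.rec (fun _ => (WL → Bool) → Bool) (fun _ => false)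
    (fun a _ ih k => or (k WL.nil) (ih (fun u => k (WL.cons a u)))) v

/-- the parameters belong to a word -/
noncomputable def lmO (t P : ℕ) (u : WL) : Bool :=
  trK u (fun U x y => Nat.beq (Nat.mul P U) (Nat.add (Nat.mul t x) y))

/-- check of one pair of parameters -/
noncomputable def ckO (v : WL) (t P : ℕ) : Bool :=
  force (Nat.add (Nat.mul t t) (Nat.mul 4 P)) (fun D =>
    or (Nat.beq (Nat.mod t 2) 0) (or (sqD D) (or (inO D) (or (wtO t P D v)
      (preO v (fun u => cj (lmO t P u) (wtO t P D u)))))))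

/-- small parameters, one centre letter -/
noncomputable def bO (w : WL) (V X Y Z T b : ℕ) : Bool :=
  force (Nat.add (Nat.mul b V) X) (fun n => force (Nat.add (Nat.mul b Y) Z) (fun m =>
  force (Nat.add (Nat.mul n n) (Nat.mul V V)) (fun U =>
  force (Nat.add (Nat.mul n m) (Nat.mul V Y)) (fun x =>
  force (Nat.add (Nat.mul m m) (Nat.mul Y Y)) (fun y =>
  force (Nat.mod (Nat.mul x y) U) (fun t =>
    @Bool.rec (fun _ => Bool)
      (force (Nat.div (Nat.add (Nat.mul t x) y) U) (fun P => snK w b (fun v =>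
        ltF (ckO v) U x T T t P))) true (Nat.ble T t)))))))

/-- small parameters, all centre letters -/
noncomputable def smO (w : WL) : Bool :=
  maK w (fun V X Y Z => force (Nat.mul 73 (Nat.add (mxK w 0) 2)) (fun T =>
    allN (Nat.add T 2) (fun i => force (Nat.succ i) (fun b => bO w V X Y Z T b))))

/-- one centre letter, given norm of the centre -/
noncomputable def cO (w : WL) (V X Y Z q b : ℕ) : Bool :=
  force (Nat.add (Nat.mul b V) X) (fun n => force (Nat.add (Nat.mul b Y) Z) (fun m =>
  force (Nat.add (Nat.mul n n) (Nat.mul V V)) (fun U =>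
  force (Nat.mul q U) (fun qU => force (Nat.mul V n) (fun c =>
  force (Nat.add (Nat.mul V m) (Nat.mul Y n)) (fun s =>
  force (Nat.div (Nat.sub qU s) c) (fun t =>
    imp (Nat.beq (Nat.add (Nat.mul t c) s) qU)
      (force (Nat.add (Nat.mul n m) (Nat.mul V Y)) (fun x =>
      force (Nat.add (Nat.mul m m) (Nat.mul Y Y)) (fun y =>
      force (Nat.add (Nat.mul t x) y) (fun r =>
      force (Nat.div r U) (fun P => imp (Nat.beq (Nat.mul P U) r)
        (snK w b (fun v => ckO v t P))))))))))))))

/-- given norm of the centre -/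
noncomputable def qO (w : WL) (V X Y Z q : ℕ) : Bool :=
  imp (Nat.beq (Nat.mod (Nat.mul q X) V) (Nat.mod Y V))
    (allN (Nat.mul q V) (fun i => force (Nat.succ i) (fun b => cO w V X Y Z q b)))

/-- all small norms of the centre used in the search -/
noncomputable def qsO (w : WL) : Bool := maK w (fun V X Y Z =>
  cj (qO w V X Y Z 1) (cj (qO w V X Y Z 2) (cj (qO w V X Y Z 3) (cj (qO w V X Y Z 5)
  (cj (qO w V X Y Z 7) (cj (qO w V X Y Z 13) (cj (qO w V X Y Z 19) (cj (qO w V X Y Z 37)
  (qO w V X Y Z 73)))))))))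

/-- both small checks -/
noncomputable def smq (w : WL) : Bool := cj (smO w) (qsO w)

/-- the check of a word -/
noncomputable def ckW (l : List ℕ) : Bool := cj (smq (wl l)) (zR (wl l))

end Pool.Agent.V5helper47.OD
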