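import Pool.Agent.V5helper47.CN.T9
import Pool.Agent.V5helper47.OD.S1
import Pool.Agent.N911.U5
import Pool.Agent.N911.U7

/-! Soundness of the enumeration of states, odd periods. -/

set_option maxRecDepth 100000

namespace Pool.Agent.V5helper47.OD

open H419R2 Pool.Agent.N911 Finset Pool.Agent.V5helper47.CN

/-- the matrix of the palindrome -/
theorem tr_snoc (w : WL) (b : ℕ) : (snoc w b).tr =
    ((b * (mat w).1 + (mat w).2.1) ^ 2 + (mat w).1 ^ 2,
      (b * (mat w).1 + (mat w).2.1) * (b * (mat w).2.2.1 + (mat w).2.2.2) +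
        (mat w).1 * (mat w).2.2.1,
      (b * (mat w).2.2.1 + (mat w).2.2.2) ^ 2 + (mat w).2.2.1 ^ 2) := by
  induction w with
  | nil =>
    change (WL.cons b .nil).tr = _
    rw [tr_cons, mat_nil]
    change (1 + (2 * b * 0 + b * b * 1), 0 + b * 1, 1) = _
    simp only [Prod.mk.injEq]
    refine ⟨by ring, by ring, by ring⟩
  | cons a l ih =>
    change (WL.cons a (snoc l b)).tr = _
    rw [tr_cons, ih, mat_cons, Prod.mk.injEq, Prod.mk.injEq]
    refine ⟨?_, ?_, ?_⟩
    · simp only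
      ring
    · simp only
      ring
    · rfl

/-- integral data of a word with a free centre letter -/
structure Do (w : WL) (b : ℕ) (t P : ℤ) (D : ℕ) : Prop where
  hD : (D : ℤ) = t ^ 2 + 4 * P
  lin : P * (snoc w b).tr.1 = t * (snoc w b).tr.2.1 + (snoc w b).tr.2.2

section

variable {w : WL} {b : ℕ} {t P : ℤ} {D : ℕ}

/-- the parameter -/
theorem Do.par (H : Do w b t P D) : ∃ s : ℤ,
    t = s * (snoc w b).tr.1 + (snoc w b).tr.2.1 * (snoc w b).tr.2.2 ∧
    P = s * (snoc w b).tr.2.1 + (snoc w b).tr.2.2 * (snoc w b).tr.2.2 := by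
  have hd := tr_det (snoc w b)
  have h := H.lin
  generalize (snoc w b).tr.1 = A at hd h ⊢
  generalize (snoc w b).tr.2.1 = B at hd h ⊢
  generalize (snoc w b).tr.2.2 = C at hd h ⊢
  have hd' : (A : ℤ) * C = B ^ 2 + 1 := by exact_mod_cast hd
  refine ⟨t * C - P * B, ?_, ?_⟩
  · linear_combination -t * hd' + (B : ℤ) * h
  · linear_combination -P * hd' + (C : ℤ) * h

end

/-- first entry -/
def oA (l V X b : ℕ) : ℕ := ((b * V + X) * (b * V + X) + V * V) % l
/-- second entry -/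
def oB (l V X Y Z b : ℕ) : ℕ := ((b * V + X) * (b * Y + Z) + V * Y) % l
/-- third entry -/
def oC (l Y Z b : ℕ) : ℕ := ((b * Y + Z) * (b * Y + Z) + Y * Y) % l

theorem abo_eq (l V X Y Z b : ℕ) (k : ℕ → ℕ → ℕ → ℕ → Bool) : abo l V X Y Z b k =
    k (oA l V X b) (oB l V X Y Z b) (oB l V X Y Z b * oC l Y Z b % l)
      (oC l Y Z b * oC l Y Z b % l) := by
  unfold abo
  simp only [force_eq]
  rfl

theorem so3_eq (l I : ℕ) (sk : ℕ → ℕ → Bool) (V X Y Z : ℕ) (w : WL) (n : ℕ) : ∀ S : ST,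
    ∃ S', (∀ k, so3 l I sk V X Y Z w n S k = k S') ∧
      (∀ t b a T, ST.Mem t b a T S → ST.Mem t b a T S') ∧
      (∀ b < n, ∀ s < l, ∀ t P, t = (s * oA l V X b + (oB l V X Y Z b * oC l Y Z b % l)) % l →
        P = (s * oB l V X Y Z b + (oC l Y Z b * oC l Y Z b % l)) % l →
        sk t P = false → ∀ T, (∀ g, mkT l I (snoc w b) 1 t P g = g T) →
        ST.Mem t b (lsq T 0 / 7) T S') := by
  induction n with
  | zero => exact fun S => ⟨S, fun k => rfl, fun _ _ _ _ h => h, fun s hs => absurd hs (by omega)⟩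
  | succ n ih =>
    intro S
    obtain ⟨S1, h1, m1, a1⟩ := st2_eq l I sk (snoc w n) n (oA l V X n) (oB l V X Y Z n)
      (oB l V X Y Z n * oC l Y Z n % l) (oC l Y Z n * oC l Y Z n % l) l S
    obtain ⟨S2, h2, m2, a2⟩ := ih S1
    refine ⟨S2, ?_, fun _ _ _ _ h => m2 _ _ _ _ (m1 _ _ _ _ h), ?_⟩
    · intro k
      have e : so3 l I sk V X Y Z w (n + 1) S k =
        snK w n (fun v => abo l V X Y Z n (fun A B c d =>
          st2 l I sk v n A B c d l S (fun S => so3 l I sk V X Y Z w n S k))) := rfl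
      rw [e, snK_eq, abo_eq, h1, h2]
    · intro b hb s hs t P ht hP hsk T hT
      rcases Nat.lt_succ_iff_lt_or_eq.mp hb with h | h
      · exact a2 b h s hs t P ht hP hsk T hT
      · subst h
        rw [ht, hP] at hsk
        rw [ht, hP] at hT
        rw [ht]
        exact m2 _ _ _ _ (a1 s hs hsk T hT)

section

variable {w : WL} {b : ℕ} {t P : ℤ} {D : ℕ} (H : Do w b t P D) {l : ℕ} (hl : 0 < l)

include H hl

/-- residues of the parameters -/
theorem Do.prs : ∃ s < l,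
    Nat.mod (s * oA l (mat w).1 (mat w).2.1 (res (b : ℤ) l) +
      (oB l (mat w).1 (mat w).2.1 (mat w).2.2.1 (mat w).2.2.2 (res (b : ℤ) l) *
        oC l (mat w).2.2.1 (mat w).2.2.2 (res (b : ℤ) l) % l)) l = res t l ∧
    Nat.mod (s * oB l (mat w).1 (mat w).2.1 (mat w).2.2.1 (mat w).2.2.2 (res (b : ℤ) l) +
      (oC l (mat w).2.2.1 (mat w).2.2.2 (res (b : ℤ) l) *
        oC l (mat w).2.2.1 (mat w).2.2.2 (res (b : ℤ) l) % l)) l = res P l := by
  obtain ⟨s, h1, h2⟩ := H.par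
  rw [tr_snoc] at h1 h2
  simp only at h1 h2
  generalize (mat w).1 = v at *
  generalize (mat w).2.1 = x at *
  generalize (mat w).2.2.1 = y at *
  generalize (mat w).2.2.2 = z at *
  have cb := res_cast' (b : ℤ) hl
  have cs := res_cast' s hl
  have eA : ((oA l v x (res (b : ℤ) l) : ℕ) : ZMod l) = (b * v + x) ^ 2 + v ^ 2 := by
    unfold oA
    rw [ZMod.natCast_mod]
    push_cast at cb ⊢
    rw [cb]
    ring
  have eB : ((oB l v x y z (res (b : ℤ) l) : ℕ) : ZMod l) = (b * v + x) * (b * y + z) + v * y := by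
    unfold oB
    rw [ZMod.natCast_mod]
    push_cast at cb ⊢
    rw [cb]
  have eC : ((oC l y z (res (b : ℤ) l) : ℕ) : ZMod l) = (b * y + z) ^ 2 + y ^ 2 := by
    unfold oC
    rw [ZMod.natCast_mod]
    push_cast at cb ⊢
    rw [cb]
    ring
  refine ⟨res s l, res_lt s hl, ?_, ?_⟩
  · apply mod_res hl
    rw [Nat.cast_add, ZMod.natCast_mod, Nat.cast_mul, Nat.cast_mul, eA, eB, eC, cs, h1]
    push_cast
    ring
  · apply mod_res hl
    rw [Nat.cast_add, ZMod.natCast_mod, Nat.cast_mul, Nat.cast_mul, eB, eC, cs, h2]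
    push_cast
    ring

end

/-- membership of the actual state -/
def SMo (w : WL) (b : ℕ) (t P : ℤ) (l : ℕ) (S : ST) : Prop :=
  ST.Mem (res t l) (res (b : ℤ) l) (res (la (snoc w b) (f0 t P)) l) (tr l (snoc w b) (f0 t P)) S

theorem smo_all {w : WL} {b : ℕ} {t P : ℤ} {l : ℕ} {S : ST} {f : ℕ → ℕ → ℕ → TL → Bool}
    (h : S.all f = true) (m : SMo w b t P l S) :
    f (res t l) (res (b : ℤ) l) (res (la (snoc w b) (f0 t P)) l)
      (tr l (snoc w b) (f0 t P)) = true := ST.all_mem h m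

section

variable {w : WL} {b : ℕ} {t P : ℤ} {D : ℕ} (H : Do w b t P D)

include H

theorem skPo_false {l Q : ℕ} (hl : 0 < l) (hns : ¬ IsSquare ((D : ℤ) : ZMod l))
    (hQ : chkIq l Q = true) : skP l Q (res t l) (res P l) = false := by
  unfold skP
  by_contra hc
  have hc' := Bool.eq_true_of_not_eq_false hc
  have h2 := tb_square hl hQ hc'
  apply hns
  have h3 : ((Nat.add (Nat.mul (res t l) (res t l)) (Nat.mul 4 (res P l)) : ℕ) : ZMod l) =
      ((D : ℤ) : ZMod l) := by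
    rw [H.hD]
    change ((res t l * res t l + 4 * res P l : ℕ) : ZMod l) = _
    push_cast
    rw [res_cast' t hl, res_cast' P hl]
    ring
  rw [h3] at h2
  exact h2

theorem so_ex (l I : ℕ) (hl : 0 < l) (sk : ℕ → ℕ → Bool) :
    ∃ S, (∀ k, so3 l I sk (mat w).1 (mat w).2.1 (mat w).2.2.1 (mat w).2.2.2 w l ST.nil k = k S) ∧
      (Gd l D → chkI l I = true → sk (res t l) (res P l) = false → SMo w b t P l S) := by
  obtain ⟨S, hS, _, hm⟩ := so3_eq l I sk (mat w).1 (mat w).2.1 (mat w).2.2.1 (mat w).2.2.2 w l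
    ST.nil
  refine ⟨S, hS, ?_⟩
  intro G hI hsk
  obtain ⟨s, hs, e1, e2⟩ := H.prs hl
  have cb := res_cast' (b : ℤ) hl
  have hT := hm (res (b : ℤ) l) (res_lt _ hl) s hs (res t l) (res P l) e1.symm e2.symm hsk
    (tr l (snoc w (res (b : ℤ) l)) (f0 t P)) (fun g => mkT_f0 G hI H.hD _ g)
  rw [lsq_tr, Nat.mul_div_cancel_left _ (by norm_num), la_snoc_congr w _ b,
    tr_snoc_congr hl (b' := b) (by rw [cb]; simp)] at hT
  exact hT

theorem soP_ex {l I Q : ℕ} (hI : chkI l I = true) (hQ : chkIq l Q = true) (h : In l D) :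
    ∃ S, (∀ k, soP l I Q (mat w).1 (mat w).2.1 (mat w).2.2.1 (mat w).2.2.2 w k = k S) ∧
      SMo w b t P l S := by
  have hl := h.pr.pos
  obtain ⟨S, h1, h2⟩ := so_ex H l I hl (fun t P => skP l Q t P)
  exact ⟨S, h1, h2 h.gd hI (skPo_false H hl h.ns hQ)⟩

theorem soF_ex (hD8 : D % 8 = 5) :
    ∃ S, (∀ k, soF (mat w).1 (mat w).2.1 (mat w).2.2.1 (mat w).2.2.2 w k = k S) ∧
      SMo w b t P 4 S := by
  obtain ⟨S, h1, h2⟩ := so_ex H 4 I4 (by norm_num) sk4
  refine ⟨S, h1, h2 (gd_four hD8) ci4 ?_⟩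
  have hd := disc_f0 H.hD
  have ht : t % 2 = 1 := odd_B hD8 hd
  have hP : P % 2 = 1 := odd_A hD8 (f := (f0 t P).step 0) (by rw [Fm.disc_step]; exact hd)
  have e1 := res_int t (M := 4) (by norm_num)
  have e2 := res_int P (M := 4) (by norm_num)
  have h1 : Nat.beq (Nat.mod (res t 4) 2) 0 = false := by
    rw [Bool.eq_false_iff]
    intro hc
    have : res t 4 % 2 = 0 := Nat.eq_of_beq_eq_true hc
    omega
  have h2 : Nat.beq (Nat.mod (res P 4) 2) 0 = false := by
    rw [Bool.eq_false_iff]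
    intro hc
    have : res P 4 % 2 = 0 := Nat.eq_of_beq_eq_true hc
    omega
  unfold sk4
  rw [h1, h2]
  rfl

theorem clo_false {p Q : ℕ} (hp : In p D) (hQ : chkIq p Q = true)
    (h : clo p Q (mat w).1 (mat w).2.1 (mat w).2.2.1 (mat w).2.2.2 (res t p)
      (res (b : ℤ) p) = true) : False := by
  have hp0 : 0 < p := hp.pr.pos
  unfold clo at h
  rw [abo_eq, allN_iff] at h
  obtain ⟨s, hs, e1, e2⟩ := H.prs hp0
  have h := h s hs
  have e1' : Nat.mod (Nat.add (Nat.mul s (oA p (mat w).1 (mat w).2.1 (res (b : ℤ) p)))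
      (oB p (mat w).1 (mat w).2.1 (mat w).2.2.1 (mat w).2.2.2 (res (b : ℤ) p) *
        oC p (mat w).2.2.1 (mat w).2.2.2 (res (b : ℤ) p) % p)) p = res t p := e1
  have e2' : Nat.mod (Nat.add (Nat.mul s (oB p (mat w).1 (mat w).2.1 (mat w).2.2.1 (mat w).2.2.2
      (res (b : ℤ) p))) (oC p (mat w).2.2.1 (mat w).2.2.2 (res (b : ℤ) p) *
        oC p (mat w).2.2.1 (mat w).2.2.2 (res (b : ℤ) p) % p)) p = res P p := e2
  rw [e1', e2'] at h
  have h := imp_true h (Nat.beq_refl _)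
  rw [skPo_false H hp0 hp.ns hQ] at h
  exact absurd h (by simp)

end

/-! ### Sums -/

section sums

variable {c : CD} [NeZero c.q] {D : ℤ}

theorem ro2_eq {gx ge : ℕ → ℕ → ℕ} {l1 l2 : ℕ}
    (h : HE c D (fun f => gx (7 * res f.A l1) (7 * res f.A l2)) (fun f => ge (ix l1 f) (ix l2 f)))
    (w : WL) (b : ℕ) {f : Fm} (hf : f.disc = D) (u s : ℕ) :
    ∃ S d : ℕ, (S : ZMod c.p) + d * b = s + WS (chi c.q c.p c.T) (snoc w b) f (u : ZMod c.p) ∧
      ∀ k, ro2 gx ge w (tr l1 (snoc w b) f) (tr l2 (snoc w b) f) u s k = k S d := by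
  induction w generalizing f u s with
  | nil =>
    refine ⟨s + gx (7 * res f.A l1) (7 * res f.A l2) *
      (2 * (ge (ix l1 f) (ix l2 f) % 128) + u * (ge (ix l1 f) (ix l2 f) / 128)) +
      gx (7 * res (f.step b).A l1) (7 * res (f.step b).A l2) *
        (ge (ix l1 (f.step b)) (ix l2 (f.step b)) % 128),
      4 * (gx (7 * res (f.step b).A l1) (7 * res (f.step b).A l2) *
        (ge (ix l1 (f.step b)) (ix l2 (f.step b)) / 128)), ?_, ?_⟩
    · change _ = _ + WS (chi c.q c.p c.T) (.cons b .nil) f (u : ZMod c.p)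
      rw [WS_cons, WS_nil]
      have h1 := h.hx f hf
      have h2 := h.hy f hf
      have h3 := h.hx (f.step b) (by rw [Fm.disc_step]; exact hf)
      have h4 := h.hy (f.step b) (by rw [Fm.disc_step]; exact hf)
      rw [Nat.cast_add, Nat.cast_add, Nat.cast_mul, Nat.cast_add, Nat.cast_mul, Nat.cast_mul, ← h2,
        Nat.cast_mul, h3, Nat.cast_mul, Nat.cast_mul, h4]
      push_cast
      linear_combination 2 * h1
    · intro k
      have e : ro2 gx ge .nil (tr l1 (snoc .nil b) f) (tr l2 (snoc .nil b) f) u s k =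
        force (ge (ix l1 f) (ix l2 f)) (fun e => force (Nat.add s (Nat.mul
          (gx (7 * res f.A l1) (7 * res f.A l2)) (Nat.add (Nat.mul 2 (Nat.mod e 128))
          (Nat.mul u (Nat.div e 128))))) (fun s =>
          force (gx (7 * res (f.step b).A l1) (7 * res (f.step b).A l2)) (fun x =>
          force (ge (ix l1 (f.step b)) (ix l2 (f.step b))) (fun e =>
          force (Nat.add s (Nat.mul x (Nat.mod e 128))) (fun s =>
            force (Nat.mul 4 (Nat.mul x (Nat.div e 128))) (fun c => k s c)))))) := rfl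
      rw [e]
      simp only [force_eq]
      rfl
  | cons a v ih =>
    obtain ⟨S, d, hS, hk⟩ := ih (f := f.step a) (by rw [Fm.disc_step]; exact hf) (4 * a)
      (s + gx (7 * res f.A l1) (7 * res f.A l2) *
      (2 * (ge (ix l1 f) (ix l2 f) % 128) + u * (ge (ix l1 f) (ix l2 f) / 128)))
    refine ⟨S, d, ?_, ?_⟩
    · rw [hS]
      change _ = _ + WS (chi c.q c.p c.T) (.cons a (snoc v b)) f (u : ZMod c.p)
      rw [WS_cons]
      have h1 := h.hx f hf
      have h2 := h.hy f hf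
      rw [Nat.cast_add, Nat.cast_mul, Nat.cast_add, Nat.cast_mul, Nat.cast_mul, ← h2]
      push_cast
      linear_combination 2 * h1
    · intro k
      have e : ro2 gx ge (.cons a v) (tr l1 (snoc (.cons a v) b) f) (tr l2 (snoc (.cons a v) b) f)
        u s k = force (ge (ix l1 f) (ix l2 f)) (fun e => force (Nat.add s (Nat.mul
          (gx (7 * res f.A l1) (7 * res f.A l2))
        (Nat.add (Nat.mul 2 (Nat.mod e 128)) (Nat.mul u (Nat.div e 128)))))
        (fun s => ro2 gx ge v (tr l1 (snoc v b) (f.step a)) (tr l2 (snoc v b) (f.step a))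
          (Nat.mul 4 a) s k)) := rfl
      rw [e, force_eq, force_eq]
      exact hk k

theorem ro3_eq {gx ge : ℕ → ℕ → ℕ → ℕ} {l1 l2 l3 : ℕ}
    (h : HE c D (fun f => gx (7 * res f.A l1) (7 * res f.A l2) (7 * res f.A l3))
      (fun f => ge (ix l1 f) (ix l2 f) (ix l3 f)))
    (w : WL) (b : ℕ) {f : Fm} (hf : f.disc = D) (u s : ℕ) :
    ∃ S d : ℕ, (S : ZMod c.p) + d * b = s + WS (chi c.q c.p c.T) (snoc w b) f (u : ZMod c.p) ∧
      ((∀ f : Fm, f.disc = D → SY (chi c.q c.p c.T) (f.A : ZMod c.q) f.B f.C = 0) →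
        (d : ZMod c.p) = 0) ∧
      ∀ k, ro3 gx ge w (tr l1 (snoc w b) f) (tr l2 (snoc w b) f) (tr l3 (snoc w b) f) u s k =
        k S d := by
  induction w generalizing f u s with
  | nil =>
    refine ⟨s + gx (7 * res f.A l1) (7 * res f.A l2) (7 * res f.A l3) *
      (2 * (ge (ix l1 f) (ix l2 f) (ix l3 f) % 128) + u * (ge (ix l1 f) (ix l2 f) (ix l3 f) / 128))
      + gx (7 * res (f.step b).A l1) (7 * res (f.step b).A l2) (7 * res (f.step b).A l3) *
        (ge (ix l1 (f.step b)) (ix l2 (f.step b)) (ix l3 (f.step b)) % 128),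
      4 * (gx (7 * res (f.step b).A l1) (7 * res (f.step b).A l2) (7 * res (f.step b).A l3) *
        (ge (ix l1 (f.step b)) (ix l2 (f.step b)) (ix l3 (f.step b)) / 128)), ?_, ?_, ?_⟩
    · change _ = _ + WS (chi c.q c.p c.T) (.cons b .nil) f (u : ZMod c.p)
      rw [WS_cons, WS_nil]
      have h1 := h.hx f hf
      have h2 := h.hy f hf
      have h3 := h.hx (f.step b) (by rw [Fm.disc_step]; exact hf)
      have h4 := h.hy (f.step b) (by rw [Fm.disc_step]; exact hf)
      rw [Nat.cast_add, Nat.cast_add, Nat.cast_mul, Nat.cast_add, Nat.cast_mul, Nat.cast_mul, ← h2,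
        Nat.cast_mul, h3, Nat.cast_mul, Nat.cast_mul, h4]
      push_cast
      linear_combination 2 * h1
    · intro hz
      have h3 := h.hy (f.step b) (by rw [Fm.disc_step]; exact hf)
      rw [hz (f.step b) (by rw [Fm.disc_step]; exact hf)] at h3
      rw [Nat.cast_mul, Nat.cast_mul, h3, mul_zero]
    · intro k
      have e : ro3 gx ge .nil (tr l1 (snoc .nil b) f) (tr l2 (snoc .nil b) f)
          (tr l3 (snoc .nil b) f) u s k =
        force (ge (ix l1 f) (ix l2 f) (ix l3 f)) (fun e => force (Nat.add s (Nat.mul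
          (gx (7 * res f.A l1) (7 * res f.A l2) (7 * res f.A l3)) (Nat.add (Nat.mul 2
          (Nat.mod e 128)) (Nat.mul u (Nat.div e 128))))) (fun s =>
          force (gx (7 * res (f.step b).A l1) (7 * res (f.step b).A l2)
            (7 * res (f.step b).A l3)) (fun x =>
          force (ge (ix l1 (f.step b)) (ix l2 (f.step b)) (ix l3 (f.step b))) (fun e =>
          force (Nat.add s (Nat.mul x (Nat.mod e 128))) (fun s =>
            force (Nat.mul 4 (Nat.mul x (Nat.div e 128))) (fun c => k s c)))))) := rfl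
      rw [e]
      simp only [force_eq]
      rfl
  | cons a v ih =>
    obtain ⟨S, d, hS, hd, hk⟩ := ih (f := f.step a) (by rw [Fm.disc_step]; exact hf) (4 * a)
      (s + gx (7 * res f.A l1) (7 * res f.A l2) (7 * res f.A l3) *
      (2 * (ge (ix l1 f) (ix l2 f) (ix l3 f) % 128) +
        u * (ge (ix l1 f) (ix l2 f) (ix l3 f) / 128)))
    refine ⟨S, d, ?_, hd, ?_⟩
    · rw [hS]
      change _ = _ + WS (chi c.q c.p c.T) (.cons a (snoc v b)) f (u : ZMod c.p)
      rw [WS_cons]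
      have h1 := h.hx f hf
      have h2 := h.hy f hf
      rw [Nat.cast_add, Nat.cast_mul, Nat.cast_add, Nat.cast_mul, Nat.cast_mul, ← h2]
      push_cast
      linear_combination 2 * h1
    · intro k
      have e : ro3 gx ge (.cons a v) (tr l1 (snoc (.cons a v) b) f) (tr l2 (snoc (.cons a v) b) f)
        (tr l3 (snoc (.cons a v) b) f)
        u s k = force (ge (ix l1 f) (ix l2 f) (ix l3 f)) (fun e => force (Nat.add s (Nat.mul
          (gx (7 * res f.A l1) (7 * res f.A l2) (7 * res f.A l3))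
        (Nat.add (Nat.mul 2 (Nat.mod e 128)) (Nat.mul u (Nat.div e 128)))))
        (fun s => ro3 gx ge v (tr l1 (snoc v b) (f.step a)) (tr l2 (snoc v b) (f.step a))
          (tr l3 (snoc v b) (f.step a)) (Nat.mul 4 a) s k)) := rfl
      rw [e, force_eq, force_eq]
      exact hk k

theorem ro0_eq {X0 E0 : ℕ → ℕ} {l1 l2 : ℕ}
    (h : HE c D (fun f => sl1 (X0 (7 * res f.A l1)) (7 * res f.A l2))
      (fun f => sl1 (E0 (ix l1 f)) (ix l2 f)))
    (w : WL) (b : ℕ) {f : Fm} (hf : f.disc = D) (u : ZMod c.p) (a0 s : ℕ) :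
    ∃ S : ℕ, (S : ZMod c.p) = 2 * s + WS (chi c.q c.p c.T) (snoc w b) f u ∧
      ∀ k, R0 (.cons a0 w) (mp X0 E0 (tr l1 (snoc w b) f)) (tr l2 (snoc w b) f) s k = k S := by
  have hx : ∀ f : Fm, f.disc = D → (sl1 (X0 (7 * res f.A l1)) (7 * res f.A l2) : ZMod c.p) *
      ((sl1 (E0 (ix l1 f)) (ix l2 f) : ℕ) : ZMod c.p) =
      6 * SE (chi c.q c.p c.T) (f.A : ZMod c.q) f.B f.C := by
    intro f hf
    have := h.hx f hf
    rw [Nat.mod_eq_of_lt (sl1_lt _ _)] at this
    exact this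
  have hy : ∀ f : Fm, f.disc = D → SY (chi c.q c.p c.T) (f.A : ZMod c.q) f.B f.C = 0 := by
    intro f hf
    have := h.hy f hf
    rw [Nat.div_eq_of_lt (sl1_lt _ _), Nat.cast_zero, mul_zero] at this
    exact this.symm
  induction w generalizing f u a0 s with
  | nil =>
    refine ⟨2 * (s + sl1 (X0 (7 * res f.A l1)) (7 * res f.A l2) *
      sl1 (E0 (ix l1 f)) (ix l2 f)) + sl1 (X0 (7 * res (f.step b).A l1))
      (7 * res (f.step b).A l2) * sl1 (E0 (ix l1 (f.step b))) (ix l2 (f.step b)), ?_, ?_⟩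
    · change _ = _ + WS (chi c.q c.p c.T) (.cons b .nil) f u
      rw [WS_cons, WS_nil]
      have h1 := hx f hf
      have h2 := hx (f.step b) (by rw [Fm.disc_step]; exact hf)
      rw [hy f hf, hy (f.step b) (by rw [Fm.disc_step]; exact hf)]
      push_cast
      linear_combination 2 * h1 + h2
    · intro k
      have e : R0 (.cons a0 .nil) (mp X0 E0 (tr l1 (snoc .nil b) f)) (tr l2 (snoc .nil b) f) s k =
        force (Nat.add s (Nat.mul (sl1 (X0 (7 * res f.A l1)) (7 * res f.A l2))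
          (sl1 (E0 (ix l1 f)) (ix l2 f)))) (fun s => force (Nat.add (Nat.mul 2 s) (Nat.mul
          (sl1 (X0 (7 * res (f.step b).A l1)) (7 * res (f.step b).A l2))
          (sl1 (E0 (ix l1 (f.step b))) (ix l2 (f.step b))))) k) := rfl
      rw [e, force_eq, force_eq]
      rfl
  | cons a v ih =>
    obtain ⟨S, hS, hk⟩ := ih (f := f.step a) (by rw [Fm.disc_step]; exact hf)
      (4 * (a : ZMod c.p)) a
      (s + sl1 (X0 (7 * res f.A l1)) (7 * res f.A l2) * sl1 (E0 (ix l1 f)) (ix l2 f))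
    refine ⟨S, ?_, ?_⟩
    · rw [hS]
      change _ = _ + WS (chi c.q c.p c.T) (.cons a (snoc v b)) f u
      rw [WS_cons]
      have h1 := hx f hf
      rw [hy f hf]
      push_cast
      linear_combination 2 * h1
    · intro k
      have e : R0 (.cons a0 (.cons a v)) (mp X0 E0 (tr l1 (snoc (.cons a v) b) f))
          (tr l2 (snoc (.cons a v) b) f) s k =
        force (Nat.add s (Nat.mul (sl1 (X0 (7 * res f.A l1)) (7 * res f.A l2))
          (sl1 (E0 (ix l1 f)) (ix l2 f)))) (fun s => R0 (.cons a v)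
            (mp X0 E0 (tr l1 (snoc v b) (f.step a)))
            (tr l2 (snoc v b) (f.step a)) s k) := rfl
      rw [e, force_eq]
      exact hk k

end sums

section rel

variable {c : CD} [NeZero c.q] {w : WL} {b : ℕ} {t P : ℤ} {D : ℕ} (hD : (D : ℤ) = t ^ 2 + 4 * P)
  (hR : RelW (chi c.q c.p c.T) (snoc w b) t P = 0)

include hD hR

theorem oo2_sound {gx ge : ℕ → ℕ → ℕ} {l1 l2 : ℕ}
    (h : HE c D (fun f => gx (7 * res f.A l1) (7 * res f.A l2)) (fun f => ge (ix l1 f) (ix l2 f)))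
    {g : ℕ → ℕ → ℕ → Bool}
    (hg : oo2 gx ge w (tr l1 (snoc w b) (f0 t P)) (tr l2 (snoc w b) (f0 t P)) g = true) :
    ∃ K c' d : ℕ, (K : ZMod c.p) + (c' * t + d * b) = 0 ∧ g K c' d = true := by
  obtain ⟨S, d, hS, hk⟩ := ro2_eq h w b (disc_f0 hD) 0 0
  unfold oo2 at hg
  rw [hk] at hg
  refine ⟨S, 2 * (ge (ix l1 (f0 t P)) (ix l2 (f0 t P)) / 128), d, ?_, ?_⟩
  · have h1 := h.h0 t P (disc_f0 hD)
    rw [Nat.cast_zero, zero_add, WS_f0, zero_mul, add_zero] at hS
    rw [Nat.cast_mul, h1]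
    unfold RelW at hR
    push_cast
    linear_combination hS + 2 * hR
  · cases w with
    | nil =>
      have e : (TL.hd (tr l1 (snoc .nil b) (f0 t P)) (fun _ i _ =>
        TL.hd (tr l2 (snoc .nil b) (f0 t P))
        (fun _ i' _ => force (Nat.mul 2 (Nat.div (ge i i') 128)) (fun c => g S c d)))) =
        force (Nat.mul 2 (Nat.div (ge (ix l1 (f0 t P)) (ix l2 (f0 t P))) 128))
          (fun c => g S c d) := rfl
      rw [e, force_eq] at hg
      exact hg
    | cons a v =>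
      have e : (TL.hd (tr l1 (snoc (.cons a v) b) (f0 t P)) (fun _ i _ =>
        TL.hd (tr l2 (snoc (.cons a v) b) (f0 t P))
        (fun _ i' _ => force (Nat.mul 2 (Nat.div (ge i i') 128)) (fun c => g S c d)))) =
        force (Nat.mul 2 (Nat.div (ge (ix l1 (f0 t P)) (ix l2 (f0 t P))) 128))
          (fun c => g S c d) := rfl
      rw [e, force_eq] at hg
      exact hg

theorem oo3_sound {gx ge : ℕ → ℕ → ℕ → ℕ} {l1 l2 l3 : ℕ}
    (h : HE c D (fun f => gx (7 * res f.A l1) (7 * res f.A l2) (7 * res f.A l3))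
      (fun f => ge (ix l1 f) (ix l2 f) (ix l3 f)))
    {g : ℕ → ℕ → ℕ → Bool}
    (hg : oo3 gx ge w (tr l1 (snoc w b) (f0 t P)) (tr l2 (snoc w b) (f0 t P))
      (tr l3 (snoc w b) (f0 t P)) g = true) :
    ∃ K c' d : ℕ, (K : ZMod c.p) + (c' * t + d * b) = 0 ∧ g K c' d = true := by
  obtain ⟨S, d, hS, _, hk⟩ := ro3_eq h w b (disc_f0 hD) 0 0
  unfold oo3 at hg
  rw [hk] at hg
  refine ⟨S, 2 * (ge (ix l1 (f0 t P)) (ix l2 (f0 t P)) (ix l3 (f0 t P)) / 128), d, ?_, ?_⟩
  · have h1 := h.h0 t P (disc_f0 hD)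
    rw [Nat.cast_zero, zero_add, WS_f0, zero_mul, add_zero] at hS
    rw [Nat.cast_mul, h1]
    unfold RelW at hR
    push_cast
    linear_combination hS + 2 * hR
  · cases w with
    | nil =>
      have e : (TL.hd (tr l1 (snoc .nil b) (f0 t P)) (fun _ i _ =>
        TL.hd (tr l2 (snoc .nil b) (f0 t P)) (fun _ i' _ =>
        TL.hd (tr l3 (snoc .nil b) (f0 t P)) (fun _ i2 _ =>
        force (Nat.mul 2 (Nat.div (ge i i' i2) 128)) (fun c => g S c d))))) =
        force (Nat.mul 2 (Nat.div (ge (ix l1 (f0 t P)) (ix l2 (f0 t P)) (ix l3 (f0 t P))) 128))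
          (fun c => g S c d) := rfl
      rw [e, force_eq] at hg
      exact hg
    | cons a v =>
      have e : (TL.hd (tr l1 (snoc (.cons a v) b) (f0 t P)) (fun _ i _ =>
        TL.hd (tr l2 (snoc (.cons a v) b) (f0 t P)) (fun _ i' _ =>
        TL.hd (tr l3 (snoc (.cons a v) b) (f0 t P)) (fun _ i2 _ =>
        force (Nat.mul 2 (Nat.div (ge i i' i2) 128)) (fun c => g S c d))))) =
        force (Nat.mul 2 (Nat.div (ge (ix l1 (f0 t P)) (ix l2 (f0 t P)) (ix l3 (f0 t P))) 128))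
          (fun c => g S c d) := rfl
      rw [e, force_eq] at hg
      exact hg

theorem ox2_sound {gx ge : ℕ → ℕ → ℕ} {l1 l2 : ℕ}
    (h : HE c D (fun f => gx (7 * res f.A l1) (7 * res f.A l2)) (fun f => ge (ix l1 f) (ix l2 f)))
    {p tt bb : ℕ} (hp : c.p = p) (ht : (tt : ZMod p) = t) (hb : (bb : ZMod p) = b) :
    ox2 p gx ge w (tr l1 (snoc w b) (f0 t P)) (tr l2 (snoc w b) (f0 t P)) tt bb = true := by
  subst hp
  obtain ⟨S, d, hS, hk⟩ := ro2_eq h w b (disc_f0 hD) 0 0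
  have h1 := h.h0 t P (disc_f0 hD)
  have key : l3 c.p S (2 * (ge (ix l1 (f0 t P)) (ix l2 (f0 t P)) / 128)) d tt bb = true := by
    unfold l3
    apply beq_mod
    rw [nadd, nadd, nmul, nmul]
    rw [Nat.cast_zero, zero_add, WS_f0, zero_mul, add_zero] at hS
    unfold RelW at hR
    rw [Nat.cast_add, Nat.cast_add, Nat.cast_mul, Nat.cast_mul, Nat.cast_mul, h1, ht, hb]
    push_cast
    linear_combination hS + 2 * hR
  unfold ox2 oo2
  rw [hk]
  cases w with
  | nil =>
    change force (Nat.mul 2 (Nat.div (ge (ix l1 (f0 t P)) (ix l2 (f0 t P))) 128))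
      (fun c' => l3 c.p S c' d tt bb) = true
    rw [force_eq]
    exact key
  | cons a v =>
    change force (Nat.mul 2 (Nat.div (ge (ix l1 (f0 t P)) (ix l2 (f0 t P))) 128))
      (fun c' => l3 c.p S c' d tt bb) = true
    rw [force_eq]
    exact key

theorem ox3_sound {gx ge : ℕ → ℕ → ℕ → ℕ} {l1 l2 l3 : ℕ}
    (h : HE c D (fun f => gx (7 * res f.A l1) (7 * res f.A l2) (7 * res f.A l3))
      (fun f => ge (ix l1 f) (ix l2 f) (ix l3 f)))
    (hz : ∀ f : Fm, f.disc = D → SY (chi c.q c.p c.T) (f.A : ZMod c.q) f.B f.C = 0)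
    {p : ℕ} (hp : c.p = p) :
    ox3 p gx ge w (tr l1 (snoc w b) (f0 t P)) (tr l2 (snoc w b) (f0 t P))
      (tr l3 (snoc w b) (f0 t P)) = true := by
  subst hp
  obtain ⟨S, d, hS, hd, hk⟩ := ro3_eq h w b (disc_f0 hD) 0 0
  have hz0 := hz (f0 t P) (disc_f0 hD)
  have e1 : (((f0 t P).A : ℤ) : ZMod c.q) = 1 := by
    change ((1 : ℤ) : ZMod c.q) = 1
    simp
  rw [e1] at hz0
  have hz1 : SY (chi c.q c.p c.T) 1 (t : ZMod c.q) (P : ZMod c.q) = 0 := hz0
  have key : Nat.beq (Nat.mod S c.p) 0 = true := by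
    apply beq_mod
    rw [Nat.cast_zero, zero_add, WS_f0, zero_mul, add_zero, hd hz] at hS
    unfold RelW at hR
    rw [hz1] at hR
    linear_combination hS + 2 * hR
  unfold ox3 oo3
  rw [hk]
  cases w with
  | nil =>
    change force (Nat.mul 2 (Nat.div (ge (ix l1 (f0 t P)) (ix l2 (f0 t P)) (ix l3 (f0 t P))) 128))
      (fun _ => Nat.beq (Nat.mod S c.p) 0) = true
    rw [force_eq]
    exact key
  | cons a v =>
    change force (Nat.mul 2 (Nat.div (ge (ix l1 (f0 t P)) (ix l2 (f0 t P)) (ix l3 (f0 t P))) 128))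
      (fun _ => Nat.beq (Nat.mod S c.p) 0) = true
    rw [force_eq]
    exact key

theorem ck0o_sound {X0 E0 : ℕ → ℕ} {l1 l2 : ℕ}
    (h : HE c D (fun f => sl1 (X0 (7 * res f.A l1)) (7 * res f.A l2))
      (fun f => sl1 (E0 (ix l1 f)) (ix l2 f))) {p : ℕ} (hp : c.p = p) (a0 : ℕ) :
    ck0 p (.cons a0 w) (mp X0 E0 (tr l1 (snoc w b) (f0 t P))) (tr l2 (snoc w b) (f0 t P)) =
      true := by
  subst hp
  obtain ⟨S, hS, hk⟩ := ro0_eq h w b (disc_f0 hD) (2 * t : ZMod c.p) a0 0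
  unfold ck0
  rw [hk]
  apply beq_mod
  rw [hS, Nat.cast_zero, mul_zero, zero_add]
  exact rel_two hR

end rel

end Pool.Agent.V5helper47.OD
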