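import Pool.Agent.V5helper47.CN.T7
import Pool.Agent.V5helper47.OD.T1

/-! Soundness of the search for one half word, odd periods. -/

set_option maxRecDepth 100000

namespace Pool.Agent.V5helper47.OD

open H419R2 Pool.Agent.N911 Finset Pool.Agent.V5helper47.CN

/-- what is used about a half word, a centre letter and parameters -/
structure SysO (w : WL) (b : ℕ) (t P : ℤ) (D : ℕ) : Prop where
  dt : Do w b t P D
  d8 : D % 8 = 5
  good : GoodW (snoc w b) t P D

section rel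

variable {w : WL} {b : ℕ} {t P : ℤ} {D : ℕ} (S : SysO w b t P D)

include S

theorem SysO.g4 : Gd 4 D := gd_four S.d8

theorem SysO.rel {c : CD} (hc : c.OK) (h1 : Nat.Coprime c.q D) (h2 : Nat.Coprime c.p D)
    [NeZero c.q] : RelW (chi c.q c.p c.T) (snoc w b) t P = 0 := by
  have hP2 : P % 2 = 1 := odd_A S.d8 (f := (f0 t P).step 0)
    (by rw [Fm.disc_step]; exact disc_f0 S.dt.hD)
  have h3 : ¬ (c.p : ℤ) ∣ D := by
    intro h
    have h4 : c.p ∣ D := by exact_mod_cast h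
    have h5 : c.p ∣ 1 := by
      rw [← h2]
      exact Nat.dvd_gcd dvd_rfl h4
    exact hc.pp.one_lt.ne' (Nat.dvd_one.mp h5)
  exact S.good.rel_mod hP2 hc.pp hc.p2 h3 h1 _ (chi_mul hc.mul)
    (chi_neg hc.q1 hc.mul hc.oth) (chi_sum hc.oth)

theorem SysO.rel2 {c : CD} (hc : c.OK) {l1 l2 p : ℕ} (H1 : Gd l1 D) (H2 : Gd l2 D) (Hp : Gd p D)
    (hl : l1 * l2 = c.q) (hp : c.p = p) [NeZero c.q] :
    RelW (chi c.q c.p c.T) (snoc w b) t P = 0 := by
  apply S.rel hc
  · rw [← hl]; exact Nat.Coprime.mul_left H1.cD H2.cD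
  · rw [hp]; exact Hp.cD

theorem SysO.rel3 {c : CD} (hc : c.OK) {l1 l2 l3 p : ℕ} (H1 : Gd l1 D) (H2 : Gd l2 D)
    (H3 : Gd l3 D) (Hp : Gd p D)
    (hl : l1 * l2 * l3 = c.q) (hp : c.p = p) [NeZero c.q] :
    RelW (chi c.q c.p c.T) (snoc w b) t P = 0 := by
  apply S.rel hc
  · rw [← hl]; exact Nat.Coprime.mul_left (Nat.Coprime.mul_left H1.cD H2.cD) H3.cD
  · rw [hp]; exact Hp.cD

end rel

theorem ro2_mp {gx ge : ℕ → ℕ → ℕ} (fx fe : ℕ → ℕ) (w : WL) : ∀ (T T' : TL) (u s : ℕ)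
    (k : ℕ → ℕ → Bool), ro2 gx ge w (mp fx fe T) T' u s k =
      ro2 (fun a b => gx (fx a) b) (fun a b => ge (fe a) b) w T T' u s k := by
  induction w with
  | nil =>
    intro T T' u s k
    cases T with
    | nil => rfl
    | cons q i r =>
      cases r with
      | nil => rfl
      | cons q1 i1 r1 => rfl
  | cons a v ih =>
    intro T T' u s k
    cases T with
    | nil => rfl
    | cons q i r =>
      cases T' with
      | nil => rfl
      | cons q' i' r' =>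
        have e1 : ro2 gx ge (.cons a v) (mp fx fe (.cons q i r)) (.cons q' i' r') u s k =
          force (ge (fe i) i') (fun e => force (Nat.add s (Nat.mul (gx (fx q) q')
            (Nat.add (Nat.mul 2 (Nat.mod e 128)) (Nat.mul u (Nat.div e 128)))))
            (fun s => ro2 gx ge v (mp fx fe r) r' (Nat.mul 4 a) s k)) := rfl
        have e2 : ro2 (fun a b => gx (fx a) b) (fun a b => ge (fe a) b) (.cons a v)
          (.cons q i r) (.cons q' i' r') u s k =
          force (ge (fe i) i') (fun e => force (Nat.add s (Nat.mul (gx (fx q) q')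
            (Nat.add (Nat.mul 2 (Nat.mod e 128)) (Nat.mul u (Nat.div e 128)))))
            (fun s => ro2 (fun a b => gx (fx a) b) (fun a b => ge (fe a) b) v r r'
              (Nat.mul 4 a) s k)) := rfl
        rw [e1, e2]
        congr 1
        funext e
        congr 1
        funext s
        exact ih _ _ _ _ _

theorem oo2_mp {gx ge : ℕ → ℕ → ℕ} (fx fe : ℕ → ℕ) (w : WL) (T T' : TL)
    (g : ℕ → ℕ → ℕ → Bool) : oo2 gx ge w (mp fx fe T) T' g =
      oo2 (fun a b => gx (fx a) b) (fun a b => ge (fe a) b) w T T' g := by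
  unfold oo2
  rw [ro2_mp]
  congr 1
  funext K d
  cases T with
  | nil => rfl
  | cons q i r => rfl

theorem res_b {b l : ℕ} (hl : 0 < l) : ((res (b : ℤ) l : ℕ) : ZMod l) = b := by
  rw [res_cast' (b : ℤ) hl]; simp

section stages

variable {w : WL} {b : ℕ} {t P : ℤ} {D : ℕ} (S : SysO w b t P D)

include S

theorem z73_sound (h7 : In 7 D) (h13 : In 13 D) (h19 : In 19 D) (h37 : In 37 D) (h73 : In 73 D)
    (h : z73 (mat w).1 (mat w).2.1 (mat w).2.2.1 (mat w).2.2.2 w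
      (tr 37 (snoc w b) (f0 t P)) (tr 7 (snoc w b) (f0 t P)) (tr 19 (snoc w b) (f0 t P))
      (tr 13 (snoc w b) (f0 t P)) = true) : False := by
  have i1 : NeZero c133_73.q := ⟨by decide +kernel⟩
  have i2 : NeZero c247_73_0.q := ⟨by decide +kernel⟩
  have i3 : NeZero c247_73_1.q := ⟨by decide +kernel⟩
  have i4 : NeZero c259_73.q := ⟨by decide +kernel⟩
  have hD := S.dt.hD
  unfold z73 at h
  obtain ⟨K1, c1, d1, e1, h⟩ := oo2_sound hD (S.rel2 c247_73_0_ok h13.gd h19.gd h73.gd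
    (by decide +kernel) rfl) (he_247_0 h13.gd h19.gd) h
  obtain ⟨K, c, d, e, h⟩ := oo2_sound hD (S.rel2 c133_73_ok h7.gd h19.gd h73.gd
    (by decide +kernel) rfl) (he_133_73 h7.gd h19.gd) h
  obtain ⟨K2, c2, d2, e2, h⟩ := oo2_sound hD (S.rel2 c247_73_1_ok h13.gd h19.gd h73.gd
    (by decide +kernel) rfl) (he_247_1 h13.gd h19.gd) h
  obtain ⟨K3, c3, d3, e3, h⟩ := oo2_sound hD (S.rel2 c259_73_ok h7.gd h37.gd h73.gd
    (by decide +kernel) rfl) (he_259_73 h7.gd h37.gd) h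
  have e1' : (K1 : ZMod 73) + (c1 * t + d1 * b) = 0 := e1
  have h := sol_true (by norm_num) h e1'
  have ct := res_cast' t (show 0 < 73 by norm_num)
  have cb := res_b (b := b) (show 0 < 73 by norm_num)
  have h := imp_true (imp_true (imp_true h (l3_sound e ct cb)) (l3_sound e2 ct cb))
    (l3_sound e3 ct cb)
  exact clo_false S.dt h73 iq73 h

theorem z5_sound (h3 : In 3 D) (h5 : In 5 D) (h7 : In 7 D) (h13 : In 13 D) (h19 : In 19 D)
    (h37 : In 37 D) (h73 : In 73 D) {S5 S13 : ST} (m5 : SMo w b t P 5 S5)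
    (m13 : SMo w b t P 13 S13)
    (h : z5 (mat w).1 (mat w).2.1 (mat w).2.2.1 (mat w).2.2.2 w S5 S13 (res t 37)
      (res (b : ℤ) 37) (tr 37 (snoc w b) (f0 t P)) (tr 7 (snoc w b) (f0 t P))
      (tr 19 (snoc w b) (f0 t P)) (tr 3 (snoc w b) (f0 t P)) (tr 4 (snoc w b) (f0 t P)) = true) :
    False := by
  have i1 : NeZero c95_13.q := ⟨by decide +kernel⟩
  have i2 : NeZero c105_13.q := ⟨by decide +kernel⟩
  have i3 : NeZero c185_13.q := ⟨by decide +kernel⟩
  have i4 : NeZero c133_13.q := ⟨by decide +kernel⟩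
  have i5 : NeZero c91_37.q := ⟨by decide +kernel⟩
  have i6 : NeZero c140_13.q := ⟨by decide +kernel⟩
  have hD := S.dt.hD
  have G4 := S.g4
  unfold z5 at h
  have h := smo_all h m5
  have h := imp_true h (by
    have H := he_140 h7.gd G4 h5.gd
    exact ox3_sound hD (S.rel3 c140_13_ok h7.gd G4 h5.gd h13.gd rfl rfl)
      H (by
        intro f hf
        rw [← H.hy f hf]
        have e : e140 (ix 7 f) (ix 4 f) (ix 5 f) / 128 = 0 := Nat.div_eq_of_lt (sl1_lt _ _)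
        rw [e]; simp) rfl)
  obtain ⟨K, c, d, e, h⟩ := oo2_sound hD (S.rel2 c95_13_ok h19.gd h5.gd h13.gd rfl rfl)
    (he_95 h19.gd h5.gd) h
  obtain ⟨K1, c1, d1, e1, h⟩ := oo3_sound hD (S.rel3 c105_13_ok h7.gd h3.gd h5.gd h13.gd rfl rfl)
    (he_105 h7.gd h3.gd h5.gd) h
  obtain ⟨K2, c2, d2, e2, h⟩ := oo2_sound hD (S.rel2 c185_13_ok h37.gd h5.gd h13.gd rfl rfl)
    (he_185 h37.gd h5.gd) h
  obtain ⟨K3, c3, d3, e3, h⟩ := oo2_sound hD (S.rel2 c133_13_ok h7.gd h19.gd h13.gd rfl rfl)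
    (he_133_13 h7.gd h19.gd) h
  have h := smo_all h m13
  have ct := res_cast' t (show 0 < 13 by norm_num)
  have cb := res_b (b := b) (show 0 < 13 by norm_num)
  have e' : (K : ZMod 13) + (c * t + d * b) = 0 := e
  have e1' : (K1 : ZMod 13) + (c1 * t + d1 * b) = 0 := e1
  have e2' : (K2 : ZMod 13) + (c2 * t + d2 * b) = 0 := e2
  have e3' : (K3 : ZMod 13) + (c3 * t + d3 * b) = 0 := e3
  have h := imp_true (imp_true (imp_true (imp_true h (l3_sound e' ct cb)) (l3_sound e1' ct cb))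
      (l3_sound e2' ct cb)) (l3_sound e3' ct cb)
  have ct := res_cast' t (show 0 < 37 by norm_num)
  have cb := res_b (b := b) (show 0 < 37 by norm_num)
  have h := imp_true h (ox2_sound hD (S.rel2 c91_37_ok h7.gd h13.gd h37.gd rfl rfl)
      (he_91 h7.gd h13.gd) rfl ct cb)
  exact z73_sound S h7 h13 h19 h37 h73 h

theorem z3_sound (h3 : In 3 D) (h5 : In 5 D) (h7 : In 7 D) (h13 : In 13 D) (h19 : In 19 D)
    (h37 : In 37 D) (h73 : In 73 D) {S4 S3 S5 S13 : ST} (m4 : SMo w b t P 4 S4)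
    (m3 : SMo w b t P 3 S3) (m5 : SMo w b t P 5 S5)
    (m13 : SMo w b t P 13 S13)
    (h : z3 (mat w).1 (mat w).2.1 (mat w).2.2.1 (mat w).2.2.2 w S4 S3 S5 S13 (res t 37)
      (res (b : ℤ) 37) (tr 37 (snoc w b) (f0 t P))
      (mp (sl 4 X148_7) (sl 16 E148_7) (tr 37 (snoc w b) (f0 t P)))
      (mp (sl 4 X148_19) (sl 16 E148_19) (tr 37 (snoc w b) (f0 t P)))
      (tr 7 (snoc w b) (f0 t P))
      (res t 19) (res (b : ℤ) 19)
      (tr 19 (snoc w b) (f0 t P)) = true) :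
    False := by
  have i1 : NeZero c111_19_0.q := ⟨by decide +kernel⟩
  have i2 : NeZero c111_19_1.q := ⟨by decide +kernel⟩
  have i3 : NeZero c148_7.q := ⟨by decide +kernel⟩
  have i4 : NeZero c148_19.q := ⟨by decide +kernel⟩
  have i5 : NeZero c228_7.q := ⟨by decide +kernel⟩
  have hD := S.dt.hD
  have G4 := S.g4
  unfold z3 at h
  have h := smo_all h m3
  have ct := res_cast' t (show 0 < 19 by norm_num)
  have cb := res_b (b := b) (show 0 < 19 by norm_num)
  have h := imp_true h (ox2_sound hD (S.rel2 c111_19_0_ok h37.gd h3.gd h19.gd rfl rfl)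
      (he_111_0 h37.gd h3.gd) rfl ct cb)
  have h := imp_true h (ox2_sound hD (S.rel2 c111_19_1_ok h37.gd h3.gd h19.gd rfl rfl)
      (he_111_1 h37.gd h3.gd) rfl ct cb)
  have h := smo_all h m4
  have h := imp_true h (ck0o_sound hD (S.rel2 c148_7_ok h37.gd G4 h7.gd rfl rfl)
      (he_148_7 h37.gd G4) rfl 0)
  have h := imp_true h (ck0o_sound hD (S.rel2 c148_19_ok h37.gd G4 h19.gd rfl rfl)
      (he_148_19 h37.gd G4) rfl 0)
  have h := imp_true h (by
    have H := he_228 h19.gd h3.gd G4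
    exact ox3_sound hD (S.rel3 c228_7_ok h19.gd h3.gd G4 h7.gd rfl rfl)
      H (by
        intro f hf
        rw [← H.hy f hf]
        have e : e228 (ix 19 f) (ix 3 f) (ix 4 f) / 128 = 0 := Nat.div_eq_of_lt (sl1_lt _ _)
        rw [e]; simp) rfl)
  exact z5_sound S h3 h5 h7 h13 h19 h37 h73 m5 m13 h

theorem z7_sound (h3 : In 3 D) (h5 : In 5 D) (h7 : In 7 D) (h13 : In 13 D) (h19 : In 19 D)
    (h37 : In 37 D) (h73 : In 73 D) {S4 S7 S19 S3 S5 S13 : ST} (m4 : SMo w b t P 4 S4)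
    (m7 : SMo w b t P 7 S7) (m19 : SMo w b t P 19 S19)
    (m3 : SMo w b t P 3 S3) (m5 : SMo w b t P 5 S5)
    (m13 : SMo w b t P 13 S13)
    (h : z7 (mat w).1 (mat w).2.1 (mat w).2.2.1 (mat w).2.2.2 w S4 S7 S19 S3 S5 S13 (res t 37)
      (res (b : ℤ) 37) (tr 37 (snoc w b) (f0 t P))
      (mp (sl 4 X148_7) (sl 16 E148_7) (tr 37 (snoc w b) (f0 t P)))
      (mp (sl 4 X148_19) (sl 16 E148_19) (tr 37 (snoc w b) (f0 t P))) = true) :
    False := by
  have i1 : NeZero c259_19_0.q := ⟨by decide +kernel⟩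
  have i2 : NeZero c259_19_1.q := ⟨by decide +kernel⟩
  have i3 : NeZero c259_19_2.q := ⟨by decide +kernel⟩
  have i4 : NeZero c133_37.q := ⟨by decide +kernel⟩
  have hD := S.dt.hD
  unfold z7 at h
  rw [mapT_eq, mapT_eq, mapT_eq] at h
  have h := smo_all h m7
  have h := imp_true h (ck0o_sound hD (S.rel2 c259_19_2_ok h37.gd h7.gd h19.gd rfl rfl)
      (he_259_2 h37.gd h7.gd) rfl 0)
  rw [oo2_mp] at h
  obtain ⟨K, c, d, e, h⟩ := oo2_sound hD (S.rel2 c259_19_0_ok h37.gd h7.gd h19.gd rfl rfl)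
    (he_259_0 h37.gd h7.gd) h
  rw [oo2_mp] at h
  obtain ⟨K1, c1, d1, e1, h⟩ := oo2_sound hD (S.rel2 c259_19_1_ok h37.gd h7.gd h19.gd rfl rfl)
    (he_259_1 h37.gd h7.gd) h
  have h := smo_all h m19
  have ct := res_cast' t (show 0 < 19 by norm_num)
  have cb := res_b (b := b) (show 0 < 19 by norm_num)
  have e' : (K : ZMod 19) + (c * t + d * b) = 0 := e
  have e1' : (K1 : ZMod 19) + (c1 * t + d1 * b) = 0 := e1
  have h := imp_true (imp_true h (l3_sound e' ct cb)) (l3_sound e1' ct cb)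
  have ct := res_cast' t (show 0 < 37 by norm_num)
  have cb := res_b (b := b) (show 0 < 37 by norm_num)
  have h := imp_true h (ox2_sound hD (S.rel2 c133_37_ok h7.gd h19.gd h37.gd rfl rfl)
      (he_133_37 h7.gd h19.gd) rfl ct cb)
  exact z3_sound S h3 h5 h7 h13 h19 h37 h73 m4 m3 m5 m13 h

theorem zA_sound (h3 : In 3 D) (h5 : In 5 D) (h7 : In 7 D) (h13 : In 13 D) (h19 : In 19 D)
    (h37 : In 37 D) (h73 : In 73 D) {S37 S4 S7 S19 S3 S5 S13 : ST}
    (m37 : SMo w b t P 37 S37) (m4 : SMo w b t P 4 S4)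
    (m7 : SMo w b t P 7 S7) (m19 : SMo w b t P 19 S19)
    (m3 : SMo w b t P 3 S3) (m5 : SMo w b t P 5 S5)
    (m13 : SMo w b t P 13 S13)
    (h : zA (mat w).1 (mat w).2.1 (mat w).2.2.1 (mat w).2.2.2 w S37 S4 S7 S19 S3 S5 S13 = true) :
    False := by
  have i3 : NeZero c148_7.q := ⟨by decide +kernel⟩
  have i4 : NeZero c148_19.q := ⟨by decide +kernel⟩
  have hD := S.dt.hD
  have G4 := S.g4
  unfold zA at h
  have h := smo_all h m37
  rw [mapT_eq, mapT_eq] at h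
  cases hc : (S4.all (fun _ _ _ T4 => imp (ck0 7 (WL.cons 0 w)
        (mp (sl 4 X148_7) (sl 16 E148_7) (tr 37 (snoc w b) (f0 t P))) T4)
        (imp (ck0 19 (WL.cons 0 w)
          (mp (sl 4 X148_19) (sl 16 E148_19) (tr 37 (snoc w b) (f0 t P))) T4) false))) with
  | true =>
    have h := smo_all hc m4
    have h := imp_true h (ck0o_sound hD (S.rel2 c148_7_ok h37.gd G4 h7.gd rfl rfl)
      (he_148_7 h37.gd G4) rfl 0)
    have h := imp_true h (ck0o_sound hD (S.rel2 c148_19_ok h37.gd G4 h19.gd rfl rfl)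
      (he_148_19 h37.gd G4) rfl 0)
    exact absurd h (by simp)
  | false =>
    rw [hc] at h
    exact z7_sound S h3 h5 h7 h13 h19 h37 h73 m4 m7 m19 m3 m5 m13 h

theorem zR_sound (hI : ∀ l : ℕ, l ∈ ([3, 5, 7, 13, 19, 37, 73] : List ℕ) →
    ¬ IsSquare ((D : ℤ) : ZMod l)) (h : zR w = true) : False := by
  have h3 : In 3 D := ⟨by norm_num, by decide +kernel, by norm_num, hI 3 (by simp)⟩
  have h5 : In 5 D := ⟨by norm_num, by decide +kernel, by norm_num, hI 5 (by simp)⟩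
  have h7 : In 7 D := ⟨by norm_num, by decide +kernel, by norm_num, hI 7 (by simp)⟩
  have h13 : In 13 D := ⟨by norm_num, by decide +kernel, by norm_num, hI 13 (by simp)⟩
  have h19 : In 19 D := ⟨by norm_num, by decide +kernel, by norm_num, hI 19 (by simp)⟩
  have h37 : In 37 D := ⟨by norm_num, by decide +kernel, by norm_num, hI 37 (by simp)⟩
  have h73 : In 73 D := ⟨by norm_num, by decide +kernel, by norm_num, hI 73 (by simp)⟩
  obtain ⟨S37, k37, m37⟩ := soP_ex S.dt ci37 iq37 h37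
  obtain ⟨S4, k4, m4⟩ := soF_ex S.dt S.d8
  obtain ⟨S7, k7, m7⟩ := soP_ex S.dt ci7 iq7 h7
  obtain ⟨S19, k19, m19⟩ := soP_ex S.dt ci19 iq19 h19
  obtain ⟨S3, k3, m3⟩ := soP_ex S.dt ci3 iq3 h3
  obtain ⟨S5, k5, m5⟩ := soP_ex S.dt ci5 iq5 h5
  obtain ⟨S13, k13, m13⟩ := soP_ex S.dt ci13 iq13 h13
  unfold zR at h
  rw [maK_eq, k37, k4, k7, k19, k3, k5, k13] at h
  exact zA_sound S h3 h5 h7 h13 h19 h37 h73 m37 m4 m7 m19 m3 m5 m13 h

end stages

end Pool.Agent.V5helper47.OD
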