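import Pool.Agent.V5helper47.OD.T2
import Pool.Agent.V5helper47.OD.S2
import Pool.Agent.V5helper47.EV.T3
import Pool.Agent.N911.U9

/-! Size of the norms, small parameters, norm of the centre, odd periods. -/

set_option maxRecDepth 100000

namespace Pool.Agent.V5helper47.OD

open H419R2 Pool.Agent.N911 Finset Pool.Agent.V5helper47.CN Pool.Agent.V5helper47.EV

theorem tr_le : ∀ {v : WL}, v.Pos → 1 ≤ v.tr.2.2 ∧ v.tr.2.2 ≤ v.tr.1
  | .nil, _ => ⟨le_rfl, le_rfl⟩
  | .cons a l, hp => by
    obtain ⟨h1, h2⟩ := tr_le (v := l) hp.2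
    rw [tr_cons]
    change 1 ≤ l.tr.1 ∧ l.tr.1 ≤ l.tr.2.2 + (2 * a * l.tr.2.1 + a * a * l.tr.1)
    have h3 : 1 * l.tr.1 ≤ a * a * l.tr.1 :=
      Nat.mul_le_mul_right _ (Nat.mul_le_mul hp.1 hp.1)
    omega

theorem pos_stepO {a : ℕ} {l : WL} (hp : (WL.cons a l).Pos) {f : Fm} (hA : 0 < f.A)
    (hB : 0 < f.B) (h : lam (.cons a l) f = 0) : 0 < f.C ∧ 0 < (f.step a).B := by
  have ha : (1 : ℤ) ≤ a := by exact_mod_cast hp.1
  obtain ⟨h1, h2⟩ := tr_le hp
  obtain ⟨k1, k2⟩ := tr_le (v := l) hp.2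
  unfold lam at h
  have hy : (1 : ℤ) ≤ (WL.cons a l).tr.2.2 := by exact_mod_cast h1
  have hU : (1 : ℤ) ≤ (WL.cons a l).tr.1 := by exact_mod_cast h1.trans h2
  have hx : (0 : ℤ) ≤ (WL.cons a l).tr.2.1 := by positivity
  have e1 : f.C * (WL.cons a l).tr.1 = f.B * (WL.cons a l).tr.2.1 + f.A * (WL.cons a l).tr.2.2 := by
    linarith
  have e3 : 0 ≤ f.B * (WL.cons a l).tr.2.1 := mul_nonneg hB.le hx
  have e4 : 0 < f.A * (WL.cons a l).tr.2.2 := mul_pos hA (by linarith)
  have hC : 0 < f.C := by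
    by_contra hc
    push Not at hc
    have e2 : f.C * (WL.cons a l).tr.1 ≤ 0 := mul_nonpos_of_nonpos_of_nonneg hc (by linarith)
    linarith
  refine ⟨hC, ?_⟩
  change 0 < 2 * a * f.C - f.B
  have key : 0 < (2 * a * f.C - f.B) * (WL.cons a l).tr.1 := by
    have e2 : (2 * a * f.C - f.B) * (WL.cons a l).tr.1 =
      f.B * (2 * a * (WL.cons a l).tr.2.1 - (WL.cons a l).tr.1) +
        2 * a * (f.A * (WL.cons a l).tr.2.2) := by linear_combination 2 * (a : ℤ) * e1
    rw [e2]
    have e5 : 0 < 2 * (a : ℤ) * (f.A * (WL.cons a l).tr.2.2) := mul_pos (by linarith) e4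
    have e6 : 0 ≤ 2 * (a : ℤ) * (WL.cons a l).tr.2.1 - (WL.cons a l).tr.1 := by
      rw [tr_cons]
      generalize l.tr.1 = U at *
      generalize l.tr.2.1 = x at *
      generalize l.tr.2.2 = y at *
      push_cast
      have k1' : (1 : ℤ) ≤ y := by exact_mod_cast k1
      have k2' : (y : ℤ) ≤ U := by exact_mod_cast k2
      have e7 : (1 : ℤ) ≤ a * a := by nlinarith
      have e8 : (1 : ℤ) * U ≤ a * a * U := mul_le_mul_of_nonneg_right e7 (by linarith)
      have e9 : 2 * (a : ℤ) * (x + a * U) - (y + (2 * a * x + a * a * U)) = a * a * U - y := by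
        ring
      rw [e9]
      linarith
    have e7 := mul_nonneg hB.le e6
    linarith
  by_contra hc
  push Not at hc
  have := mul_nonpos_of_nonpos_of_nonneg hc (show (0 : ℤ) ≤ (WL.cons a l).tr.1 by linarith)
  linarith

theorem posO : ∀ {l : WL} {a : ℕ} {f : Fm}, (WL.cons a l).Pos → 0 < f.A → 0 < f.B →
    lam (.cons a l) f = 0 → ∀ n ≤ l.len + 1, 0 < (fs (.cons a l) f n).A ∧
      0 < (fs (.cons a l) f n).B
  | _, _, _, _, hA, hB, _, 0, _ => ⟨hA, hB⟩
  | .nil, _, _, hp, hA, hB, h, 1, _ => by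
    obtain ⟨h1, h2⟩ := pos_stepO hp hA hB h
    exact ⟨h1, h2⟩
  | .nil, _, _, _, _, _, _, n + 2, hn => by
    exfalso
    change n + 2 ≤ 1 at hn
    omega
  | .cons b l, a, f, hp, hA, hB, h, n + 1, hn => by
    obtain ⟨h1, h2⟩ := pos_stepO hp hA hB h
    rw [fs_cons]
    exact posO (f := f.step a) hp.2 h1 h2 (by rw [lam_step, h, neg_zero]) n (by
      change n + 1 ≤ l.len + 1 + 1 at hn
      omega)

theorem posCO {l : WL} {a : ℕ} {f : Fm} (hp : (WL.cons a l).Pos) (hA : 0 < f.A) (hB : 0 < f.B)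
    (h : lam (.cons a l) f = 0) : 0 < (f.step a).C := by
  obtain ⟨h1, h2⟩ := pos_stepO hp hA hB h
  cases l with
  | nil =>
    have h3 : lam .nil (f.step a) = 0 := by rw [lam_step, h, neg_zero]
    unfold lam WL.tr at h3
    have h4 : (f.step a).A = f.C := rfl
    push_cast at h3
    linarith
  | cons b l =>
    exact (pos_stepO (f := f.step a) hp.2 h1 h2 (by rw [lam_step, h, neg_zero])).1

/-- all norms are positive -/
theorem posA {v : WL} {t P : ℤ} (hv : v.Pos) (ht : 0 < t) (h : lam v (f0 t P) = 0) :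
    ∀ n ≤ v.len, 0 < (fs v (f0 t P) n).A := by
  intro n hn
  cases v with
  | nil =>
    have : n = 0 := by
      change n ≤ 0 at hn
      omega
    subst this
    exact one_pos
  | cons a l => exact (posO hv (f := f0 t P) one_pos ht h n hn).1

theorem bndO {M : ℕ} : ∀ {w : WL} {b : ℕ} {f : Fm}, (snoc w b).Pos → 0 < f.A → 0 < f.B →
    lam (snoc w b) f = 0 → f.A < f.C + f.B → lm M w → ∀ n, 1 ≤ n → n ≤ w.len →
    f.disc < ((fs (snoc w b) f n).A * (M + 2)) ^ 2
  | .nil, _, _, _, _, _, _, _, _, n, hn1, hn2 => by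
    exfalso
    change n ≤ 0 at hn2
    omega
  | .cons a w, b, f, hp, hA, hB, h, hR, hM, n, hn1, hn2 => by
    have hp' : (snoc w b).Pos := hp.2
    have h' : lam (.cons a (snoc w b)) f = 0 := h
    obtain ⟨h1, h2⟩ := pos_stepO (l := snoc w b) hp hA hB h'
    have h3 := posCO (l := snoc w b) hp hA hB h'
    have ha : (1 : ℤ) ≤ a := by exact_mod_cast hp.1
    have eA : (f.step a).A = f.C := rfl
    have eB : (f.step a).B = 2 * a * f.C - f.B := rfl
    have eC : (f.step a).C = f.A + a * f.B - a ^ 2 * f.C := rfl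
    have hl : lam (snoc w b) (f.step a) = 0 := by rw [lam_step, h', neg_zero]
    -- the next form satisfies the same inequality
    have hR' : (f.step a).A < (f.step a).C + (f.step a).B := by
      rw [eA, eB, eC]
      have e1 : (a : ℤ) * (f.A + a * f.B - a ^ 2 * f.C + (2 * a * f.C - f.B) - f.C) =
        f.A + (a - 1) * (f.A + a * f.B - a ^ 2 * f.C) + (a - 1) * a * f.C := by ring
      rw [eC] at h3
      have e2 : 0 ≤ ((a : ℤ) - 1) * (f.A + a * f.B - a ^ 2 * f.C) :=
        mul_nonneg (by linarith) h3.le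
      have e3 : 0 ≤ ((a : ℤ) - 1) * a * f.C :=
        mul_nonneg (mul_nonneg (by linarith) (by linarith)) h1.le
      have e4 : 0 < (a : ℤ) * (f.A + a * f.B - a ^ 2 * f.C + (2 * a * f.C - f.B) - f.C) := by
        rw [e1]; linarith
      have e5 := pos_of_mul_pos_iff_of_pos (show (0 : ℤ) < a by linarith) e4
      linarith
    rcases Nat.eq_or_lt_of_le hn1 with h0 | h0
    · subst h0
      change f.disc < ((f.step a).A * (M + 2)) ^ 2
      rw [eA]
      have hS : (f.step a).C < (f.step a).A + (f.step a).B := by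
        obtain ⟨a', l', e⟩ := snoc_cons w b
        rw [e] at hp' hl
        have h5 := posCO hp' (by rw [eA]; exact h1) h2 hl
        have ha' : (1 : ℤ) ≤ a' := by exact_mod_cast hp'.1
        have eC' : ((f.step a).step a').C =
          (f.step a).A + a' * (f.step a).B - a' ^ 2 * (f.step a).C := rfl
        rw [eC'] at h5
        have e1 : (a' : ℤ) * ((f.step a).A + (f.step a).B - (f.step a).C) =
          (a' - 1) * (f.step a).A + ((f.step a).A + a' * (f.step a).B - a' ^ 2 * (f.step a).C) +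
            a' * (a' - 1) * (f.step a).C := by ring
        have e2 : 0 ≤ ((a' : ℤ) - 1) * (f.step a).A :=
          mul_nonneg (by linarith) (by rw [eA]; exact h1.le)
        have e3 : 0 ≤ (a' : ℤ) * (a' - 1) * (f.step a).C :=
          mul_nonneg (mul_nonneg (by linarith) (by linarith)) h3.le
        have e4 : 0 < (a' : ℤ) * ((f.step a).A + (f.step a).B - (f.step a).C) := by
          rw [e1]; linarith
        have e5 := pos_of_mul_pos_iff_of_pos (show (0 : ℤ) < a' by linarith) e4
        linarith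
      have k1 : f.disc < (2 * f.C + f.B) ^ 2 := by
        have : (2 * f.C + f.B) ^ 2 - f.disc = 4 * f.C * (f.C + f.B - f.A) := by
          unfold Fm.disc; ring
        have : 0 < 4 * f.C * (f.C + f.B - f.A) := mul_pos (by linarith) (by linarith)
        linarith
      have k2 : f.disc < (2 * f.C + (f.step a).B) ^ 2 := by
        have e1 : (2 * f.C + (f.step a).B) ^ 2 - (f.step a).disc =
          4 * f.C * (f.C + (f.step a).B - (f.step a).C) := by
          unfold Fm.disc
          rw [eA]; ring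
        rw [Fm.disc_step] at e1
        rw [eA] at hS
        have : 0 < 4 * f.C * (f.C + (f.step a).B - (f.step a).C) :=
          mul_pos (by linarith) (by linarith)
        linarith
      have k3 := sq_lt_of h1 hB h2 (a := a) (by rw [eB]; ring) k1 k2
      refine k3.trans_le (pow_le_pow_left₀ (by positivity) ?_ 2)
      have : (a : ℤ) ≤ M := by exact_mod_cast hM.1
      exact mul_le_mul_of_nonneg_left (by linarith) h1.le
    · obtain ⟨m, rfl⟩ : ∃ m, n = m + 1 := ⟨n - 1, by omega⟩
      change f.disc < ((fs (.cons a (snoc w b)) f (m + 1)).A * (M + 2)) ^ 2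
      rw [fs_cons, ← Fm.disc_step a f]
      exact bndO hp' (by rw [eA]; exact h1) h2 hl hR' hM.2 m (by omega) (by
        change m + 1 ≤ w.len + 1 at hn2
        omega)

/-- norm of the centre -/
theorem Do.la_lin {w : WL} {b : ℕ} {t P : ℤ} {D : ℕ} (H : Do w b t P D) :
    la (snoc w b) (f0 t P) * (snoc w b).tr.1 =
      t * ((mat w).1 * (b * (mat w).1 + (mat w).2.1)) +
        ((mat w).1 * (b * (mat w).2.2.1 + (mat w).2.2.2) +
          (mat w).2.2.1 * (b * (mat w).1 + (mat w).2.1)) := by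
  have h := H.lin
  rw [tr_snoc] at h ⊢
  simp only at h ⊢
  have hd := mat_det w
  have hs := sg_sq w
  rw [la_snoc]
  unfold Fv f0
  simp only
  generalize (mat w).1 = v at *
  generalize (mat w).2.1 = x at *
  generalize (mat w).2.2.1 = y at *
  generalize (mat w).2.2.2 = z at *
  generalize sg w = s at *
  push_cast at h ⊢
  linear_combination (s * v ^ 2) * h + (t * v * (b * v + x) + v * (b * y + z) + y * (b * v + x)) *
    (s * hd + hs)

end Pool.Agent.V5helper47.OD
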