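import Pool.Agent.V5helper47.OD.T3

/-! One half word, odd periods. -/

set_option maxRecDepth 100000

namespace Pool.Agent.V5helper47.OD

open H419R2 Pool.Agent.N911 Finset Pool.Agent.V5helper47.CN Pool.Agent.V5helper47.EV

/-! ### Numbers -/

/-- the parameters of a word form a progression -/
theorem progO {U x y t P : ℕ} (hU : 0 < U) (hdet : U * y = x ^ 2 + 1) (hlin : P * U = t * x + y) :
    ∃ j, t = x * y % U + j * U ∧ P = (x * y % U * x + y) / U + j * x := by
  set t0 := x * y % U with ht0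
  have hlt : t0 < U := Nat.mod_lt _ hU
  have e1 : (P : ℤ) * U = t * x + y := by exact_mod_cast hlin
  have e3 : (U : ℤ) * y = x ^ 2 + 1 := by exact_mod_cast hdet
  have h2 : (U : ℤ) ∣ (x * y : ℤ) - t0 := by
    rw [ht0]
    push_cast [Int.natCast_mod]
    exact Int.dvd_self_sub_emod
  have h3 : (U : ℤ) ∣ (t : ℤ) - x * y := by
    refine ⟨(t : ℤ) * y - P * x, ?_⟩
    linear_combination (x : ℤ) * e1 - (t : ℤ) * e3
  obtain ⟨j', hj'⟩ : (U : ℤ) ∣ (t : ℤ) - t0 := by
    have := dvd_add h3 h2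
    have e : (t : ℤ) - x * y + (x * y - t0) = t - t0 := by ring
    rwa [e] at this
  have hj0 : 0 ≤ j' := by
    by_contra hc
    push Not at hc
    have h4 : (U : ℤ) * j' ≤ -U := by nlinarith
    have h5 : (t0 : ℤ) < U := by exact_mod_cast hlt
    have h6 : (0 : ℤ) ≤ t := by positivity
    linarith
  obtain ⟨j, rfl⟩ := Int.eq_ofNat_of_zero_le hj0
  have et : t = t0 + j * U := by
    have : (t : ℤ) = ((t0 + j * U : ℕ) : ℤ) := by push_cast; linarith
    exact_mod_cast this
  refine ⟨j, et, ?_⟩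
  have h5 : P * U = (t0 * x + y) + j * x * U := by
    rw [hlin, et]; ring
  have h6 : (t0 * x + y) = (P - j * x) * U := by
    rw [Nat.sub_mul]
    omega
  have h8 : j * x ≤ P := by
    have : j * x * U ≤ P * U := by omega
    exact Nat.le_of_mul_le_mul_right this hU
  rw [h6, Nat.mul_div_cancel _ hU]
  omega

/-! ### Small checks -/

theorem trK_eq : ∀ (w : WL) (k : ℕ → ℕ → ℕ → Bool), trK w k = k w.tr.1 w.tr.2.1 w.tr.2.2
  | .nil, _ => rfl
  | .cons a l, k => by
    have e : trK (.cons a l) k = trK l (fun U x y =>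
      force (Nat.add y (Nat.add (Nat.mul (Nat.mul 2 a) x) (Nat.mul (Nat.mul a a) U))) (fun U' =>
      force (Nat.add x (Nat.mul a U)) (fun x' => k U' x' U))) := rfl
    rw [e, trK_eq l, force_eq, force_eq]
    rfl

theorem preO_sound : ∀ {v : WL} {k : WL → Bool}, v.Pos → preO v k = true →
    ∃ u : WL, u.Pos ∧ k u = true
  | .nil, _, _, h => absurd h (by simp [preO])
  | .cons a l, k, hp, h => by
    have e : preO (.cons a l) k = or (k WL.nil) (preO l (fun u => k (WL.cons a u))) := rfl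
    rw [e, Bool.or_eq_true] at h
    rcases h with h | h
    · exact ⟨.nil, trivial, h⟩
    · obtain ⟨u, h1, h2⟩ := preO_sound hp.2 h
      exact ⟨.cons a u, ⟨hp.1, h1⟩, h2⟩

theorem lam_of_lin {u : WL} {t P : ℕ} (h : P * u.tr.1 = t * u.tr.2.1 + u.tr.2.2) :
    lam u (f0 t P) = 0 := by
  unfold lam f0
  have : (P : ℤ) * u.tr.1 = t * u.tr.2.1 + u.tr.2.2 := by exact_mod_cast h
  simp only
  linarith

theorem lmO_sound {t P : ℕ} {u : WL} (h : lmO t P u = true) : lam u (f0 t P) = 0 := by
  unfold lmO at h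
  rw [trK_eq] at h
  exact lam_of_lin (Nat.eq_of_beq_eq_true h)

theorem inO_sound {D : ℕ} (h : inO D = true) : D ∈ LO := by
  unfold inO at h
  rw [anyL_iff] at h
  obtain ⟨x, hx, h1⟩ := h
  rw [← Nat.eq_of_beq_eq_true h1]; exact hx

theorem PWO_prime {l : ℕ} (h : l ∈ PWO) : l.Prime := by
  unfold PWO at h
  simp only [List.mem_cons, List.not_mem_nil, or_false] at h
  rcases h with rfl | rfl | rfl | rfl | rfl | rfl | rfl | rfl | rfl | rfl | rfl | rfl | rfl |
    rfl | rfl <;> norm_num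

theorem mkG {v : WL} (hv : v.Pos) {t P D : ℕ} (hlam : lam v (f0 t P) = 0) (hodd : t % 2 = 1)
    (hD : D = t * t + 4 * P) (hsf : Squarefree (D : ℤ))
    {K : Type*} [Field K] [NumberField K] (hK : Module.finrank ℚ K = 2) {z : K}
    (hz : z ^ 2 = ((D : ℤ) : K)) (hcl : NumberField.classNumber K = 1)
    (h : ∀ n, 1 ≤ n → n ≤ v.len → (2 : ℤ) ≤ (fs v (f0 t P) n).A) : GoodW v t P D := by
  have hDz : (D : ℤ) = (t : ℤ) ^ 2 + 4 * (P : ℤ) := by rw [hD]; push_cast; ring
  refine goodW_of_word hv (by omega) (end_sym v (f0 t P) hlam) ?_ ?_ hDz hsf hodd hK hz hcl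
  · intro n hn
    rcases Nat.eq_zero_or_pos n with h0 | h0
    · subst h0; exact one_pos
    · have := h n h0 hn
      unfold qs
      linarith
  · intro n hn1 hn2 h3
    have := h n hn1 hn2
    unfold qs at h3
    linarith

theorem wt_false {v : WL} (hv : v.Pos) {t P D : ℕ} (hlam : lam v (f0 t P) = 0)
    (hodd : t % 2 = 1) (hD : D = t * t + 4 * P) (hsf : Squarefree (D : ℤ))
    {K : Type*} [Field K] [NumberField K] (hK : Module.finrank ℚ K = 2) {z : K}
    (hz : z ^ 2 = ((D : ℤ) : K)) (hcl : NumberField.classNumber K = 1)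
    (h : wtO t P D v = true) : False := by
  unfold wtO at h
  rw [anyL_iff] at h
  obtain ⟨l, hl, h1⟩ := h
  have hp := PWO_prime hl
  unfold witU1 at h1
  rw [cj_true, cj_true] at h1
  obtain ⟨h2, h3, h4⟩ := h1
  have h2' : 4 * (l * l) ≤ D := Nat.le_of_ble_eq_true h2
  have hq := qW_sound h3
  have G := mkG hv hlam hodd hD hsf hK hz hcl (by
    intro n hn1 hn2
    obtain ⟨q, h5, h6⟩ := hq n hn1 hn2
    rw [cj_true] at h5
    rw [f0_nat, h6]
    exact_mod_cast Nat.le_of_ble_eq_true h5.1)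
  obtain ⟨w, _, h5⟩ := anyU_true h4
  have h6' : (w * w + t * w) % l = P % l := Nat.eq_of_beq_eq_true h5
  have h7 : (l : ℤ) ∣ (w : ℤ) ^ 2 + t * w - P := by
    have h8 : (w * w + t * w) ≡ P [MOD l] := h6'
    have h9 := (Nat.modEq_iff_dvd.mp h8)
    push_cast at h9
    have : (w : ℤ) ^ 2 + t * w - P = -((P : ℤ) - (w * w + t * w)) := by ring
    rw [this]
    exact (dvd_neg).mpr h9
  obtain ⟨n, hn1, hn2, hA⟩ := G.split l hp (by
    have : (4 * (l * l) : ℤ) ≤ D := by exact_mod_cast h2'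
    linarith) ⟨w, h7⟩
  obtain ⟨q, h8, h9⟩ := hq n hn1 hn2
  rw [cj_true] at h8
  rw [f0_nat, h9] at hA
  have : q = l := by exact_mod_cast hA
  subst this
  simp at h8

theorem ckO_sound {v : WL} (hv : v.Pos) {t P D : ℕ} (hlam : lam v (f0 t P) = 0)
    (hodd : t % 2 = 1) (hD : D = t * t + 4 * P) (hsf : Squarefree (D : ℤ))
    {K : Type*} [Field K] [NumberField K] (hK : Module.finrank ℚ K = 2) {z : K}
    (hz : z ^ 2 = ((D : ℤ) : K)) (hcl : NumberField.classNumber K = 1)
    (h : ckO v t P = true) : D ∈ LO := by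
  unfold ckO at h
  rw [force_eq] at h
  have eD : Nat.add (Nat.mul t t) (Nat.mul 4 P) = D := hD.symm
  rw [eD, Bool.or_eq_true, Bool.or_eq_true, Bool.or_eq_true, Bool.or_eq_true] at h
  rcases h with h | h | h | h | h
  · exfalso
    have : t % 2 = 0 := Nat.eq_of_beq_eq_true h
    omega
  · rw [sqD_false hsf] at h
    exact absurd h (by simp)
  · exact inO_sound h
  · exact (wt_false hv hlam hodd hD hsf hK hz hcl h).elim
  · exfalso
    obtain ⟨u, hu, h1⟩ := preO_sound hv h
    rw [cj_true] at h1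
    exact wt_false hu (lmO_sound h1.1) hodd hD hsf hK hz hcl h1.2

theorem smO_sound {w : WL} {b t P : ℕ} (h : smO w = true) (hb : 0 < b)
    (hb2 : b ≤ t + 2) (ht : t < 73 * (mxK w 0 + 2))
    (hlin : P * (snoc w b).tr.1 = t * (snoc w b).tr.2.1 + (snoc w b).tr.2.2) :
    ckO (snoc w b) t P = true := by
  unfold smO at h
  rw [maK_eq, force_eq, allN_iff] at h
  have h := h (b - 1) (by
    change b - 1 < 73 * (mxK w 0 + 2) + 2
    omega)
  rw [force_eq] at h
  have eb : Nat.succ (b - 1) = b := by omega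
  rw [eb] at h
  have hdet := tr_det (snoc w b)
  have hU0 : 0 < (snoc w b).tr.1 := by
    by_contra hc
    have : (snoc w b).tr.1 = 0 := by omega
    rw [this] at hdet
    simp at hdet
  rw [tr_snoc] at hlin hdet hU0
  simp only at hlin hdet hU0
  unfold bO at h
  generalize (mat w).1 = v at *
  generalize (mat w).2.1 = x at *
  generalize (mat w).2.2.1 = y at *
  generalize (mat w).2.2.2 = z at *
  simp only [force_eq] at h
  obtain ⟨j, e1, e2⟩ := progO hU0 hdet hlin
  have c1 : Nat.add (Nat.mul (Nat.add (Nat.mul b v) x) (Nat.add (Nat.mul b v) x)) (Nat.mul v v) =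
    (b * v + x) ^ 2 + v ^ 2 := by
    change (b * v + x) * (b * v + x) + v * v = _
    ring
  have c2 : Nat.add (Nat.mul (Nat.add (Nat.mul b v) x) (Nat.add (Nat.mul b y) z)) (Nat.mul v y) =
    (b * v + x) * (b * y + z) + v * y := rfl
  have c3 : Nat.add (Nat.mul (Nat.add (Nat.mul b y) z) (Nat.add (Nat.mul b y) z)) (Nat.mul y y) =
    (b * y + z) ^ 2 + y ^ 2 := by
    change (b * y + z) * (b * y + z) + y * y = _
    ring
  rw [c1, c2, c3] at h
  generalize (b * v + x) ^ 2 + v ^ 2 = A at *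
  generalize (b * v + x) * (b * y + z) + v * y = B at *
  generalize (b * y + z) ^ 2 + y ^ 2 = C at *
  have c4 : Nat.mod (Nat.mul B C) A = B * C % A := rfl
  rw [c4] at h
  generalize B * C % A = t0 at *
  have hlt : Nat.ble (Nat.mul 73 (Nat.add (mxK w 0) 2)) t0 = false := by
    rw [Bool.eq_false_iff]
    intro hc
    have h1 : 73 * (mxK w 0 + 2) ≤ t0 := Nat.le_of_ble_eq_true hc
    have : t0 ≤ t := by rw [e1]; omega
    omega
  rw [hlt] at h
  change snK w b (fun u => ltF (ckO u) A B (Nat.mul 73 (Nat.add (mxK w 0) 2))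
    (Nat.mul 73 (Nat.add (mxK w 0) 2)) t0 (Nat.div (Nat.add (Nat.mul t0 B) C) A)) = true at h
  rw [snK_eq] at h
  have h := ltF_sound h j (by rw [← e1]; exact ht)
  have c5 : Nat.div (Nat.add (Nat.mul t0 B) C) A = (t0 * B + C) / A := rfl
  rw [c5, ← e1, ← e2] at h
  exact h

theorem qO_sound {w : WL} {b t P q : ℕ}
    (h : qO w (mat w).1 (mat w).2.1 (mat w).2.2.1 (mat w).2.2.2 q = true) (hw : w.Pos)
    (hb : 0 < b) (hb2 : b ≤ q * (mat w).1)
    (hlin : P * (snoc w b).tr.1 = t * (snoc w b).tr.2.1 + (snoc w b).tr.2.2)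
    (hla : q * (snoc w b).tr.1 = t * ((mat w).1 * (b * (mat w).1 + (mat w).2.1)) +
        ((mat w).1 * (b * (mat w).2.2.1 + (mat w).2.2.2) +
          (mat w).2.2.1 * (b * (mat w).1 + (mat w).2.1))) :
    ckO (snoc w b) t P = true := by
  have hdm := mat_det w
  have hs := sg_sq w
  have hV := mat_pos hw
  rw [tr_snoc] at hlin hla
  simp only at hlin hla
  unfold qO at h
  have hcop : Nat.mod (Nat.mul q (mat w).2.1) (mat w).1 = Nat.mod (mat w).2.2.1 (mat w).1 := by
    generalize (mat w).1 = v at *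
    generalize (mat w).2.1 = x at *
    generalize (mat w).2.2.1 = y at *
    generalize (mat w).2.2.2 = z at *
    generalize sg w = s at *
    have e1 : (q : ℤ) * ((b * v + x) ^ 2 + v ^ 2) = t * (v * (b * v + x)) +
        (v * (b * y + z) + y * (b * v + x)) := by exact_mod_cast hla
    have e2 : (v : ℤ) ∣ (y : ℤ) - ((q * x : ℕ) : ℤ) := by
      -- `x (y - q x) = 0` modulo `v`, and `x y = -s`
      have e3 : (v : ℤ) ∣ (x : ℤ) * (y - q * x) := by
        refine ⟨(q : ℤ) * (b * (b * v + x) + b * x + v) - t * (b * v + x) - (b * y + z) - y * b,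
          ?_⟩
        linear_combination -e1
      have e4 : IsCoprime (v : ℤ) (x : ℤ) := ⟨s * z, -(s * y), by linear_combination s * hdm + hs⟩
      have := e4.dvd_of_dvd_mul_left e3
      push_cast
      exact this
    have e5 : (q * x) ≡ y [MOD v] := Nat.modEq_iff_dvd.mpr e2
    exact e5
  rw [hcop] at h
  have h := imp_true h (Nat.beq_refl _)
  rw [allN_iff] at h
  have h := h (b - 1) (by
    change b - 1 < q * (mat w).1
    omega)
  rw [force_eq] at h
  have eb : Nat.succ (b - 1) = b := by omega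
  rw [eb] at h
  unfold cO at h
  have hn0 : 0 < (mat w).1 * (b * (mat w).1 + (mat w).2.1) := by
    have h1 : 0 < b * (mat w).1 := Nat.mul_pos hb (by omega)
    exact Nat.mul_pos (by omega) (by omega)
  generalize (mat w).1 = v at *
  generalize (mat w).2.1 = x at *
  generalize (mat w).2.2.1 = y at *
  generalize (mat w).2.2.2 = z at *
  simp only [force_eq] at h
  have c1 : Nat.add (Nat.mul (Nat.add (Nat.mul b v) x) (Nat.add (Nat.mul b v) x)) (Nat.mul v v) =
    (b * v + x) ^ 2 + v ^ 2 := by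
    change (b * v + x) * (b * v + x) + v * v = _
    ring
  have c2 : Nat.add (Nat.mul (Nat.add (Nat.mul b v) x) (Nat.add (Nat.mul b y) z)) (Nat.mul v y) =
    (b * v + x) * (b * y + z) + v * y := rfl
  have c3 : Nat.add (Nat.mul (Nat.add (Nat.mul b y) z) (Nat.add (Nat.mul b y) z)) (Nat.mul y y) =
    (b * y + z) ^ 2 + y ^ 2 := by
    change (b * y + z) * (b * y + z) + y * y = _
    ring
  have c4 : Nat.mul v (Nat.add (Nat.mul b v) x) = v * (b * v + x) := rfl
  have c5 : Nat.add (Nat.mul v (Nat.add (Nat.mul b y) z)) (Nat.mul y (Nat.add (Nat.mul b v) x)) =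
    v * (b * y + z) + y * (b * v + x) := rfl
  rw [c1, c2, c3, c4, c5] at h
  generalize hA : (b * v + x) ^ 2 + v ^ 2 = A at *
  generalize (b * v + x) * (b * y + z) + v * y = B at *
  generalize (b * y + z) ^ 2 + y ^ 2 = C at *
  generalize v * (b * v + x) = c at *
  generalize v * (b * y + z) + y * (b * v + x) = s' at *
  have hA0 : 0 < A := by
    rw [← hA]
    have : 0 < v ^ 2 := by positivity
    omega
  have e6 : Nat.div (Nat.sub (Nat.mul q A) s') c = t := by
    change (q * A - s') / c = t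
    rw [hla, Nat.add_sub_cancel, Nat.mul_div_cancel _ hn0]
  rw [e6] at h
  have h := imp_true h (by
    have : Nat.add (Nat.mul t c) s' = Nat.mul q A := hla.symm
    rw [this]
    exact Nat.beq_refl _)
  have e7 : Nat.div (Nat.add (Nat.mul t B) C) A = P := by
    change (t * B + C) / A = P
    rw [← hlin, Nat.mul_div_cancel _ hA0]
  rw [e7] at h
  have h := imp_true h (by
    have : Nat.mul P A = Nat.add (Nat.mul t B) C := hlin
    rw [this]
    exact Nat.beq_refl _)
  rw [snK_eq] at h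
  exact h

/-- bounds for the centre letter -/
theorem b_bnd {w : WL} {b t q : ℕ} (hw : w.Pos) (hb : 0 < b) (hq : 0 < q)
    (hla : q * (snoc w b).tr.1 = t * ((mat w).1 * (b * (mat w).1 + (mat w).2.1)) +
        ((mat w).1 * (b * (mat w).2.2.1 + (mat w).2.2.2) +
          (mat w).2.2.1 * (b * (mat w).1 + (mat w).2.1))) :
    b ≤ t + 2 ∧ ((q : ℤ) * (mat w).1 ^ 2 ≠ sg w → b ≤ q * (mat w).1) := by
  have hdm := mat_det w
  have hs := sg_sq w
  have hV := mat_pos hw
  have hYV := mat_Y_le hw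
  have hs1 : sg w = 1 ∨ sg w = -1 := by
    have : (sg w - 1) * (sg w + 1) = 0 := by linear_combination hs
    rcases mul_eq_zero.mp this with h | h
    · left; linarith
    · right; linarith
  rw [tr_snoc] at hla
  simp only at hla
  generalize (mat w).1 = v at *
  generalize (mat w).2.1 = x at *
  generalize (mat w).2.2.1 = y at *
  generalize (mat w).2.2.2 = z at *
  generalize sg w = s at *
  have e1 : (q : ℤ) * ((b * v + x) ^ 2 + v ^ 2) = t * (v * (b * v + x)) +
        (v * (b * y + z) + y * (b * v + x)) := by exact_mod_cast hla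
  have hv1 : (1 : ℤ) ≤ v := by exact_mod_cast hV
  have hy : (y : ℤ) ≤ v := by exact_mod_cast hYV
  have hy0 : (0 : ℤ) ≤ y := by positivity
  have hx0 : (0 : ℤ) ≤ x := by positivity
  have hz0 : (0 : ℤ) ≤ z := by positivity
  have hb1 : (1 : ℤ) ≤ b := by exact_mod_cast hb
  have hq1 : (1 : ℤ) ≤ q := by exact_mod_cast hq
  have ht0 : (0 : ℤ) ≤ t := by positivity
  obtain ⟨n, hn⟩ : ∃ n : ℤ, n = b * v + x := ⟨_, rfl⟩
  have hbv : (b : ℤ) * v ≤ n := by rw [hn]; linarith
  have hbv1 : (1 : ℤ) ≤ b * v := by nlinarith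
  have hn1 : (1 : ℤ) ≤ n := hbv1.trans hbv
  -- `v m = n y + s`
  have e2 : (v : ℤ) * (b * y + z) = n * y + s := by rw [hn]; linear_combination hdm
  have e3 : (q : ℤ) * (n ^ 2 + v ^ 2) = t * (v * n) + 2 * (y * n) + s := by
    rw [e2] at e1
    rw [hn] at e1 ⊢
    linear_combination e1
  refine ⟨?_, ?_⟩
  · by_contra hc
    push Not at hc
    have hc' : (t : ℤ) + 3 ≤ b := by exact_mod_cast hc
    have h1 : (t : ℤ) * v + 3 * v ≤ n := by nlinarith
    have h2 : n * ((t : ℤ) * v + 3 * v) ≤ n * n := mul_le_mul_of_nonneg_left h1 (by linarith)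
    have h3 : y * n ≤ v * n := mul_le_mul_of_nonneg_right hy (by linarith)
    have h4 : (1 : ℤ) * (n ^ 2 + v ^ 2) ≤ q * (n ^ 2 + v ^ 2) :=
      mul_le_mul_of_nonneg_right hq1 (by positivity)
    have h5 : (1 : ℤ) ≤ v * n := by nlinarith
    have h6 : (1 : ℤ) ≤ v ^ 2 := by nlinarith
    rcases hs1 with h | h <;> rw [h] at e3 <;> nlinarith
  · intro hne
    have e4 : n * ((t : ℤ) * v + 2 * y - q * n) = q * v ^ 2 - s := by linear_combination -e3
    have hpos : 0 < (q : ℤ) * v ^ 2 - s := by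
      have h6 : (1 : ℤ) ≤ v ^ 2 := by nlinarith
      have h7 : (1 : ℤ) ≤ q * v ^ 2 := by nlinarith
      rcases hs1 with h | h
      · rw [h] at hne ⊢
        omega
      · rw [h]
        linarith
    have hle : n ≤ (q : ℤ) * v ^ 2 - s := Int.le_of_dvd hpos ⟨_, e4.symm⟩
    have key : (b : ℤ) * v ≤ q * v * v := by
      rcases hs1 with h | h
      · rw [h] at hle
        nlinarith
      · rw [h] at hle hdm
        have hx1 : (1 : ℤ) ≤ x := by
          by_contra hc
          push Not at hc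
          have : (x : ℤ) = 0 := by linarith
          rw [this] at hdm
          have : (0 : ℤ) ≤ v * z := by positivity
          linarith
        rw [hn] at hle
        nlinarith
    have key2 : (b : ℤ) ≤ q * v := by
      by_contra hc
      push Not at hc
      have := mul_lt_mul_of_pos_right hc (show (0 : ℤ) < v by linarith)
      linarith
    exact_mod_cast key2

end Pool.Agent.V5helper47.OD
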