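import Pool.Agent.V5helper47.OD.T4

/-! One half word, odd periods. -/

set_option maxRecDepth 100000

namespace Pool.Agent.V5helper47.OD

open H419R2 Pool.Agent.N911 Finset Pool.Agent.V5helper47.CN Pool.Agent.V5helper47.EV

/-- both checks of a word -/
def OkO (w : WL) : Prop := smq w = true ∧ zR w = true

theorem word_odd {w : WL} {b : ℕ} (hw : (snoc w b).Pos) {t P D : ℕ}
    (hlin : P * (snoc w b).tr.1 = t * (snoc w b).tr.2.1 + (snoc w b).tr.2.2)
    (hodd : t % 2 = 1) (hD : D = t * t + 4 * P) (hsf : Squarefree (D : ℤ))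
    {K : Type*} [Field K] [NumberField K] (hK : Module.finrank ℚ K = 2) {z : K}
    (hz : z ^ 2 = ((D : ℤ) : K)) (hcl : NumberField.classNumber K = 1)
    (hne : la (snoc w b) (f0 t P) * (mat w).1 ^ 2 ≠ sg w) (hok : OkO w) : D ∈ LO := by
  have hDz : (D : ℤ) = (t : ℤ) ^ 2 + 4 * (P : ℤ) := by rw [hD]; push_cast; ring
  obtain ⟨hwp, hb⟩ := snoc_pos hw
  have ht : 0 < t := by omega
  have htz : (0 : ℤ) < t := by exact_mod_cast ht
  have hdt : Do w b t P D := ⟨hDz, by exact_mod_cast hlin⟩
  have hlam := lam_of_lin hlin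
  have hlen : (snoc w b).len = w.len + 1 := snoc_len w b
  have hpos := posA hw htz hlam
  have hlaA : la (snoc w b) (f0 t P) = (fs (snoc w b) (f0 t P) (w.len + 1)).A := la_eq_fs w b _
  have hla0 : 0 < la (snoc w b) (f0 t P) := by
    rw [hlaA]
    exact hpos _ (by rw [hlen])
  obtain ⟨q, hq⟩ := Int.eq_ofNat_of_zero_le hla0.le
  have hq0 : 0 < q := by
    rw [hq] at hla0
    exact_mod_cast hla0
  have hla : q * (snoc w b).tr.1 = t * ((mat w).1 * (b * (mat w).1 + (mat w).2.1)) +
        ((mat w).1 * (b * (mat w).2.2.1 + (mat w).2.2.2) +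
          (mat w).2.2.1 * (b * (mat w).1 + (mat w).2.1)) := by
    have := hdt.la_lin
    rw [hq] at this
    exact_mod_cast this
  obtain ⟨hb2, hb3⟩ := b_bnd hwp hb hq0 hla
  rw [hq] at hne
  have hb4 := hb3 hne
  obtain ⟨hsmq, hzr⟩ := hok
  unfold smq at hsmq
  rw [cj_true] at hsmq
  obtain ⟨hsm, hqs⟩ := hsmq
  rcases Nat.lt_or_ge t (73 * (mxK w 0 + 2)) with hlt | hge
  · exact ckO_sound hw hlam hodd hD hsf hK hz hcl (smO_sound hsm hb hb2 hlt hlin)
  · unfold qsO at hqs
    rw [maK_eq, cj_true, cj_true, cj_true, cj_true, cj_true, cj_true, cj_true, cj_true] at hqs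
    obtain ⟨q1, q2, q3, q5, q7, q13, q19, q37, q73⟩ := hqs
    have fin : qO w (mat w).1 (mat w).2.1 (mat w).2.2.1 (mat w).2.2.2 q = true → D ∈ LO :=
      fun h => ckO_sound hw hlam hodd hD hsf hK hz hcl (qO_sound h hwp hb hb4 hlin hla)
    by_cases k1 : q = 1
    · subst k1; exact fin q1
    by_cases k2 : q = 2
    · subst k2; exact fin q2
    by_cases k3 : q = 3
    · subst k3; exact fin q3
    by_cases k5 : q = 5
    · subst k5; exact fin q5
    by_cases k7 : q = 7
    · subst k7; exact fin q7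
    by_cases k13 : q = 13
    · subst k13; exact fin q13
    by_cases k19 : q = 19
    · subst k19; exact fin q19
    by_cases k37 : q = 37
    · subst k37; exact fin q37
    by_cases k73 : q = 73
    · subst k73; exact fin q73
    exfalso
    have hgez : (73 * ((mxK w 0 : ℕ) + 2) : ℤ) ≤ (t : ℤ) := by exact_mod_cast hge
    have hPpos : (0 : ℤ) < P := by
      have h1 := hpos 1 (by rw [hlen]; omega)
      have : (fs (snoc w b) (f0 (t : ℤ) P) 1).A = P := rfl
      rw [this] at h1
      exact h1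
    have hbig : ∀ k, 1 ≤ k → k ≤ w.len →
        (74 : ℤ) ≤ (fs (snoc w b) (f0 (t : ℤ) P) k).A := by
      intro k hk1 hk2
      have h1 := bndO (f := f0 (t : ℤ) P) hw one_pos htz hlam
        (by change (1 : ℤ) < P + (t : ℤ); linarith) (mxK_lm w 0).2 k hk1 hk2
      rw [disc_f0 hDz] at h1
      have h2 := hpos k (by rw [hlen]; omega)
      by_contra hc
      push Not at hc
      have h3 : (fs (snoc w b) (f0 (t : ℤ) P) k).A * ((mxK w 0 : ℕ) + 2) ≤
          73 * ((mxK w 0 : ℕ) + 2) :=
        mul_le_mul_of_nonneg_right (by linarith) (by positivity)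
      have h4 : ((fs (snoc w b) (f0 (t : ℤ) P) k).A * ((mxK w 0 : ℕ) + 2)) ^ 2 ≤
          (t : ℤ) ^ 2 :=
        pow_le_pow_left₀ (by positivity) (h3.trans hgez) 2
      linarith
    have h2 : ∀ k, 1 ≤ k → k ≤ (snoc w b).len →
        (2 : ℤ) ≤ (fs (snoc w b) (f0 (t : ℤ) P) k).A := by
      intro k hk1 hk2
      rw [hlen] at hk2
      rcases Nat.lt_or_ge k (w.len + 1) with h | h
      · have := hbig k hk1 (by omega)
        linarith
      · have : k = w.len + 1 := by omega
        rw [this, ← hlaA, hq]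
        have : 2 ≤ q := by omega
        exact_mod_cast this
    have G := mkG hw hlam hodd hD hsf hK hz hcl h2
    have ht146 : (146 : ℤ) ≤ (t : ℤ) := by
      have : (0 : ℤ) ≤ ((mxK w 0 : ℕ) : ℤ) := by positivity
      linarith
    have hno : ∀ l : ℕ, l.Prime → l ≤ 73 → l ≠ q →
        ¬ ∃ w0 : ℤ, (l : ℤ) ∣ w0 ^ 2 + (t : ℤ) * w0 - P := by
      intro l hl hl73 hla' hex
      have hl' : (l : ℤ) ≤ 73 := by exact_mod_cast hl73
      obtain ⟨k, hk1, hk2, hA⟩ := G.split l hl (by
        rw [hDz]
        have h3 : (0 : ℤ) ≤ l := by positivity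
        nlinarith) hex
      rw [hlen] at hk2
      rcases Nat.lt_or_ge k (w.len + 1) with h | h
      · have := hbig k hk1 (by omega)
        rw [hA] at this
        linarith
      · have : k = w.len + 1 := by omega
        rw [this, ← hlaA, hq] at hA
        apply hla'
        exact_mod_cast hA.symm
    have hP2 : P % 2 = 1 := by
      by_contra hc
      exact hno 2 Nat.prime_two (by norm_num) (Ne.symm k2) ⟨0, by
        have : P % 2 = 0 := by omega
        push_cast
        omega⟩
    have hd8 : D % 8 = 5 := by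
      obtain ⟨t', ht'⟩ : ∃ k, t = 2 * k + 1 := ⟨t / 2, by omega⟩
      obtain ⟨P', hP'⟩ : ∃ k, P = 2 * k + 1 := ⟨P / 2, by omega⟩
      rw [ht', hP'] at hD
      rcases Nat.mod_two_eq_zero_or_one t' with h | h
      · obtain ⟨j, rfl⟩ : ∃ j, t' = 2 * j := ⟨t' / 2, by omega⟩
        have : (2 * (2 * j) + 1) * (2 * (2 * j) + 1) + 4 * (2 * P' + 1) =
          8 * (2 * j ^ 2 + j + P') + 5 := by ring
        omega
      · obtain ⟨j, rfl⟩ : ∃ j, t' = 2 * j + 1 := ⟨t' / 2, by omega⟩
        have : (2 * (2 * j + 1) + 1) * (2 * (2 * j + 1) + 1) + 4 * (2 * P' + 1) =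
          8 * (2 * j ^ 2 + 3 * j + 1 + P') + 5 := by ring
        omega
    refine zR_sound ⟨hdt, hd8, G⟩ ?_ hzr
    intro l hl hsq
    simp only [List.mem_cons, List.not_mem_nil, or_false] at hl
    rcases hl with rfl | rfl | rfl | rfl | rfl | rfl | rfl
    · exact hno 3 (by norm_num) (by norm_num) (Ne.symm k3)
        (root_of_square (by norm_num) (by norm_num) hDz hsq)
    · exact hno 5 (by norm_num) (by norm_num) (Ne.symm k5)
        (root_of_square (by norm_num) (by norm_num) hDz hsq)
    · exact hno 7 (by norm_num) (by norm_num) (Ne.symm k7)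
        (root_of_square (by norm_num) (by norm_num) hDz hsq)
    · exact hno 13 (by norm_num) (by norm_num) (Ne.symm k13)
        (root_of_square (by norm_num) (by norm_num) hDz hsq)
    · exact hno 19 (by norm_num) (by norm_num) (Ne.symm k19)
        (root_of_square (by norm_num) (by norm_num) hDz hsq)
    · exact hno 37 (by norm_num) (by norm_num) (Ne.symm k37)
        (root_of_square (by norm_num) (by norm_num) hDz hsq)
    · exact hno 73 (by norm_num) (by norm_num) (Ne.symm k73)
        (root_of_square (by norm_num) (by norm_num) hDz hsq)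

end Pool.Agent.V5helper47.OD
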