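import Pool.Agent.V5helper47.OD.T5
import Pool.Agent.V5helper47.EV.T6
import Pool.Agent.V5helper47.CN.T14

/-! From a solution of `A x² + B x y - A y² = ± 1` to a word. -/

set_option maxRecDepth 100000

namespace Pool.Agent.V5helper47.OD

open H419R2 Pool.Agent.N911 Finset Pool.Agent.V5helper47.CN Pool.Agent.V5helper47.EV

/-- two representations as a sum of two squares -/
theorem two_sq {U x y n V : ℤ} (hU : 0 < U) (h1 : x ^ 2 + y ^ 2 = U) (h2 : n ^ 2 + V ^ 2 = U)
    (h3 : U ∣ x * V - n * y) : (|x| = |n| ∧ |y| = |V|) ∨ (|x| = |V| ∧ |y| = |n|) := by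
  obtain ⟨k, hk⟩ := h3
  obtain ⟨s, hs⟩ : ∃ s, s = x * n + V * y := ⟨_, rfl⟩
  have e1 : U * x = V * (U * k) + n * s := by
    rw [← hk, hs, ← h2]; ring
  have e2 : U * y = V * s - n * (U * k) := by
    rw [← hk, hs, ← h2]; ring
  have e3 : s ^ 2 = U ^ 2 * (1 - k ^ 2) := by
    have : s ^ 2 + (x * V - n * y) ^ 2 = (x ^ 2 + y ^ 2) * (n ^ 2 + V ^ 2) := by rw [hs]; ring
    rw [hk, h1, h2] at this
    linear_combination this
  have hk1 : k ^ 2 ≤ 1 := by
    by_contra hc
    push Not at hc
    have h4 : U ^ 2 * (1 - k ^ 2) < 0 := mul_neg_of_pos_of_neg (by positivity) (by linarith)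
    have : 0 ≤ s ^ 2 := sq_nonneg s
    linarith
  have hk2 : k = 0 ∨ k = 1 ∨ k = -1 := by
    have h4 : |k| ≤ 1 := by
      rw [← sq_le_one_iff_abs_le_one]
      exact hk1
    rw [abs_le] at h4
    omega
  have cancel : ∀ {p q : ℤ}, U * p = U * q → p = q := fun h => mul_left_cancel₀ hU.ne' h
  rcases hk2 with h | h | h
  · left
    rw [h] at e1 e2 e3
    have h5 : s = U ∨ s = -U := by
      have : (s - U) * (s + U) = 0 := by linear_combination e3
      rcases mul_eq_zero.mp this with h | h
      · left; linarith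
      · right; linarith
    rcases h5 with h5 | h5
    · rw [h5] at e1 e2
      have x1 : x = n := cancel (by linear_combination e1)
      have y1 : y = V := cancel (by linear_combination e2)
      rw [x1, y1]
      exact ⟨rfl, rfl⟩
    · rw [h5] at e1 e2
      have x1 : x = -n := cancel (by linear_combination e1)
      have y1 : y = -V := cancel (by linear_combination e2)
      rw [x1, y1, abs_neg, abs_neg]
      exact ⟨rfl, rfl⟩
  · right
    rw [h] at e1 e2 e3
    have h5 : s = 0 := by
      have : s ^ 2 = 0 := by linear_combination e3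
      exact pow_eq_zero_iff (two_ne_zero) |>.mp this
    rw [h5] at e1 e2
    have x1 : x = V := cancel (by linear_combination e1)
    have y1 : y = -n := cancel (by linear_combination e2)
    rw [x1, y1, abs_neg]
    exact ⟨rfl, rfl⟩
  · right
    rw [h] at e1 e2 e3
    have h5 : s = 0 := by
      have : s ^ 2 = 0 := by linear_combination e3
      exact pow_eq_zero_iff (two_ne_zero) |>.mp this
    rw [h5] at e1 e2
    have x1 : x = -V := cancel (by linear_combination e1)
    have y1 : y = n := cancel (by linear_combination e2)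
    rw [x1, y1, abs_neg]
    exact ⟨rfl, rfl⟩

/-- the parameters of a solution -/
theorem par_sol {d : ℕ} {A B x y : ℤ} (hd4 : d % 4 = 1) (hd1 : 1 < d)
    (hd : (d : ℤ) = B ^ 2 + 4 * A ^ 2)
    (h : A * x ^ 2 + B * x * y - A * y ^ 2 = 1 ∨ A * x ^ 2 + B * x * y - A * y ^ 2 = -1) :
    ∃ U x' y' t P : ℕ, (U : ℤ) = x ^ 2 + y ^ 2 ∧ 0 < U ∧ x' < U ∧ U * y' = x' ^ 2 + 1 ∧
      t % 2 = 1 ∧ d = t * t + 4 * P ∧ P * U = t * x' + y' ∧
      ((U : ℤ) ∣ x' * y - x ∨ (U : ℤ) ∣ x' * y + x) := by
  obtain ⟨e, he, hee⟩ : ∃ e : ℤ, A * x ^ 2 + B * x * y - A * y ^ 2 = e ∧ (e = 1 ∨ e = -1) :=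
    ⟨_, rfl, h⟩
  have he2 : e ^ 2 = 1 := by rcases hee with h | h <;> rw [h] <;> norm_num
  obtain ⟨U, hU⟩ : ∃ U : ℕ, (U : ℤ) = x ^ 2 + y ^ 2 :=
    ⟨(x ^ 2 + y ^ 2).toNat, Int.toNat_of_nonneg (by positivity)⟩
  have hU0 : 0 < U := by
    rcases Nat.eq_zero_or_pos U with h0 | h0
    · exfalso
      rw [h0] at hU
      push_cast at hU
      have hx : x = 0 := by nlinarith [sq_nonneg x, sq_nonneg y]
      have hy : y = 0 := by nlinarith [sq_nonneg x, sq_nonneg y]
      rw [hx, hy] at he
      rw [← he] at he2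
      norm_num at he2
    · exact h0
  have hUz : (0 : ℤ) < U := by exact_mod_cast hU0
  obtain ⟨c, hc⟩ : ∃ c : ℤ, c = 2 * A * x * y + B * y ^ 2 := ⟨_, rfl⟩
  obtain ⟨r, hr⟩ : ∃ r : ℤ, r = A ^ 2 * y ^ 2 + (A * x + B * y) ^ 2 := ⟨_, rfl⟩
  have k1 : (U : ℤ) * r = c ^ 2 + 1 := by
    rw [hU, hr, hc, ← he2, ← he]; ring
  have k2 : (B * U - 2 * c) ^ 2 + 4 = d * U ^ 2 := by
    have : r = A ^ 2 * U + B * c := by rw [hr, hU, hc]; ring
    rw [this] at k1
    rw [hd]
    linear_combination -4 * k1
  have k3 : c * y + e * x = U * (A * x + B * y) - U * 0 - (A * x * U) + (c * y + e * x -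
    B * y * U) := by ring
  have k4 : (U : ℤ) ∣ c * y + e * x := by
    refine ⟨A * x + B * y, ?_⟩
    rw [hU, hc, ← he]; ring
  have hB : B % 2 = 1 := by
    have h1 : (d : ℤ) % 4 = 1 := by exact_mod_cast hd4
    rcases Int.emod_two_eq_zero_or_one B with h0 | h0
    · exfalso
      obtain ⟨j, hj⟩ : ∃ j, B = 2 * j := ⟨B / 2, by omega⟩
      rw [hj] at hd
      have : (2 * j) ^ 2 + 4 * A ^ 2 = 4 * (j ^ 2 + A ^ 2) := by ring
      omega
    · exact h0
  -- the sign of the trace
  obtain ⟨g, hg, T, hT⟩ : ∃ g : ℤ, (g = 1 ∨ g = -1) ∧ ∃ T : ℕ, (T : ℤ) = g * (B * U - 2 * c) := by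
    rcases le_total 0 (B * (U : ℤ) - 2 * c) with h0 | h0
    · exact ⟨1, Or.inl rfl, (B * (U : ℤ) - 2 * c).toNat, by
        rw [Int.toNat_of_nonneg h0, one_mul]⟩
    · exact ⟨-1, Or.inr rfl, (-(B * (U : ℤ) - 2 * c)).toNat, by
        rw [Int.toNat_of_nonneg (by linarith)]; ring⟩
  have hg2 : g ^ 2 = 1 := by rcases hg with h | h <;> rw [h] <;> norm_num
  obtain ⟨x', hx'⟩ : ∃ x' : ℕ, (x' : ℤ) = (-(g * c)) % U :=
    ⟨((-(g * c)) % (U : ℤ)).toNat, Int.toNat_of_nonneg (Int.emod_nonneg _ hUz.ne')⟩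
  have hlt : x' < U := by
    have := Int.emod_lt_of_pos (-(g * c)) hUz
    rw [← hx'] at this
    exact_mod_cast this
  obtain ⟨k, hk⟩ : ∃ k : ℤ, (x' : ℤ) = -(g * c) + U * k := by
    refine ⟨-((-(g * c)) / U), ?_⟩
    rw [hx', Int.emod_def]
    ring
  have m1 : U ∣ x' ^ 2 + 1 := by
    have : (U : ℤ) ∣ (x' : ℤ) ^ 2 + 1 := by
      refine ⟨r - 2 * g * c * k + U * k ^ 2, ?_⟩
      rw [hk]
      linear_combination -k1 + c ^ 2 * hg2
    exact_mod_cast this
  have m2 : (T : ℤ) - 2 * x' = U * (g * B - 2 * k) := by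
    rw [hT, hk]; ring
  have m3 : T * T + 4 = d * (U * U) := by
    have : (T : ℤ) * T + 4 = d * (U * U) := by
      rw [hT]
      linear_combination k2 + (B * U - 2 * c) ^ 2 * hg2
    exact_mod_cast this
  obtain ⟨y', t, P, h1, h2, h3, h4⟩ := par_of m3 hU0 hlt m1 ⟨_, m2⟩ hd4 hd1 (by
    intro t ht
    rw [m2] at ht
    have : g * B - 2 * k = t := mul_left_cancel₀ hUz.ne' ht
    rcases hg with h0 | h0 <;> rw [h0] at this <;> omega)
  refine ⟨U, x', y', t, P, hU, hU0, hlt, h1, h2, h3, h4, ?_⟩
  have m4 : (U : ℤ) ∣ x' * y - g * e * x := by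
    have e1 : (x' : ℤ) * y - g * e * x = U * (k * y) - g * (c * y + e * x) := by rw [hk]; ring
    rw [e1]
    exact dvd_sub (Dvd.intro _ rfl) (k4.mul_left _)
  rcases hg with h0 | h0 <;> rcases hee with h5 | h5 <;> rw [h0, h5] at m4
  · left
    have : (x' : ℤ) * y - 1 * 1 * x = x' * y - x := by ring
    rwa [this] at m4
  · right
    have : (x' : ℤ) * y - 1 * -1 * x = x' * y + x := by ring
    rwa [this] at m4
  · right
    have : (x' : ℤ) * y - -1 * 1 * x = x' * y + x := by ring
    rwa [this] at m4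
  · left
    have : (x' : ℤ) * y - -1 * -1 * x = x' * y - x := by ring
    rwa [this] at m4

/-- the first entry of the half word is the shorter side -/
theorem short_side {w : WL} {b : ℕ} (hw : (snoc w b).Pos) {U x' y' : ℕ} {x y : ℤ}
    (htr : (snoc w b).tr = (U, x', y')) (hU : (U : ℤ) = x ^ 2 + y ^ 2)
    (h : (U : ℤ) ∣ x' * y - x ∨ (U : ℤ) ∣ x' * y + x) : ((mat w).1 : ℤ) = min |x| |y| := by
  obtain ⟨hwp, hb⟩ := snoc_pos hw
  have hdm := mat_det w
  have hs := sg_sq w
  have hV := mat_pos hwp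
  have hs1 : sg w = 1 ∨ sg w = -1 := by
    have : (sg w - 1) * (sg w + 1) = 0 := by linear_combination hs
    rcases mul_eq_zero.mp this with h | h
    · left; linarith
    · right; linarith
  rw [tr_snoc, Prod.mk.injEq, Prod.mk.injEq] at htr
  obtain ⟨g1, g2, _⟩ := htr
  generalize (mat w).1 = v at *
  generalize (mat w).2.1 = p at *
  generalize (mat w).2.2.1 = r at *
  generalize (mat w).2.2.2 = z at *
  generalize sg w = s at *
  obtain ⟨n, hn⟩ : ∃ n : ℕ, n = b * v + p := ⟨_, rfl⟩
  rw [← hn] at g1 g2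
  have hvn : v ≤ n := by
    have : 1 * v ≤ b * v := Nat.mul_le_mul_right _ hb
    omega
  have g1z : (n : ℤ) ^ 2 + (v : ℤ) ^ 2 = U := by exact_mod_cast g1
  have g2z : (n : ℤ) * (b * r + z) + v * r = x' := by exact_mod_cast g2
  have hUz : (0 : ℤ) < U := by
    rw [← g1z]
    have : (0 : ℤ) < v := by exact_mod_cast hV
    positivity
  have g3 : (v : ℤ) * (b * r + z) = n * r + s := by
    rw [hn]; push_cast; linear_combination hdm
  -- `x' v ≡ s n`
  have g4 : (x' : ℤ) * v = s * n + U * r := by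
    rw [← g2z, ← g1z]
    linear_combination (n : ℤ) * g3
  have key : (U : ℤ) ∣ x * v - n * y ∨ (U : ℤ) ∣ x * v - n * (-y) := by
    rcases h with h | h
    · -- `x' y ≡ x`
      have e1 : (U : ℤ) ∣ s * n * y - x * v := by
        have : s * n * y - x * v = (x' * y - x) * v - U * (r * y) := by
          linear_combination -(y : ℤ) * g4
        rw [this]
        exact dvd_sub (h.mul_right _) (Dvd.intro _ rfl)
      rcases hs1 with h0 | h0
      · left
        rw [h0] at e1
        have : x * v - n * y = -(1 * n * y - x * v) := by ring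
        rw [this]
        exact (dvd_neg).mpr e1
      · right
        rw [h0] at e1
        have : x * v - n * (-y) = -(-1 * n * y - x * v) := by ring
        rw [this]
        exact (dvd_neg).mpr e1
    · have e1 : (U : ℤ) ∣ s * n * y + x * v := by
        have : s * n * y + x * v = (x' * y + x) * v - U * (r * y) := by
          linear_combination -(y : ℤ) * g4
        rw [this]
        exact dvd_sub (h.mul_right _) (Dvd.intro _ rfl)
      rcases hs1 with h0 | h0
      · right
        rw [h0] at e1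
        have : x * v - n * (-y) = 1 * n * y + x * v := by ring
        rw [this]
        exact e1
      · left
        rw [h0] at e1
        have : x * v - n * y = -1 * n * y + x * v := by ring
        rw [this]
        exact e1
  have fin : (|x| = |(n : ℤ)| ∧ |y| = |(v : ℤ)|) ∨ (|x| = |(v : ℤ)| ∧ |y| = |(n : ℤ)|) := by
    rcases key with k | k
    · exact two_sq hUz hU.symm g1z k
    · have := two_sq (y := -y) hUz (by rw [hU]; ring) g1z k
      rwa [abs_neg] at this
  have hvn' : (v : ℤ) ≤ n := by exact_mod_cast hvn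
  rcases fin with ⟨h1, h2⟩ | ⟨h1, h2⟩
  · rw [h1, h2, Nat.abs_cast, Nat.abs_cast, min_eq_right hvn']
  · rw [h1, h2, Nat.abs_cast, Nat.abs_cast, min_eq_left hvn']

/-! ### The empty word -/

theorem nil_sm : smA 1 0 1 .nil = true := by decide +kernel
theorem nil_w : wOK c133_73 c333_43 1 0 1 .nil = true := by decide +kernel
theorem nil_list : List78.all (fun D => or (inO D)
  (allN 400 (fun t => not (Nat.beq D (t * t + 4))))) = true := by decide +kernel
theorem nil_lt : List78.all (fun D => decide (D < 160000)) = true := by decide +kernel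

theorem word_nil {t D : ℕ} (hodd : t % 2 = 1) (hD : D = t * t + 4) (hsf : Squarefree (D : ℤ))
    {K : Type*} [Field K] [NumberField K] (hK : Module.finrank ℚ K = 2) {z : K}
    (hz : z ^ 2 = ((D : ℤ) : K)) (hcl : NumberField.classNumber K = 1) : D ∈ LO := by
  have h := word_final (v := .nil) trivial (t := t) (P := 1) (U := 1) (x := 0) (y := 1) rfl
    (by norm_num) (by norm_num) (by omega) hodd (by rw [hD]) hsf hK hz hcl
    (fun _ _ h _ => h) nil_sm nil_w
  have h1 := List.all_eq_true.mp nil_list D h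
  have h2 := List.all_eq_true.mp nil_lt D h
  rw [Bool.or_eq_true, allN_iff] at h1
  rw [decide_eq_true_eq] at h2
  rcases h1 with h1 | h1
  · exact inO_sound h1
  · exfalso
    have h3 := h1 t (by
      by_contra hc
      push Not at hc
      have : 400 * 400 ≤ t * t := Nat.mul_le_mul hc hc
      omega)
    rw [hD] at h3
    simp at h3

/-- all half words with first entry at most `N` pass -/
def FullO (N : ℕ) : Prop := ∀ w : WL, w.Pos → (mat w).1 ≤ N → OkO w

theorem main_odd {N : ℕ} (hF : FullO N) {d : ℕ} {A B x y : ℤ} (hsf : Squarefree d)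
    (hd4 : d % 4 = 1) (hd1 : 1 < d) (hd : (d : ℤ) = B ^ 2 + 4 * A ^ 2)
    (h : A * x ^ 2 + B * x * y - A * y ^ 2 = 1 ∨ A * x ^ 2 + B * x * y - A * y ^ 2 = -1)
    (hmin : min |x| |y| ≤ N)
    {K : Type*} [Field K] [NumberField K] (hK : Module.finrank ℚ K = 2) {z : K}
    (hz : z ^ 2 = (d : K)) (hcl : NumberField.classNumber K = 1) : d ∈ LO := by
  obtain ⟨U, x', y', t, P, hU, hU0, hlt, hdet, hodd, hD, hlin, hdv⟩ := par_sol hd4 hd1 hd h
  have hsfz : Squarefree (d : ℤ) := Int.squarefree_natCast.mpr hsf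
  have hzz : z ^ 2 = ((d : ℤ) : K) := by rw [hz]; push_cast; rfl
  obtain ⟨v, hv, htr⟩ := exists_word U x' y' hdet hlt
  by_cases hnil : v = .nil
  · subst hnil
    have h0 : (1, 0, 1) = (U, x', y') := htr
    simp only [Prod.mk.injEq] at h0
    obtain ⟨rfl, rfl, rfl⟩ := h0
    exact word_nil (t := t) hodd (by rw [hD]; omega) hsfz hK hzz hcl
  · obtain ⟨w, b, rfl⟩ := exists_snoc hnil
    obtain ⟨hwp, hb⟩ := snoc_pos hv
    have hV := short_side hv htr hU hdv
    have hVN : (mat w).1 ≤ N := by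
      have : ((mat w).1 : ℤ) ≤ N := by rw [hV]; exact hmin
      exact_mod_cast this
    have hlin' : P * (snoc w b).tr.1 = t * (snoc w b).tr.2.1 + (snoc w b).tr.2.2 := by
      rw [htr]; exact hlin
    by_cases hex : la (snoc w b) (f0 t P) * (mat w).1 ^ 2 = sg w
    · -- the exceptional case: `w` is empty and `P = 1`
      have hlam := lam_of_lin hlin'
      have htz : (0 : ℤ) < t := by
        have : 0 < t := by omega
        exact_mod_cast this
      have hla0 : 0 < la (snoc w b) (f0 t P) := by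
        rw [la_eq_fs]
        exact posA hv htz hlam _ (by rw [snoc_len])
      have hVp := mat_pos hwp
      have hV1 : (1 : ℤ) ≤ (mat w).1 := by exact_mod_cast hVp
      have hs := sg_sq w
      have hs1 : sg w = 1 ∨ sg w = -1 := by
        have : (sg w - 1) * (sg w + 1) = 0 := by linear_combination hs
        rcases mul_eq_zero.mp this with h | h
        · left; linarith
        · right; linarith
      have h1 : 0 < la (snoc w b) (f0 t P) * (mat w).1 ^ 2 := by positivity
      have hs2 : sg w = 1 := by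
        rcases hs1 with h | h
        · exact h
        · rw [hex, h] at h1
          norm_num at h1
      rw [hs2] at hex
      have hV2 : (mat w).1 = 1 := by
        by_contra hc
        have h3 : (2 : ℤ) ≤ (mat w).1 := by
          have : 2 ≤ (mat w).1 := by omega
          exact_mod_cast this
        nlinarith
      rcases V_one hwp hV2 with rfl | rfl
      · have h4 : la (snoc WL.nil b) (f0 t P) = P := rfl
        rw [h4, hV2] at hex
        have hP : P = 1 := by
          have : (P : ℤ) = 1 := by simpa using hex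
          exact_mod_cast this
        subst hP
        exact word_nil (t := t) hodd (by rw [hD]) hsfz hK hzz hcl
      · exfalso
        have : sg (WL.cons 1 .nil) = -1 := rfl
        rw [this] at hs2
        norm_num at hs2
    · exact word_odd hv hlin' hodd hD hsfz hK hzz hcl hex (hF w hwp hVN)

/-- words with a given first entry, from a complete list -/
theorem okO_of_list {v : ℕ} {L : List (List ℕ)} (hL : ∀ l ∈ L, ckW l = true)
    (hw : wk v (v + 1) (fun w => anyL L (fun l => eqW w (wl l))) 90 WL.nil 1 0 1 =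
      true) {w : WL} (hp : w.Pos) (hn : w ≠ .nil) (h : (mat w).1 = v) : OkO w := by
  have h1 := wk_all hw hp hn (by omega) (by omega)
  rw [anyL_iff] at h1
  obtain ⟨l, hl, h2⟩ := h1
  have h3 := hL l hl
  unfold ckW at h3
  rw [cj_true, ← eqW_sound h2] at h3
  exact h3

end Pool.Agent.V5helper47.OD
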